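import Mathlib
import Pool.Agent.H892.ZL.Stm2

set_option autoImplicit false

/-!
# ZL project (helper892), task BRIDGE (helper726)
-/

namespace Pool.Agent.H892.ZL.WBRIDGE

open Pool.Agent.H892.ZL

open MvPolynomial Matrix

open scoped LinearAlgebra.Projectivization

/-- homogeneous polynomials and scalars -/
theorem eval_smul_hom {σ : Type*} {p : MvPolynomial σ ℂ} {n : ℕ} (hp : p.IsHomogeneous n) (c : ℂ)
    (x : σ → ℂ) : eval (c • x) p = c ^ n * eval x p := by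
  rw [eval_eq, eval_eq, Finset.mul_sum]
  refine Finset.sum_congr rfl fun d hd => ?_
  have hdeg : ∑ i ∈ d.support, d i = n := by
    have h1 := hp (mem_support_iff.1 hd)
    rw [← h1, Finsupp.weight_apply, Finsupp.sum]
    exact Finset.sum_congr rfl fun i _ => by simp
  have h2 : ∏ i ∈ d.support, (c • x) i ^ d i = c ^ n * ∏ i ∈ d.support, x i ^ d i := by
    simp only [Pi.smul_apply, smul_eq_mul, mul_pow]
    rw [Finset.prod_mul_distrib, Finset.prod_pow_eq_pow_sum, hdeg]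
  rw [h2]
  ring

section lift

variable {m : ℕ} {V W : Set (ℙ ℂ (Fin m → ℂ))}

open scoped Classical in
/-- a map of projective sets as a map of vectors -/
noncomputable def lft (φ : V → W) (v : Fin m → ℂ) : Fin m → ℂ :=
  if h : ∃ hv : v ≠ 0, Projectivization.mk ℂ v hv ∈ V then
    (φ ⟨Projectivization.mk ℂ v h.1, h.2⟩).1.rep else 0

theorem lft_eq (φ : V → W) (v : Fin m → ℂ) (hv : v ≠ 0) (hm : Projectivization.mk ℂ v hv ∈ V) :
    lft φ v = (φ ⟨Projectivization.mk ℂ v hv, hm⟩).1.rep := by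
  unfold lft
  rw [dif_pos ⟨hv, hm⟩]

theorem lft_ne (φ : V → W) (v : Fin m → ℂ) (hv : v ≠ 0) (hm : Projectivization.mk ℂ v hv ∈ V) :
    lft φ v ≠ 0 := by
  rw [lft_eq φ v hv hm]
  exact Projectivization.rep_nonzero _

theorem mk_lft (φ : V → W) (v : Fin m → ℂ) (hv : v ≠ 0) (hm : Projectivization.mk ℂ v hv ∈ V)
    (hl : lft φ v ≠ 0) :
    Projectivization.mk ℂ (lft φ v) hl = (φ ⟨Projectivization.mk ℂ v hv, hm⟩).1 := by
  have h1 := Projectivization.mk_rep (φ ⟨Projectivization.mk ℂ v hv, hm⟩).1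
  rw [← h1]
  congr 1
  rw [lft_eq φ v hv hm]

theorem lft_smul (φ : V → W) (v : Fin m → ℂ) (hv : v ≠ 0) (hm : Projectivization.mk ℂ v hv ∈ V)
    (c : ℂ) (hc : c ≠ 0) : lft φ (c • v) = lft φ v := by
  have hcv : c • v ≠ 0 := smul_ne_zero hc hv
  have h1 : Projectivization.mk ℂ (c • v) hcv = Projectivization.mk ℂ v hv :=
    (Projectivization.mk_eq_mk_iff' ℂ _ _ _ _).2 ⟨c, rfl⟩
  have h2 : Projectivization.mk ℂ (c • v) hcv ∈ V := by rw [h1]; exact hm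
  rw [lft_eq φ (c • v) hcv h2, lft_eq φ v hv hm]
  have h3 : (⟨Projectivization.mk ℂ (c • v) hcv, h2⟩ : V) = ⟨Projectivization.mk ℂ v hv, hm⟩ :=
    Subtype.ext h1
  rw [h3]

theorem prop2_smul (a : ℂ) (v : Fin m → ℂ) : Prop2 (a • v) v := by
  intro i j
  simp only [Pi.smul_apply, smul_eq_mul]
  ring

theorem lft_lft (φ : V ≃ W) (v : Fin m → ℂ) (hv : v ≠ 0) (hm : Projectivization.mk ℂ v hv ∈ V) :
    Prop2 (lft φ.symm (lft φ v)) v := by
  have hl := lft_ne φ v hv hm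
  have h1 := mk_lft φ v hv hm hl
  have h2 : Projectivization.mk ℂ (lft φ v) hl ∈ W := by rw [h1]; exact Subtype.prop _
  rw [lft_eq φ.symm (lft φ v) hl h2]
  have h3 : (⟨Projectivization.mk ℂ (lft φ v) hl, h2⟩ : W) =
      φ ⟨Projectivization.mk ℂ v hv, hm⟩ := Subtype.ext h1
  rw [h3, Equiv.symm_apply_apply]
  obtain ⟨a, ha⟩ := Projectivization.exists_smul_eq_mk_rep ℂ v hv
  show Prop2 (Projectivization.mk ℂ v hv).rep v
  rw [← ha]
  exact prop2_smul (a : ℂ) v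

end lift

variable {V W : Set (ℙ ℂ (Fin 6 → ℂ))}

theorem lft_rep (C : Set (Fin 6 → ℂ)) (hC0 : ∀ v ∈ C, v ≠ 0)
    (hC : ∀ (v : Fin 6 → ℂ) (hv : v ≠ 0), v ∈ C ↔ Projectivization.mk ℂ v hv ∈ V)
    (φ : V → W) (hφ : IsRegularMap V W φ) (v : Fin 6 → ℂ) (hvC : v ∈ C) :
    ∃ (d : ℕ) (f : Fin 6 → MvPolynomial (Fin 6) ℂ), Rep C (lft φ) d f ∧
      ∃ i, eval v (f i) ≠ 0 := by
  have hv := hC0 v hvC
  have hm := (hC v hv).1 hvC
  obtain ⟨d, e, f, h, hf, hh, hv1, hu⟩ := hφ ⟨Projectivization.mk ℂ v hv, hm⟩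
  refine ⟨e + d, fun i => h * f i, ⟨fun i => hh.mul (hf i), ?_⟩, ?_⟩
  · intro u huC huf i j
    have hu0 := hC0 u huC
    have hum := (hC u hu0).1 huC
    obtain ⟨i0, hi0⟩ := huf
    rw [map_mul] at hi0
    have hh0 : eval u h ≠ 0 := left_ne_zero_of_mul hi0
    obtain ⟨a, ha⟩ := Projectivization.exists_smul_eq_mk_rep ℂ u hu0
    have ha' : (Projectivization.mk ℂ u hu0).rep = (a : ℂ) • u := ha.symm
    have h1 : eval (Projectivization.mk ℂ u hu0).rep h ≠ 0 := by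
      rw [ha', eval_smul_hom hh]
      exact mul_ne_zero (pow_ne_zero _ a.ne_zero) hh0
    obtain ⟨hf0, h2⟩ := hu ⟨Projectivization.mk ℂ u hu0, hum⟩ h1
    rw [lft_eq φ u hu0 hum, h2]
    obtain ⟨b, hb⟩ := Projectivization.exists_smul_eq_mk_rep ℂ _ hf0
    rw [← hb]
    show eval u (h * f i) * ((b : ℂ) * eval (Projectivization.mk ℂ u hu0).rep (f j)) =
      eval u (h * f j) * ((b : ℂ) * eval (Projectivization.mk ℂ u hu0).rep (f i))
    rw [ha', eval_smul_hom (hf i), eval_smul_hom (hf j), map_mul, map_mul]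
    ring
  · obtain ⟨a, ha⟩ := Projectivization.exists_smul_eq_mk_rep ℂ v hv
    have ha' : (Projectivization.mk ℂ v hv).rep = (a : ℂ) • v := ha.symm
    obtain ⟨hf0, _⟩ := hu ⟨Projectivization.mk ℂ v hv, hm⟩ hv1
    obtain ⟨i, hi⟩ := Function.ne_iff.1 hf0
    refine ⟨i, ?_⟩
    have h3 : eval (Projectivization.mk ℂ v hv).rep h ≠ 0 := hv1
    have h4 : eval (Projectivization.mk ℂ v hv).rep (f i) ≠ 0 := hi
    rw [ha', eval_smul_hom hh] at h3
    rw [ha', eval_smul_hom (hf i)] at h4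
    rw [map_mul]
    exact mul_ne_zero (right_ne_zero_of_mul h3) (right_ne_zero_of_mul h4)

theorem t_BRIDGE (h1 : S_CONE) : S_BRIDGE := by
  intro Q Q' hQ hQ' hiso
  obtain ⟨φ, hφ, hψ⟩ := hiso
  have c1 := h1 Q hQ
  have c2 := h1 Q' hQ'
  have n1 : ∀ v ∈ Cone (NetK Q), v ≠ 0 := fun v hv => hv.1
  have n2 : ∀ v ∈ Cone (NetK Q'), v ≠ 0 := fun v hv => hv.1
  refine ⟨lft φ, lft φ.symm, ?_, ?_, ?_, ?_, ?_, ?_, ?_, ?_⟩
  · intro v hv
    have hm := (c1 v (n1 v hv)).1 hv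
    have hl := lft_ne φ v (n1 v hv) hm
    rw [c2 _ hl, mk_lft φ v (n1 v hv) hm hl]
    exact Subtype.prop _
  · intro v hv
    have hm := (c2 v (n2 v hv)).1 hv
    have hl := lft_ne φ.symm v (n2 v hv) hm
    rw [c1 _ hl, mk_lft φ.symm v (n2 v hv) hm hl]
    exact Subtype.prop _
  · intro v hv c hc
    rw [lft_smul φ v (n1 v hv) ((c1 v (n1 v hv)).1 hv) c hc]
    exact fun i j => mul_comm _ _
  · intro v hv c hc
    rw [lft_smul φ.symm v (n2 v hv) ((c2 v (n2 v hv)).1 hv) c hc]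
    exact fun i j => mul_comm _ _
  · intro v hv
    exact lft_lft φ v (n1 v hv) ((c1 v (n1 v hv)).1 hv)
  · intro v hv
    exact lft_lft φ.symm v (n2 v hv) ((c2 v (n2 v hv)).1 hv)
  · intro v hv
    exact lft_rep (Cone (NetK Q)) n1 c1 φ hφ v hv
  · intro v hv
    exact lft_rep (Cone (NetK Q')) n2 c2 φ.symm hψ v hv

end Pool.Agent.H892.ZL.WBRIDGE
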