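import Mathlib
import Pool.Agent.H892.ZL.Stm2

set_option autoImplicit false

/-!
# No four points of the two octads are coplanar (helper784 for helper892)
-/

namespace Pool.Agent.H892.ZL.WBRK

open Pool.Agent.H892.ZL

namespace BRK

/-- the determinant of four vectors by Pluecker coordinates -/
def F (x y z w : Fin 4 → ℤ) : ℤ :=
  (x 0 * y 1 - x 1 * y 0) * (z 2 * w 3 - z 3 * w 2)
    - (x 0 * y 2 - x 2 * y 0) * (z 1 * w 3 - z 3 * w 1)
    + (x 0 * y 3 - x 3 * y 0) * (z 1 * w 2 - z 2 * w 1)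
    + (x 1 * y 2 - x 2 * y 1) * (z 0 * w 3 - z 3 * w 0)
    - (x 1 * y 3 - x 3 * y 1) * (z 0 * w 2 - z 2 * w 0)
    + (x 2 * y 3 - x 3 * y 2) * (z 0 * w 1 - z 1 * w 0)

theorem brk_eq (P : Fin 8 → Fin 4 → ℤ) (i j k l : Fin 8) :
    brk P i j k l = F (P i) (P j) (P k) (P l) := by
  unfold brk F
  rw [Matrix.det_succ_row_zero, Fin.sum_univ_four]
  simp only [Matrix.det_fin_three, Matrix.of_apply, Matrix.submatrix_apply, Fin.succAbove,
    Fin.succ_zero_eq_one, Fin.succ_one_eq_two, Fin.isValue, Matrix.cons_val_zero,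
    Matrix.cons_val_one, Matrix.cons_val, Fin.coe_ofNat_eq_mod]
  simp [Fin.lt_def, Fin.castSucc, Fin.succ]
  ring

theorem all_A : ∀ i j k l : Fin 8, i ≠ j → i ≠ k → i ≠ l → j ≠ k → j ≠ l → k ≠ l →
    F (PAi i) (PAi j) (PAi k) (PAi l) ≠ 0 := by
  decide +kernel

theorem all_B : ∀ i j k l : Fin 8, i ≠ j → i ≠ k → i ≠ l → j ≠ k → j ≠ l → k ≠ l →
    F (PBi i) (PBi j) (PBi k) (PBi l) ≠ 0 := by
  decide +kernel

end BRK

open BRK in
theorem t_BRK : S_BRK := by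
  refine ⟨fun i j k l h1 h2 h3 h4 h5 h6 => ?_, fun i j k l h1 h2 h3 h4 h5 h6 => ?_⟩
  · rw [brk_eq]
    exact all_A i j k l h1 h2 h3 h4 h5 h6
  · rw [brk_eq]
    exact all_B i j k l h1 h2 h3 h4 h5 h6

end Pool.Agent.H892.ZL.WBRK
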