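import Mathlib
import Pool.Agent.H892.ZL.Stm2

set_option autoImplicit false

/-!
# The cone of the threefold is the variety of the lines contained in a member of the net
-/

namespace Pool.Agent.H892.ZL.WCONE

open Pool.Agent.H892.ZL MvPolynomial Matrix

open scoped LinearAlgebra.Projectivization

theorem bf_member (Q : Fin 3 → Matrix (Fin 4) (Fin 4) ℂ) (l : Fin 3 → ℂ) (x y : Fin 4 → ℂ) :
    bf (member Q l) x y = ∑ k, l k * bf (Q k) x y := by
  unfold bf member
  rw [Matrix.sum_mulVec, dotProduct_sum]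
  refine Finset.sum_congr rfl fun k _ => ?_
  rw [Matrix.smul_mulVec, dotProduct_smul, smul_eq_mul]

theorem bf_symm {A : Matrix (Fin 4) (Fin 4) ℂ} (hA : A.IsSymm) (x y : Fin 4 → ℂ) :
    bf A y x = bf A x y := by
  unfold bf
  rw [Matrix.dotProduct_mulVec, ← Matrix.mulVec_transpose, hA.eq, dotProduct_comm]

theorem member_symm {Q : Fin 3 → Matrix (Fin 4) (Fin 4) ℂ} (hQ : ∀ k, (Q k).IsSymm)
    (l : Fin 3 → ℂ) : (member Q l).IsSymm := by
  unfold member Matrix.IsSymm
  rw [Matrix.transpose_sum]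
  refine Finset.sum_congr rfl fun k _ => ?_
  rw [Matrix.transpose_smul, (hQ k).eq]

theorem qf_comb {A : Matrix (Fin 4) (Fin 4) ℂ} (hA : A.IsSymm) (x y : Fin 4 → ℂ) (a b : ℂ) :
    qf A (a • x + b • y) = a ^ 2 * bf A x x + 2 * a * b * bf A x y + b ^ 2 * bf A y y := by
  have h : qf A (a • x + b • y) = bf A (a • x + b • y) (a • x + b • y) := rfl
  rw [h]
  have h2 : bf A (a • x + b • y) (a • x + b • y) =
      a * a * bf A x x + a * b * bf A x y + b * a * bf A y x + b * b * bf A y y := by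
    unfold bf
    rw [Matrix.mulVec_add, Matrix.mulVec_smul, Matrix.mulVec_smul, dotProduct_add,
      add_dotProduct, add_dotProduct, smul_dotProduct, smul_dotProduct, smul_dotProduct,
      smul_dotProduct, dotProduct_smul, dotProduct_smul, dotProduct_smul, dotProduct_smul]
    simp only [smul_eq_mul]
    ring
  rw [h2, bf_symm hA x y]
  ring

/-- a member of the net contains the line if and only if the determinant vanishes -/
theorem det_iff {Q : Fin 3 → Matrix (Fin 4) (Fin 4) ℂ} (hQ : ∀ k, (Q k).IsSymm)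
    (x y : Fin 4 → ℂ) : (NN Q x y).det = 0 ↔
      ∃ l : Fin 3 → ℂ, l ≠ 0 ∧ ∀ a b : ℂ, qf (member Q l) (a • x + b • y) = 0 := by
  rw [← Matrix.exists_vecMul_eq_zero_iff]
  have key : ∀ l : Fin 3 → ℂ, l ᵥ* NN Q x y = 0 ↔
      ∀ a b : ℂ, qf (member Q l) (a • x + b • y) = 0 := by
    intro l
    have e0 : (l ᵥ* NN Q x y) 0 = bf (member Q l) x x := by
      rw [bf_member]; rfl
    have e1 : (l ᵥ* NN Q x y) 1 = bf (member Q l) x y := by
      rw [bf_member]; rfl
    have e2 : (l ᵥ* NN Q x y) 2 = bf (member Q l) y y := by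
      rw [bf_member]; rfl
    constructor
    · intro h a b
      rw [qf_comb (member_symm hQ l), ← e0, ← e1, ← e2, h]
      simp
    · intro h
      have h1 := h 1 0
      have h2 := h 0 1
      have h3 := h 1 1
      rw [qf_comb (member_symm hQ l)] at h1 h2 h3
      have f0 : bf (member Q l) x x = 0 := by linear_combination h1
      have f2 : bf (member Q l) y y = 0 := by linear_combination h2
      have f1 : bf (member Q l) x y = 0 := by
        rw [f0, f2] at h3
        linear_combination h3 / 2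
      funext i
      fin_cases i
      · exact e0.trans f0
      · exact e1.trans f1
      · exact e2.trans f2
  constructor
  · rintro ⟨l, hl, h⟩
    exact ⟨l, hl, (key l).1 h⟩
  · rintro ⟨l, hl, h⟩
    exact ⟨l, hl, (key l).2 h⟩

theorem plu_smul (a : ℂ) (x y : Fin 4 → ℂ) : plu (a • x) y = a • plu x y := by
  funext i
  fin_cases i <;> simp [plu] <;> ring

theorem eval_plu (x y : Fin 4 → ℂ) : eval (plu x y) Gp = 0 := by
  simp [Gp, plu]
  ring

theorem t_CONE (h1 : S_DEC) (h2 : S_NETD) : S_CONE := by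
  intro Q hQ v hv
  constructor
  · rintro ⟨-, hG, hK⟩
    obtain ⟨x, y, hxy, rfl⟩ := h1 v hv hG
    rw [(h2 Q hQ).1 x y] at hK
    exact ⟨x, y, hv, hxy, rfl, (det_iff hQ x y).1 hK⟩
  · rintro ⟨x, y, hp, hxy, he, hl⟩
    rw [Projectivization.mk_eq_mk_iff'] at he
    obtain ⟨a, ha⟩ := he
    have hv' : v = plu (a • x) y := by rw [plu_smul, ha]
    refine ⟨hv, ?_, ?_⟩
    · rw [hv']
      exact eval_plu _ _
    · rw [hv', (h2 Q hQ).1, det_iff hQ]
      obtain ⟨l, hl0, hl⟩ := hl
      refine ⟨l, hl0, fun c b => ?_⟩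
      rw [smul_smul]
      exact hl _ _

end Pool.Agent.H892.ZL.WCONE
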