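import Mathlib
import Pool.Agent.H892.ZL.Stm

set_option autoImplicit false

/-!
# Vectors on the quadric are decomposable (helper154, for helper892)
-/

namespace Pool.Agent.H892.ZL.WDEC

open Pool.Agent.H892.ZL MvPolynomial

theorem indep (x y : Fin 4 → ℂ) (h : plu x y ≠ 0) : LinearIndependent ℂ ![x, y] := by
  rw [LinearIndependent.pair_iff]
  intro s t hst
  have h1 : ∀ i, s * x i + t * y i = 0 := fun i => congrFun hst i
  obtain ⟨k, hk⟩ := Function.ne_iff.1 h
  have hk' : plu x y k ≠ 0 := hk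
  have hs : s * plu x y k = 0 := by
    fin_cases k
    · show s * (x 0 * y 1 - x 1 * y 0) = 0
      linear_combination y 1 * h1 0 - y 0 * h1 1
    · show s * (x 0 * y 2 - x 2 * y 0) = 0
      linear_combination y 2 * h1 0 - y 0 * h1 2
    · show s * (x 0 * y 3 - x 3 * y 0) = 0
      linear_combination y 3 * h1 0 - y 0 * h1 3
    · show s * (x 1 * y 2 - x 2 * y 1) = 0
      linear_combination y 2 * h1 1 - y 1 * h1 2
    · show s * (x 1 * y 3 - x 3 * y 1) = 0
      linear_combination y 3 * h1 1 - y 1 * h1 3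
    · show s * (x 2 * y 3 - x 3 * y 2) = 0
      linear_combination y 3 * h1 2 - y 2 * h1 3
  have ht : t * plu x y k = 0 := by
    fin_cases k
    · show t * (x 0 * y 1 - x 1 * y 0) = 0
      linear_combination x 0 * h1 1 - x 1 * h1 0
    · show t * (x 0 * y 2 - x 2 * y 0) = 0
      linear_combination x 0 * h1 2 - x 2 * h1 0
    · show t * (x 0 * y 3 - x 3 * y 0) = 0
      linear_combination x 0 * h1 3 - x 3 * h1 0
    · show t * (x 1 * y 2 - x 2 * y 1) = 0
      linear_combination x 1 * h1 2 - x 2 * h1 1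
    · show t * (x 1 * y 3 - x 3 * y 1) = 0
      linear_combination x 1 * h1 3 - x 3 * h1 1
    · show t * (x 2 * y 3 - x 3 * y 2) = 0
      linear_combination x 2 * h1 3 - x 3 * h1 2
  exact ⟨(mul_eq_zero.1 hs).resolve_right hk', (mul_eq_zero.1 ht).resolve_right hk'⟩

/-- the antisymmetric matrix of `v` -/
def mat (v : Fin 6 → ℂ) : Fin 4 → Fin 4 → ℂ :=
  ![![0, v 0, v 1, v 2], ![-v 0, 0, v 3, v 4], ![-v 1, -v 3, 0, v 5], ![-v 2, -v 4, -v 5, 0]]

/-- a division -/
theorem dv (c a b : ℂ) (hc : c ≠ 0) (h : c * a = b) : a = c⁻¹ * b := by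
  rw [← h, inv_mul_cancel_left₀ hc]

theorem six (v : Fin 6 → ℂ) (hv : v 0 * v 5 - v 1 * v 4 + v 2 * v 3 = 0) (i j : Fin 4)
    (hij : i < j) (hc : mat v i j ≠ 0) :
    v = plu (mat v i) (fun l => (mat v i j)⁻¹ * mat v j l) := by
  have e : ∀ x y : Fin 4 → ℂ, ∀ c : ℂ, ∀ k, plu x (fun l => c * y l) k = c * plu x y k := by
    intro x y c k
    fin_cases k
    · show x 0 * (c * y 1) - x 1 * (c * y 0) = c * (x 0 * y 1 - x 1 * y 0)
      ring
    · show x 0 * (c * y 2) - x 2 * (c * y 0) = c * (x 0 * y 2 - x 2 * y 0)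
      ring
    · show x 0 * (c * y 3) - x 3 * (c * y 0) = c * (x 0 * y 3 - x 3 * y 0)
      ring
    · show x 1 * (c * y 2) - x 2 * (c * y 1) = c * (x 1 * y 2 - x 2 * y 1)
      ring
    · show x 1 * (c * y 3) - x 3 * (c * y 1) = c * (x 1 * y 3 - x 3 * y 1)
      ring
    · show x 2 * (c * y 3) - x 3 * (c * y 2) = c * (x 2 * y 3 - x 3 * y 2)
      ring
  funext k
  rw [e]
  apply dv _ _ _ hc
  fin_cases i <;> fin_cases j <;> first
    | (exfalso; revert hij; decide)
    | (fin_cases k <;> simp [mat, plu] <;> first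
        | ring1
        | linear_combination (exp := 1) hv
        | linear_combination (exp := 1) -hv)

theorem t_DEC : S_DEC := by
  intro v hv0 hv
  have hv' : v 0 * v 5 - v 1 * v 4 + v 2 * v 3 = 0 := by
    have h := hv
    unfold Gp at h
    simpa using h
  have key : ∀ i j : Fin 4, i < j → mat v i j ≠ 0 →
      ∃ x y : Fin 4 → ℂ, LinearIndependent ℂ ![x, y] ∧ v = plu x y := by
    intro i j hij hc
    have h := six v hv' i j hij hc
    refine ⟨_, _, indep _ _ ?_, h⟩
    rw [← h]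
    exact hv0
  obtain ⟨k, hk⟩ := Function.ne_iff.1 hv0
  have hk' : v k ≠ 0 := hk
  fin_cases k
  · exact key 0 1 (by decide) hk'
  · exact key 0 2 (by decide) hk'
  · exact key 0 3 (by decide) hk'
  · exact key 1 2 (by decide) hk'
  · exact key 1 3 (by decide) hk'
  · exact key 2 3 (by decide) hk'

end Pool.Agent.H892.ZL.WDEC
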