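import Mathlib
import Pool.Agent.H892.ZL.Stm

set_option autoImplicit false

/-!
# Three derivations and the residue form at the generic point
-/

namespace Pool.Agent.H892.ZL.WDER

open MvPolynomial Matrix Pool.Agent.H892.ZL

namespace DER

lemma map_YY {R S : Type} [CommRing R] [CommRing S] [Algebra ℂ R] [Algebra ℂ S] (f : R →ₐ[ℂ] S)
    (K : MvPolynomial (Fin 6) ℂ) (p : Fin 6 → R) :
    (YY K p).map f = YY K (fun i => f (p i)) := by
  ext a j
  have h : ∀ A : MvPolynomial (Fin 6) ℂ, f (grad A p j) = grad A (fun i => f (p i)) j := by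
    intro A
    unfold grad
    exact MvPolynomial.comp_aeval_apply _ f _
  fin_cases a
  · exact h Gp
  · exact h K

lemma map_D6 {R S : Type} [CommRing R] [CommRing S] (f : R →+* S) (L : Matrix (Fin 4) (Fin 6) R)
    (Y : Matrix (Fin 2) (Fin 6) R) : f (D6 L Y) = D6 (L.map f) (Y.map f) := by
  unfold D6
  rw [RingHom.map_det]
  congr 1
  ext i j
  rcases i with i | i <;> rfl

lemma four (E : Type) [Field E] (Y : Matrix (Fin 2) (Fin 6) E) (P : Fin 6 → E) (hP : P ≠ 0)
    (hY : Y *ᵥ P = 0) : ∃ u : Fin 3 → Fin 6 → E, (∀ i, Y *ᵥ u i = 0) ∧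
      LinearIndependent E (Fin.cons P u : Fin 4 → Fin 6 → E) := by
  set N := LinearMap.ker Y.mulVecLin with hN
  have hmem : ∀ v, v ∈ N ↔ Y *ᵥ v = 0 := by
    intro v
    rw [hN, LinearMap.mem_ker, Matrix.mulVecLin_apply]
  have h4 : 4 ≤ Module.finrank E N := by
    have h1 := LinearMap.finrank_range_add_finrank_ker Y.mulVecLin
    have h2 : Module.finrank E (LinearMap.range Y.mulVecLin) ≤ Module.finrank E (Fin 2 → E) :=
      Submodule.finrank_le _
    rw [Module.finrank_fin_fun] at h1 h2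
    rw [← hN] at h1
    omega
  set P' : N := ⟨P, (hmem P).2 hY⟩ with hP'
  have h1 : LinearIndependent E (fun _ : Fin 1 => P') := by
    rw [linearIndependent_unique_iff]
    intro h
    exact hP (congrArg Subtype.val h)
  obtain ⟨a, ha⟩ := exists_linearIndependent_snoc_of_lt_finrank h1 (by omega)
  obtain ⟨b, hb⟩ := exists_linearIndependent_snoc_of_lt_finrank ha (by omega)
  obtain ⟨c, hc⟩ := exists_linearIndependent_snoc_of_lt_finrank hb (by omega)
  obtain ⟨w, hw⟩ : ∃ w : Fin 4 → N, w = Fin.snoc (Fin.snoc (Fin.snoc (fun _ : Fin 1 => P') a) b) c :=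
    ⟨_, rfl⟩
  rw [← hw] at hc
  have hw0 : w 0 = P' := by rw [hw]; rfl
  refine ⟨fun i => w i.succ, fun i => (hmem _).1 (w i.succ).2, ?_⟩
  have h5 := hc.map' N.subtype (Submodule.ker_subtype N)
  have h6 : (Fin.cons P (fun i : Fin 3 => (w i.succ : Fin 6 → E)) : Fin 4 → Fin 6 → E) =
      ⇑N.subtype ∘ w := by
    funext i
    refine Fin.cases ?_ (fun i => ?_) i
    · rw [Fin.cons_zero, Function.comp_apply, hw0]; rfl
    · rfl
  rw [h6]
  exact h5

lemma grad_Gp {E : Type} [CommRing E] [Algebra ℂ E] (p : Fin 6 → E) :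
    grad Gp p = ![p 5, - p 4, p 3, p 2, - p 1, p 0] := by
  funext j
  unfold grad Gp
  fin_cases j <;> simp [pderiv_X]

lemma sum_grad_Gp {E : Type} [CommRing E] [Algebra ℂ E] (p u : Fin 6 → E) :
    ∑ j, grad Gp p j * u j = Bf p u := by
  rw [grad_Gp]
  simp [Fin.sum_univ_succ, Bf]
  ring

lemma euler {E : Type} [CommRing E] [Algebra ℂ E] (K : MvPolynomial (Fin 6) ℂ) (n : ℕ)
    (hK : K.IsHomogeneous n) (p : Fin 6 → E) : ∑ j, grad K p j * p j = n * aeval p K := by
  have h := congrArg (aeval p) hK.sum_X_mul_pderiv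
  rw [map_sum, map_nsmul, nsmul_eq_mul] at h
  rw [← h]
  refine Finset.sum_congr rfl fun j _ => ?_
  rw [map_mul, aeval_X, mul_comm]
  rfl

lemma Bf_aff {E : Type} [CommRing E] (x y : Fin 3 → E) : Bf (aff x y) (aff x y) = 0 := by
  simp only [Bf, aff, plu]
  simp
  ring

lemma eval_Gp_aff (x y : Fin 3 → ℂ) : eval (aff x y) Gp = 0 := by
  simp only [Gp, aff, plu]
  simp
  ring

lemma aev {σ : Type} (q : σ → ℂ) (A : MvPolynomial σ ℂ) : aeval q A = eval q A :=
  DFunLike.congr_fun (coe_aeval_eq_eval q) A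

lemma map_aff {R S : Type} [CommRing R] [CommRing S] (f : R →+* S) (x y : Fin 3 → R) (I : Fin 6) :
    f (aff x y I) = aff (fun i => f (x i)) (fun i => f (y i)) I := by
  fin_cases I <;> simp [aff, plu]

lemma eval_gp (x y : Fin 3 → ℂ) (I : Fin 6) : eval (pt x y) (gp I) = aff x y I := by
  unfold gp
  rw [map_aff]
  have h1 : (fun i => eval (pt x y) (X (Sum.inl i))) = x := by funext i; simp [pt]
  have h2 : (fun i => eval (pt x y) (X (Sum.inr i))) = y := by funext i; simp [pt]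
  rw [h1, h2]

lemma eval_kap (K : MvPolynomial (Fin 6) ℂ) (x y : Fin 3 → ℂ) :
    eval (pt x y) (kap K) = eval (aff x y) K := by
  unfold kap
  have h := MvPolynomial.comp_aeval_apply gp (aeval (pt x y) : SA →ₐ[ℂ] ℂ) K
  have h1 : (fun i => (aeval (pt x y) : SA →ₐ[ℂ] ℂ) (gp i)) = aff x y := by
    funext i
    rw [← eval_gp, aev]
  rw [h1, aev, aev] at h
  exact h

lemma der_aff {E : Type} [Field E] [Algebra ℂ E] (δ : Derivation ℂ E E) (x y : Fin 3 → E)
    (I : Fin 6) : δ (aff x y I) = daff x y (fun i => δ (x i)) (fun i => δ (y i)) I := by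
  fin_cases I <;> simp [aff, plu, daff, Derivation.leibniz] <;> ring

end DER

open DER

theorem t_DER (h1 : S_IRR) (h3 : S_SX) (h4 : S_EXPT) (h5 : S_D6) (h6 : S_TANA) (h7 : S_CHAIN)
    (h8 : S_LA) (h9 : S_LA2) (h10 : S_DERIV) : S_DER := by
  classical
  intro K hK
  have hk : Prime (kap K) := h1 K hK
  obtain ⟨E, iF, iA, π, hπ, hder⟩ := h10 (kap K) hk
  obtain ⟨x, hx⟩ : ∃ x : Fin 3 → E, x = fun i => π (X (Sum.inl i)) := ⟨_, rfl⟩
  obtain ⟨y, hy⟩ : ∃ y : Fin 3 → E, y = fun i => π (X (Sum.inr i)) := ⟨_, rfl⟩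
  have hπa : ∀ A : SA, π A = aeval (Sum.elim x y) A := by
    intro A
    have h : π = aeval (Sum.elim x y) := by
      apply MvPolynomial.algHom_ext
      rintro (i | i)
      · rw [aeval_X, hx]; rfl
      · rw [aeval_X, hy]; rfl
    rw [h]
  have hP : (fun I => π (gp I)) = aff x y := by
    funext I
    have h := map_aff (π : SA →+* E) (fun i => X (Sum.inl i)) (fun i => X (Sum.inr i)) I
    rw [hx, hy]
    exact h
  -- step 1
  obtain ⟨s, hs0, hs⟩ := h3 K hK
  obtain ⟨x₀, hx₀⟩ : ∃ x₀ : Fin 3 → ℂ, eval x₀ s ≠ 0 := by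
    by_contra hcon
    push Not at hcon
    exact hs0 (MvPolynomial.funext fun w => by rw [hcon, map_zero])
  obtain ⟨y₀, hy₀, hk₀⟩ := h4 K hK.hom x₀
  have hcone : aff x₀ y₀ ∈ Cone K := by
    refine ⟨?_, eval_Gp_aff _ _, ?_⟩
    · intro h
      apply hy₀
      have e0 : aff x₀ y₀ 2 = 0 := by rw [h]; rfl
      have e1 : aff x₀ y₀ 4 = 0 := by rw [h]; rfl
      have e2 : aff x₀ y₀ 5 = 0 := by rw [h]; rfl
      simp [aff, plu] at e0 e1 e2
      funext i
      fin_cases i
      · exact e0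
      · exact e1
      · exact e2
    · rw [← eval_kap]; exact hk₀
  obtain ⟨L, hL⟩ : SmoothAt K (aff x₀ y₀) := by
    by_contra hcon
    exact hx₀ (hs x₀ y₀ hy₀ hcone hcon)
  have hY : ∃ L : Matrix (Fin 4) (Fin 6) E, D6 L (YY K (aff x y)) ≠ 0 := by
    refine ⟨(L.map (C : ℂ → SA)).map π, ?_⟩
    rw [← hP, ← map_YY π K gp]
    have e1 := map_D6 (π : SA →+* E) (L.map (C : ℂ → SA)) (YY K gp)
    intro h
    have e2 : π (D6 (L.map (C : ℂ → SA)) (YY K gp)) = 0 := by
      rw [← h]; exact e1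
    rw [hπ.ker] at e2
    obtain ⟨B, hB⟩ := e2
    have e3 := congrArg (eval (pt x₀ y₀)) hB
    rw [map_mul, hk₀, zero_mul] at e3
    apply hL
    rw [← e3]
    have e4 := map_D6 (eval (pt x₀ y₀)) (L.map (C : ℂ → SA)) (YY K gp)
    rw [e4]
    have e5 : (L.map (C : ℂ → SA)).map (eval (pt x₀ y₀)) = L := by
      ext i j
      exact eval_C _
    have e6 : (YY K gp).map (eval (pt x₀ y₀)) = YY K (aff x₀ y₀) := by
      have e7 := map_YY (aeval (pt x₀ y₀) : SA →ₐ[ℂ] ℂ) K gp
      have e8 : (fun i => (aeval (pt x₀ y₀) : SA →ₐ[ℂ] ℂ) (gp i)) = aff x₀ y₀ := by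
        funext i
        rw [← eval_gp, aev]
      rw [e8] at e7
      rw [← e7]
      ext i j
      simp only [Matrix.map_apply]
      rw [aev]
    rw [e5, e6]
  -- step 2
  have hK0 : aeval (aff x y) K = 0 := by
    have e1 := MvPolynomial.comp_aeval_apply gp π K
    rw [hP] at e1
    rw [← e1]
    exact (hπ.ker _).2 dvd_rfl
  have hy0 : y ≠ 0 := by
    intro h
    have e1 : aff x y = 0 := by
      rw [h]
      funext I
      fin_cases I <;> simp [aff, plu]
    have e2 := (h5 E _).1 hY 1 0 (fun j => by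
      have e3 : YY K (aff x y) 0 j = 0 := by
        show grad Gp (aff x y) j = 0
        rw [grad_Gp, e1]
        fin_cases j <;> simp
      rw [e3, mul_zero, zero_mul, add_zero])
    exact one_ne_zero e2.1
  have hP0 : aff x y ≠ 0 := by
    intro h
    apply hy0
    have e0 : aff x y 2 = 0 := by rw [h]; rfl
    have e1 : aff x y 4 = 0 := by rw [h]; rfl
    have e2 : aff x y 5 = 0 := by rw [h]; rfl
    simp [aff, plu] at e0 e1 e2
    funext i
    fin_cases i
    · exact e0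
    · exact e1
    · exact e2
  have hYP : YY K (aff x y) *ᵥ aff x y = 0 := by
    funext a
    fin_cases a
    · show ∑ j, grad Gp (aff x y) j * aff x y j = 0
      rw [sum_grad_Gp, Bf_aff]
    · show ∑ j, grad K (aff x y) j * aff x y j = 0
      rw [euler K 3 hK.hom, hK0, mul_zero]
  obtain ⟨u, hu, hli⟩ := four E (YY K (aff x y)) (aff x y) hP0 hYP
  -- step 3
  have hδ : ∀ i, ∃ δ : Derivation ℂ E E, ∀ I, δ (aff x y I) = u i I := by
    intro i
    have e1 : Bf (aff x y) (u i) = 0 := by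
      rw [← sum_grad_Gp]
      exact congrFun (hu i) 0
    obtain ⟨ξ, η, hξ⟩ := h6 E x y hy0 (u i) e1
    have e2 := h7 E K x y ξ η
    have e3 : ∑ I, grad K (aff x y) I * daff x y ξ η I = 0 := by
      rw [← hξ]
      exact congrFun (hu i) 1
    rw [e3] at e2
    obtain ⟨δ, hδ⟩ := hder (Sum.elim ξ η) (by
      rw [Fintype.sum_sum_type, ← e2]
      simp only [hπa]
      rfl)
    refine ⟨δ, fun I => ?_⟩
    rw [der_aff, hξ]
    have e4 : (fun i => δ (x i)) = ξ := by
      funext j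
      rw [hx]
      exact hδ (Sum.inl j)
    have e5 : (fun i => δ (y i)) = η := by
      funext j
      rw [hy]
      exact hδ (Sum.inr j)
    rw [e4, e5]
  choose δ hδ using hδ
  -- step 4
  have hX : XX δ (aff x y) = (Fin.cons (aff x y) u : Fin 4 → Fin 6 → E) := by
    unfold XX
    congr 1
    funext i j
    exact hδ i j
  have hYX : YY K (aff x y) * (XX δ (aff x y))ᵀ = 0 := by
    ext a b
    rw [hX]
    refine Fin.cases ?_ (fun i => ?_) b
    · exact congrFun hYP a
    · exact congrFun (hu i) a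
  obtain ⟨w, hw⟩ := h8 E (XX δ (aff x y)) (YY K (aff x y)) hYX hY
  refine ⟨E, iF, iA, π, δ, w, hπ, ?_, ?_⟩
  · intro h0
    obtain ⟨L', hL'⟩ := h9 E (XX δ (aff x y)) (by rw [hX]; exact hli)
    apply hL'
    rw [hw, h0, zero_mul]
  · rw [hP]
    exact hw

end Pool.Agent.H892.ZL.WDER
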