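import Mathlib
import Pool.Agent.H892.ZL.Stm

set_option autoImplicit false

/-!
# The generic point of a prime polynomial and its derivations
-/

namespace Pool.Agent.H892.ZL.WDERIV

open Pool.Agent.H892.ZL MvPolynomial

section

variable {E : Type} [Field E] [Algebra ℂ E]

/-- the homomorphism `A + ε D A` to the dual numbers -/
noncomputable def Phi (π : SA →ₐ[ℂ] E) (t : Fin 3 ⊕ Fin 3 → E) : SA →ₐ[ℂ] TrivSqZeroExt E E :=
  aeval fun j => TrivSqZeroExt.inl (π (X j)) + TrivSqZeroExt.inr (t j)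

theorem Phi_X (π : SA →ₐ[ℂ] E) (t : Fin 3 ⊕ Fin 3 → E) (j : Fin 3 ⊕ Fin 3) :
    Phi π t (X j) = TrivSqZeroExt.inl (π (X j)) + TrivSqZeroExt.inr (t j) :=
  aeval_X _ j

theorem fst_Phi (π : SA →ₐ[ℂ] E) (t : Fin 3 ⊕ Fin 3 → E) (A : SA) : (Phi π t A).fst = π A := by
  have h : (TrivSqZeroExt.fstHom ℂ E E).comp (Phi π t) = π := by
    apply MvPolynomial.algHom_ext
    intro j
    rw [AlgHom.comp_apply, Phi_X, TrivSqZeroExt.fstHom_apply, TrivSqZeroExt.fst_add,
      TrivSqZeroExt.fst_inl, TrivSqZeroExt.fst_inr, add_zero]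
  exact DFunLike.congr_fun h A

theorem snd_Phi (π : SA →ₐ[ℂ] E) (t : Fin 3 ⊕ Fin 3 → E) (A : SA) :
    (Phi π t A).snd = ∑ j, π (pderiv j A) * t j := by
  classical
  induction A using MvPolynomial.induction_on with
  | C a =>
    have h : Phi π t (C a) = algebraMap ℂ _ a := (Phi π t).commutes a
    rw [h, TrivSqZeroExt.algebraMap_eq_inl', TrivSqZeroExt.snd_inl]
    symm
    refine Finset.sum_eq_zero fun j _ => ?_
    rw [pderiv_C, map_zero, zero_mul]
  | add p q hp hq =>
    rw [map_add, TrivSqZeroExt.snd_add, hp, hq, ← Finset.sum_add_distrib]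
    refine Finset.sum_congr rfl fun j _ => ?_
    rw [map_add, map_add, add_mul]
  | mul_X p i hp =>
    rw [map_mul, TrivSqZeroExt.snd_mul, hp, fst_Phi, fst_Phi, Phi_X, TrivSqZeroExt.snd_add,
      TrivSqZeroExt.snd_inl, TrivSqZeroExt.snd_inr, zero_add]
    have h1 : ∀ j, π (pderiv j (p * X i)) * t j =
        π (X i) * (π (pderiv j p) * t j) + if j = i then π p * t i else 0 := by
      intro j
      rw [pderiv_mul, map_add, map_mul, map_mul, pderiv_X]
      by_cases hji : j = i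
      · subst hji
        rw [Pi.single_eq_same, map_one, if_pos rfl]
        ring
      · rw [Pi.single_eq_of_ne (fun h => hji h.symm), map_zero, if_neg hji]
        ring
    rw [Finset.sum_congr rfl fun j _ => h1 j, Finset.sum_add_distrib, Finset.sum_ite_eq' ,
      if_pos (Finset.mem_univ i), ← Finset.mul_sum, smul_eq_mul, MulOpposite.smul_eq_mul_unop,
      MulOpposite.unop_op]
    ring

/-- extension of derivations to the field -/
theorem exists_der (k : SA) [Algebra (SA ⧸ Ideal.span {k}) E]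
    [IsScalarTower ℂ (SA ⧸ Ideal.span {k}) E] [IsDomain (SA ⧸ Ideal.span {k})]
    [IsFractionRing (SA ⧸ Ideal.span {k}) E] (π : SA →ₐ[ℂ] E)
    (hπ : ∀ A, π A = algebraMap (SA ⧸ Ideal.span {k}) E (Ideal.Quotient.mk _ A))
    (t : Fin 3 ⊕ Fin 3 → E) (ht : ∑ j, π (pderiv j k) * t j = 0) :
    ∃ δ : Derivation ℂ E E, ∀ j, δ (π (X j)) = t j := by
  have hk0 : π k = 0 := by
    rw [hπ, Ideal.Quotient.eq_zero_iff_mem.mpr (Ideal.mem_span_singleton_self k), map_zero]
  have hΦk : Phi π t k = 0 := by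
    apply TrivSqZeroExt.ext
    · rw [fst_Phi, hk0, TrivSqZeroExt.fst_zero]
    · rw [snd_Phi, ht, TrivSqZeroExt.snd_zero]
  have hΦ : ∀ a ∈ Ideal.span {k}, Phi π t a = 0 := by
    intro a ha
    obtain ⟨b, rfl⟩ := Ideal.mem_span_singleton.mp ha
    rw [map_mul, hΦk, zero_mul]
  let F : (SA ⧸ Ideal.span {k}) →+* TrivSqZeroExt E E :=
    Ideal.Quotient.lift (Ideal.span {k}) (Phi π t).toRingHom hΦ
  have hF : ∀ A : SA, F (Ideal.Quotient.mk _ A) = Phi π t A := fun A => rfl
  have hunit : ∀ y : nonZeroDivisors (SA ⧸ Ideal.span {k}), IsUnit (F y) := by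
    intro y
    obtain ⟨A, hA⟩ := Ideal.Quotient.mk_surjective y.1
    rw [TrivSqZeroExt.isUnit_iff_isUnit_fst, ← hA, hF, fst_Phi, hπ, hA, isUnit_iff_ne_zero]
    exact IsFractionRing.to_map_ne_zero_of_mem_nonZeroDivisors y.2
  let Ψ : E →+* TrivSqZeroExt E E := IsLocalization.lift hunit
  have hΨ : ∀ A : SA, Ψ (π A) = Phi π t A := by
    intro A
    rw [hπ A]
    exact IsLocalization.lift_eq hunit _
  have hfst : ∀ e : E, (Ψ e).fst = e := by
    have h : ((TrivSqZeroExt.fstHom ℂ E E).toRingHom.comp Ψ) = RingHom.id E := by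
      apply IsLocalization.ringHom_ext (nonZeroDivisors (SA ⧸ Ideal.span {k}))
      refine RingHom.ext fun y => ?_
      obtain ⟨A, hA⟩ := Ideal.Quotient.mk_surjective y
      rw [← hA]
      have h1 : (Ψ (algebraMap (SA ⧸ Ideal.span {k}) E (Ideal.Quotient.mk _ A))).fst =
          algebraMap (SA ⧸ Ideal.span {k}) E (Ideal.Quotient.mk _ A) := by
        rw [← hπ A, hΨ, fst_Phi]
      exact h1
    intro e
    exact RingHom.congr_fun h e
  have hC : ∀ c : ℂ, Ψ (algebraMap ℂ E c) = TrivSqZeroExt.inl (algebraMap ℂ E c) := by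
    intro c
    have h1 : algebraMap ℂ E c = π (C c) := (π.commutes c).symm
    rw [h1, hΨ]
    have h2 : Phi π t (C c) = algebraMap ℂ _ c := (Phi π t).commutes c
    rw [h2, ← h1, TrivSqZeroExt.algebraMap_eq_inl']
  let D : E →ₗ[ℂ] E :=
    { toFun := fun e => (Ψ e).snd
      map_add' := fun a b => by
        rw [map_add, TrivSqZeroExt.snd_add]
      map_smul' := fun c a => by
        have h1 : Ψ (c • a) = TrivSqZeroExt.inl (algebraMap ℂ E c) * Ψ a := by
          rw [Algebra.smul_def, map_mul, hC]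
        rw [h1, TrivSqZeroExt.snd_mul, TrivSqZeroExt.snd_inl, TrivSqZeroExt.fst_inl, smul_zero,
          add_zero, RingHom.id_apply, algebraMap_smul] }
  have hD : ∀ e, D e = (Ψ e).snd := fun e => rfl
  refine ⟨Derivation.mk' D ?_, ?_⟩
  · intro a b
    rw [hD, hD, hD, map_mul, TrivSqZeroExt.snd_mul, hfst, hfst, MulOpposite.smul_eq_mul_unop,
      MulOpposite.unop_op, smul_eq_mul, smul_eq_mul]
    ring
  · intro j
    show (Ψ (π (X j))).snd = t j
    rw [hΨ, Phi_X, TrivSqZeroExt.snd_add, TrivSqZeroExt.snd_inl, TrivSqZeroExt.snd_inr, zero_add]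

end

theorem t_DERIV : S_DERIV := by
  intro k hk
  have hp : (Ideal.span {k}).IsPrime := (Ideal.span_singleton_prime hk.ne_zero).mpr hk
  have hdom : IsDomain (SA ⧸ Ideal.span {k}) := Ideal.Quotient.isDomain _
  let E := FractionRing (SA ⧸ Ideal.span {k})
  let π : SA →ₐ[ℂ] E :=
    (IsScalarTower.toAlgHom ℂ (SA ⧸ Ideal.span {k}) E).comp (Ideal.Quotient.mkₐ ℂ _)
  have hπ : ∀ A, π A = algebraMap (SA ⧸ Ideal.span {k}) E (Ideal.Quotient.mk _ A) := fun A => rfl
  refine ⟨E, inferInstance, inferInstance, π, ⟨?_, ?_⟩, ?_⟩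
  · intro A
    rw [hπ, map_eq_zero_iff _ (IsFractionRing.injective (SA ⧸ Ideal.span {k}) E),
      Ideal.Quotient.eq_zero_iff_mem, Ideal.mem_span_singleton]
  · intro e
    obtain ⟨x, y, hy, hxy⟩ := IsFractionRing.div_surjective (A := SA ⧸ Ideal.span {k}) e
    obtain ⟨A, rfl⟩ := Ideal.Quotient.mk_surjective x
    obtain ⟨B, rfl⟩ := Ideal.Quotient.mk_surjective y
    have hB : π B ≠ 0 := by
      rw [hπ]
      exact IsFractionRing.to_map_ne_zero_of_mem_nonZeroDivisors hy
    refine ⟨A, B, hB, ?_⟩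
    rw [← hxy]
    exact div_mul_cancel₀ _ hB
  · intro t ht
    exact exists_der k π hπ t ht

end Pool.Agent.H892.ZL.WDERIV
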