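import Mathlib
import Pool.Agent.H892.ZL.Stm2

set_option autoImplicit false

namespace Pool.Agent.H892.ZL.WDISC

open MvPolynomial Matrix Pool.Agent.H892.ZL

theorem det_deriv_aux_prod {A : Type*} [CommRing A] [Algebra ℂ A] (D : Derivation ℂ A A)
    {ι : Type*} [DecidableEq ι] (s : Finset ι) (f : ι → A) :
    D (∏ i ∈ s, f i) = ∑ i ∈ s, ∏ j ∈ s, (Function.update f i (D (f i))) j := by
  induction s using Finset.induction_on with
  | empty => simp
  | insert a s ha ih =>
    rw [Finset.prod_insert ha, D.leibniz, ih, Finset.sum_insert ha, Finset.prod_insert ha,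
      Function.update_self]
    have e1 : ∏ j ∈ s, (Function.update f a (D (f a))) j = ∏ j ∈ s, f j := by
      apply Finset.prod_congr rfl
      intro j hj
      rw [Function.update_of_ne]
      rintro rfl
      exact ha hj
    have e2 : ∀ i ∈ s, ∏ j ∈ insert a s, (Function.update f i (D (f i))) j
        = f a * ∏ j ∈ s, (Function.update f i (D (f i))) j := by
      intro i hi
      rw [Finset.prod_insert ha, Function.update_of_ne]
      rintro rfl
      exact ha hi
    rw [e1, Finset.sum_congr rfl e2, ← Finset.mul_sum, smul_eq_mul, smul_eq_mul]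
    ring

/-- Jacobi's formula for derivations -/
theorem det_deriv {A : Type*} [CommRing A] [Algebra ℂ A] (D : Derivation ℂ A A)
    {ι : Type*} [Fintype ι] [DecidableEq ι] (N : Matrix ι ι A) :
    D N.det = ∑ i, ∑ j, N.adjugate j i * D (N i j) := by
  have h1 : ∀ i : ι, ∑ k, N.adjugate i k * D (N k i)
      = (N.updateCol i (fun k => D (N k i))).det := by
    intro i
    rw [← Matrix.cramer_apply, Matrix.cramer_eq_adjugate_mulVec]
    rfl
  rw [Finset.sum_comm, Finset.sum_congr rfl (fun i _ => h1 i), Matrix.det_apply, map_sum]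
  have h2 : ∀ σ : Equiv.Perm ι,
      D (Equiv.Perm.sign σ • ∏ i, N (σ i) i)
      = ∑ i, Equiv.Perm.sign σ • ∏ j, (N.updateCol i (fun k => D (N k i))) (σ j) j := by
    intro σ
    rw [Units.smul_def, D.map_smul_of_tower, det_deriv_aux_prod, Finset.smul_sum]
    apply Finset.sum_congr rfl
    intro i _
    congr 1
    apply Finset.prod_congr rfl
    intro j _
    by_cases hj : j = i
    · subst hj
      rw [Function.update_self, Matrix.updateCol_self]
    · rw [Function.update_of_ne hj, Matrix.updateCol_ne hj]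
  rw [Finset.sum_congr rfl (fun σ _ => h2 σ), Finset.sum_comm]
  apply Finset.sum_congr rfl
  intro i _
  rw [Matrix.det_apply]

/-- the generic member of the net -/
noncomputable def genm (Q : Fin 3 → Matrix (Fin 4) (Fin 4) ℂ) :
    Matrix (Fin 4) (Fin 4) (MvPolynomial (Fin 3) ℂ) :=
  ∑ k, (X k : MvPolynomial (Fin 3) ℂ) • (Q k).map C

lemma genm_map (Q : Fin 3 → Matrix (Fin 4) (Fin 4) ℂ) (l : Fin 3 → ℂ) :
    (genm Q).map (eval l) = member Q l := by
  ext i j
  simp [genm, member, Matrix.sum_apply]

lemma disc_eval (Q : Fin 3 → Matrix (Fin 4) (Fin 4) ℂ) (l : Fin 3 → ℂ) :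
    eval l (disc Q) = (member Q l).det := by
  rw [← genm_map, ← RingHom.mapMatrix_apply, ← RingHom.map_det]
  rfl

lemma disc_pderiv (Q : Fin 3 → Matrix (Fin 4) (Fin 4) ℂ) (l : Fin 3 → ℂ) (k : Fin 3) :
    eval l (pderiv k (disc Q)) = ∑ i, ∑ j, (member Q l).adjugate j i * Q k i j := by
  have h1 : pderiv k (disc Q) = ∑ i, ∑ j, (genm Q).adjugate j i * pderiv k (genm Q i j) :=
    det_deriv (pderiv k) (genm Q)
  have h2 : ∀ i j, pderiv k (genm Q i j) = C (Q k i j) := by
    intro i j
    have h3 : genm Q i j = ∑ k', C (Q k' i j) * X k' := by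
      simp [genm, Matrix.sum_apply, mul_comm]
    rw [h3, map_sum]
    have h4 : ∀ k', pderiv k (C (Q k' i j) * X k' : MvPolynomial (Fin 3) ℂ) =
        if k' = k then C (Q k i j) else 0 := by
      intro k'
      rw [pderiv_C_mul, pderiv_X]
      by_cases hk : k' = k
      · subst hk
        simp
      · rw [if_neg hk, Pi.single_eq_of_ne hk, mul_zero]
    rw [Finset.sum_congr rfl fun k' _ => h4 k', Finset.sum_ite_eq' Finset.univ k]
    simp
  rw [h1, map_sum]
  refine Finset.sum_congr rfl fun i _ => ?_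
  rw [map_sum]
  refine Finset.sum_congr rfl fun j _ => ?_
  rw [map_mul, h2, eval_C]
  congr 1
  have h5 : (eval l).mapMatrix (genm Q).adjugate = (member Q l).adjugate := by
    rw [RingHom.map_adjugate, RingHom.mapMatrix_apply, genm_map]
  rw [← h5, RingHom.mapMatrix_apply, Matrix.map_apply]

lemma adj_zero (M : Matrix (Fin 4) (Fin 4) ℂ) (e e' : Fin 4 → ℂ) (h1 : M *ᵥ e = 0)
    (h2 : M *ᵥ e' = 0) (h : LinearIndependent ℂ ![e, e']) : M.adjugate = 0 := by
  ext i j
  rw [Matrix.adjugate_apply, Matrix.zero_apply]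
  -- a kernel vector whose coordinate vanishes
  obtain ⟨a, b, hab, hv⟩ : ∃ a b : ℂ, (a ≠ 0 ∨ b ≠ 0) ∧ a * e i + b * e' i = 0 := by
    by_cases he : e i = 0
    · exact ⟨1, 0, Or.inl one_ne_zero, by rw [he]; ring⟩
    · exact ⟨e' i, - e i, Or.inr (neg_ne_zero.2 he), by ring⟩
  refine Matrix.exists_mulVec_eq_zero_iff.1 ⟨a • e + b • e', ?_, ?_⟩
  · intro hc
    have h3 := LinearIndependent.pair_iff.1 h a b hc
    rcases hab with h4 | h4
    · exact h4 h3.1
    · exact h4 h3.2
  · have h3 : M *ᵥ (a • e + b • e') = 0 := by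
      rw [Matrix.mulVec_add, Matrix.mulVec_smul, Matrix.mulVec_smul, h1, h2]
      simp
    funext r
    rw [Pi.zero_apply]
    show (M.updateRow j (Pi.single i 1) r) ⬝ᵥ (a • e + b • e') = 0
    by_cases hr : r = j
    · subst hr
      rw [Matrix.updateRow_self, single_one_dotProduct]
      simpa using hv
    · rw [Matrix.updateRow_ne hr]
      exact congrFun h3 r

theorem t_DISC : S_DISC := by
  intro Q hQ hsm
  have hA : RegA Q := by
    intro l hl e e' h1 h2 h
    have h3 := adj_zero _ e e' h1 h2 h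
    have he : e ≠ 0 := by
      have := h.ne_zero 0
      simpa using this
    obtain ⟨k, hk⟩ := hsm l hl (by
      rw [disc_eval]
      exact Matrix.exists_mulVec_eq_zero_iff.1 ⟨e, he, h1⟩)
    apply hk
    rw [disc_pderiv, h3]
    simp
  refine ⟨hA, ?_⟩
  intro l hl e he h1
  by_contra hc
  push Not at hc
  have hdet : (member Q l).det = 0 := Matrix.exists_mulVec_eq_zero_iff.1 ⟨e, he, h1⟩
  obtain ⟨k, hk⟩ := hsm l hl (by rw [disc_eval]; exact hdet)
  apply hk
  rw [disc_pderiv]
  set M := member Q l with hM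
  obtain ⟨r, hr⟩ : ∃ r, e r ≠ 0 := by
    by_contra hcc
    push Not at hcc
    exact he (funext hcc)
  have hsym : M.IsSymm := by
    unfold Matrix.IsSymm
    rw [hM]
    unfold member
    rw [Matrix.transpose_sum]
    refine Finset.sum_congr rfl fun k _ => ?_
    rw [Matrix.transpose_smul, hQ k]
  have hadj : ∀ i j, M.adjugate i j = M.adjugate j i := by
    intro i j
    have h2 : (M.adjugate)ᵀ = M.adjugate := by
      rw [Matrix.adjugate_transpose, hsym]
    have h3 := congrFun (congrFun h2 j) i
    rw [Matrix.transpose_apply] at h3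
    exact h3
  have hcol : ∀ i, ∃ μ : ℂ, ∀ j, M.adjugate j i = μ * e j := by
    intro i
    have h2 : M *ᵥ (fun j => M.adjugate j i) = 0 := by
      have h3 := Matrix.mul_adjugate M
      rw [hdet, zero_smul] at h3
      funext s
      have h4 := congrFun (congrFun h3 s) i
      exact h4
    have h3 := hA l hl e _ h1 h2
    rw [LinearIndependent.pair_iff] at h3
    push Not at h3
    obtain ⟨a, b, hab, hne⟩ := h3
    have hb : b ≠ 0 := by
      intro hb
      subst hb
      rw [zero_smul, add_zero] at hab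
      have ha : a ≠ 0 := fun ha => hne ha rfl
      exact he ((smul_eq_zero.1 hab).resolve_left ha)
    refine ⟨- a / b, fun j => ?_⟩
    have h4 := congrFun hab j
    simp only [Pi.add_apply, Pi.smul_apply, smul_eq_mul, Pi.zero_apply] at h4
    field_simp
    linear_combination h4
  choose μ hμ using hcol
  have hμ2 : ∀ i, μ i = μ r / e r * e i := by
    intro i
    have h2 := hadj r i
    rw [hμ, hμ] at h2
    field_simp
    linear_combination h2
  have h4 := hc k
  unfold qf at h4
  have h5 : ∑ i, ∑ j, M.adjugate j i * Q k i j = μ r / e r * (e ⬝ᵥ Q k *ᵥ e) := by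
    unfold dotProduct Matrix.mulVec dotProduct
    rw [Finset.mul_sum]
    refine Finset.sum_congr rfl fun i _ => ?_
    rw [Finset.mul_sum, Finset.mul_sum]
    refine Finset.sum_congr rfl fun j _ => ?_
    rw [hμ, hμ2 i]
    ring
  rw [h5, h4, mul_zero]

end Pool.Agent.H892.ZL.WDISC
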