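import Mathlib
import Pool.Agent.H892.ZL.Stm2

set_option autoImplicit false

/-!
# The discriminants of the two nets
-/

namespace Pool.Agent.H892.ZL.WDISCAB

open MvPolynomial Matrix Pool.Agent.H892.ZL

theorem eval_disc (Q : Fin 3 → Matrix (Fin 4) (Fin 4) ℂ) (x : Fin 3 → ℂ) :
    eval x (disc Q) = (∑ k, x k • Q k).det := by
  unfold disc
  rw [RingHom.map_det]
  congr 1
  ext i j
  simp [Fin.sum_univ_three, RingHom.mapMatrix_apply, Matrix.map_apply, Matrix.add_apply,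
    Matrix.smul_apply]

theorem matA (a b c : ℂ) : (∑ k, (![a, b, c] : Fin 3 → ℂ) k • QA k) =
    !![26 * a + 18 * b + -6 * c, 22 * a + 19 * b + 10 * c, 10 * a + 22 * b + -5 * c, -13 * a + -9 * b + 3 * c;
      22 * a + 19 * b + 10 * c, 0 * a + 14 * b + 0 * c, 7 * a + 7 * b + 7 * c, 0 * a + -7 * b + 0 * c;
      10 * a + 22 * b + -5 * c, 7 * a + 7 * b + 7 * c, 0 * a + 0 * b + 14 * c, 0 * a + 0 * b + -7 * c;
      -13 * a + -9 * b + 3 * c, 0 * a + -7 * b + 0 * c, 0 * a + 0 * b + -7 * c, 0 * a + 0 * b + 0 * c] := by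
  rw [Fin.sum_univ_three]
  ext i j
  fin_cases i <;> fin_cases j <;>
    simp [QA, QAi, Matrix.add_apply, Matrix.smul_apply, Matrix.map_apply] <;> ring

theorem matB (a b c : ℂ) : (∑ k, (![a, b, c] : Fin 3 → ℂ) k • QB k) =
    !![-14 * a + 0 * b + 0 * c, -4 * a + -13 * b + 2 * c, -16 * a + -10 * b + -13 * c, 7 * a + 0 * b + 0 * c;
      -4 * a + -13 * b + 2 * c, 6 * a + -26 * b + 18 * c, -19 * a + -25 * b + -1 * c, -3 * a + 13 * b + -9 * c;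
      -16 * a + -10 * b + -13 * c, -19 * a + -25 * b + -1 * c, -18 * a + -6 * b + -26 * c, 9 * a + 3 * b + 13 * c;
      7 * a + 0 * b + 0 * c, -3 * a + 13 * b + -9 * c, 9 * a + 3 * b + 13 * c, 0 * a + 0 * b + 0 * c] := by
  rw [Fin.sum_univ_three]
  ext i j
  fin_cases i <;> fin_cases j <;>
    simp [QB, QBi, Matrix.add_apply, Matrix.smul_apply, Matrix.map_apply] <;> ring

theorem det4 (M : Matrix (Fin 4) (Fin 4) ℂ) : M.det =
    M 0 0 * (M 1 1 * (M 2 2 * M 3 3 - M 2 3 * M 3 2) - M 1 2 * (M 2 1 * M 3 3 - M 2 3 * M 3 1) +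
      M 1 3 * (M 2 1 * M 3 2 - M 2 2 * M 3 1)) -
    M 0 1 * (M 1 0 * (M 2 2 * M 3 3 - M 2 3 * M 3 2) - M 1 2 * (M 2 0 * M 3 3 - M 2 3 * M 3 0) +
      M 1 3 * (M 2 0 * M 3 2 - M 2 2 * M 3 0)) +
    M 0 2 * (M 1 0 * (M 2 1 * M 3 3 - M 2 3 * M 3 1) - M 1 1 * (M 2 0 * M 3 3 - M 2 3 * M 3 0) +
      M 1 3 * (M 2 0 * M 3 1 - M 2 1 * M 3 0)) -
    M 0 3 * (M 1 0 * (M 2 1 * M 3 2 - M 2 2 * M 3 1) - M 1 1 * (M 2 0 * M 3 2 - M 2 2 * M 3 0) +
      M 1 2 * (M 2 0 * M 3 1 - M 2 1 * M 3 0)) := by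
  rw [Matrix.det_succ_row_zero, Fin.sum_univ_four]
  simp only [Matrix.det_fin_three, Matrix.submatrix_apply]
  simp [Fin.succAbove, Fin.ext_iff]
  ring

theorem evDD (a b c : ℂ) : eval ![a, b, c] (C 49 * DD) =
    49 * (169 * (a ^ 4 + b ^ 4 + c ^ 4) - 194 * (a ^ 2 * b ^ 2 + a ^ 2 * c ^ 2 + b ^ 2 * c ^ 2)
    + 312 * (a ^ 3 * b - a * b ^ 3 + a * c ^ 3 - a ^ 3 * c + b * c ^ 3 - b ^ 3 * c)
    + 24 * (a * b * c ^ 2 + a * b ^ 2 * c - a ^ 2 * b * c)) := by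
  simp [DD]

theorem vec3 (x : Fin 3 → ℂ) : x = ![x 0, x 1, x 2] := by
  funext i
  fin_cases i <;> rfl

theorem t_DISCAB : S_DISCAB := by
  constructor
  · refine MvPolynomial.funext fun x => ?_
    rw [vec3 x, eval_disc, evDD, matA, det4]
    simp only [Matrix.of_apply, Matrix.cons_val]
    ring
  · refine MvPolynomial.funext fun x => ?_
    rw [vec3 x, eval_disc, evDD, matB, det4]
    simp only [Matrix.of_apply, Matrix.cons_val]
    ring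

end Pool.Agent.H892.ZL.WDISCAB
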