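import Mathlib
import Pool.Agent.H892.ZL.Stm

/-!
# Every point of the chart lies on a line of the complex
-/

set_option autoImplicit false

namespace Pool.Agent.H892.ZL.WEXPT

open MvPolynomial
open Pool.Agent.H892.ZL

theorem eval_kap (K : MvPolynomial (Fin 6) ℂ) (x y : Fin 3 → ℂ) :
    eval (pt x y) (kap K) = eval (aff x y) K := by
  unfold kap
  have h : (eval (pt x y)).comp (aeval gp : MvPolynomial (Fin 6) ℂ →ₐ[ℂ] SA).toRingHom =
      eval (aff x y) := by
    apply MvPolynomial.ringHom_ext
    · intro c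
      simp
    · intro i
      simp only [RingHom.comp_apply, AlgHom.toRingHom_eq_coe, RingHom.coe_coe, aeval_X, eval_X]
      fin_cases i <;> simp [gp, aff, plu, pt]
  exact congrArg (fun f => f K) h

theorem eval_hom (K : MvPolynomial (Fin 6) ℂ) (n : ℕ) (hK : K.IsHomogeneous n) (c : ℂ)
    (v w : Fin 6 → ℂ) (hw : ∀ i, w i = c * v i) : eval w K = c ^ n * eval v K := by
  rw [eval_eq', eval_eq', Finset.mul_sum]
  refine Finset.sum_congr rfl fun d hd => ?_
  have h1 : ∑ i, d i = n := by
    have h2 := hK (mem_support_iff.mp hd)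
    rw [Finsupp.weight_apply, Finsupp.sum_fintype _ _ (fun i => by simp)] at h2
    simpa using h2
  simp only [hw, mul_pow, Finset.prod_mul_distrib, Finset.prod_pow_eq_pow_sum, h1]
  ring

theorem aff_smul (x y y' : Fin 3 → ℂ) (c : ℂ) (h : ∀ i, y' i = c * y i) (i : Fin 6) :
    aff x y' i = c * aff x y i := by
  fin_cases i <;> simp [aff, plu, h] <;> ring

/-- the restriction of the cubic to a line of directions -/
theorem exists_poly (K : MvPolynomial (Fin 6) ℂ) (x : Fin 3 → ℂ) (a b : Fin 3 → ℂ) :
    ∃ p : Polynomial ℂ, ∀ t : ℂ, p.eval t = eval (aff x (fun i => a i + t * b i)) K := by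
  refine ⟨aeval (aff (fun i => Polynomial.C (x i))
    (fun i => Polynomial.C (a i) + Polynomial.X * Polynomial.C (b i))) K, ?_⟩
  intro t
  have h : (Polynomial.evalRingHom t).comp (aeval (aff (fun i => Polynomial.C (x i))
      (fun i => Polynomial.C (a i) + Polynomial.X * Polynomial.C (b i))) :
        MvPolynomial (Fin 6) ℂ →ₐ[ℂ] Polynomial ℂ).toRingHom =
      eval (aff x (fun i => a i + t * b i)) := by
    apply MvPolynomial.ringHom_ext
    · intro c
      simp
    · intro i
      simp only [RingHom.comp_apply, AlgHom.toRingHom_eq_coe, RingHom.coe_coe, aeval_X, eval_X]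
      fin_cases i <;> simp [aff, plu] <;> ring
  exact congrArg (fun f => f K) h

theorem t_EXPT : S_EXPT := by
  intro K hK x
  obtain ⟨p, hp⟩ := exists_poly K x ![0, 1, 0] ![1, 0, 0]
  obtain ⟨q, hq⟩ := exists_poly K x ![1, 0, 0] ![0, 1, 0]
  by_cases hroot : ∃ t, p.IsRoot t
  · obtain ⟨t, ht⟩ := hroot
    refine ⟨fun i => (![0, 1, 0] : Fin 3 → ℂ) i + t * (![1, 0, 0] : Fin 3 → ℂ) i, ?_, ?_⟩
    · intro h
      have := congrFun h 1
      simp at this
    · rw [eval_kap, ← hp]
      exact ht
  · have hdeg : p.degree = 0 := by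
      by_contra hne
      exact hroot (IsAlgClosed.exists_root p hne)
    have hpc := Polynomial.eq_C_of_degree_eq_zero hdeg
    have hqs : ∀ s : ℂ, s ≠ 0 → q.eval s = s ^ 3 * p.coeff 0 := by
      intro s hs
      have h1 := hp s⁻¹
      rw [hpc, Polynomial.eval_C] at h1
      rw [hq s, h1]
      apply eval_hom K 3 hK s
      intro i
      apply aff_smul
      intro k
      fin_cases k <;> simp [hs]
    have hpoly : q = Polynomial.X ^ 3 * Polynomial.C (p.coeff 0) := by
      apply Polynomial.eq_of_infinite_eval_eq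
      apply Set.Infinite.mono (s := {s : ℂ | s ≠ 0})
      · intro s hs
        change q.eval s = _
        rw [hqs s hs, Polynomial.eval_mul, Polynomial.eval_pow, Polynomial.eval_X,
          Polynomial.eval_C]
      · exact (Set.finite_singleton (0 : ℂ)).infinite_compl
    refine ⟨fun i => (![1, 0, 0] : Fin 3 → ℂ) i + 0 * (![0, 1, 0] : Fin 3 → ℂ) i, ?_, ?_⟩
    · intro h
      have := congrFun h 0
      simp at this
    · rw [eval_kap, ← hq, hpoly]
      simp

end Pool.Agent.H892.ZL.WEXPT
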