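import Mathlib
import Pool.Agent.H892.ZL.Stm

/-!
Factors of weighted homogeneous polynomials are weighted homogeneous.
-/

set_option autoImplicit false

open MvPolynomial

namespace Pool.Agent.H892.ZL.WHOMF

open Pool.Agent.H892.ZL

/-- the homogenization with an additional variable -/
noncomputable def Phi (w : Fin 3 ⊕ Fin 3 → ℕ) : SA →ₐ[ℂ] Polynomial SA :=
  aeval (fun i => Polynomial.X ^ w i * Polynomial.C (X i))

theorem Phi_monomial (w : Fin 3 ⊕ Fin 3 → ℕ) (d : (Fin 3 ⊕ Fin 3) →₀ ℕ) (c : ℂ) :
    Phi w (monomial d c) = Polynomial.monomial (Finsupp.weight w d) (monomial d c) := by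
  unfold Phi
  rw [aeval_monomial, Finsupp.weight_apply, ← Polynomial.C_mul_X_pow_eq_monomial, monomial_eq,
    Finsupp.prod, Finsupp.prod, Finsupp.sum]
  simp only [mul_pow, Finset.prod_mul_distrib, ← pow_mul, Finset.prod_pow_eq_pow_sum,
    map_mul, map_prod, map_pow, smul_eq_mul]
  have h1 : algebraMap ℂ (Polynomial SA) c = Polynomial.C (C c) := rfl
  rw [h1]
  have h2 : ∑ i ∈ d.support, w i * d i = ∑ i ∈ d.support, d i * w i :=
    Finset.sum_congr rfl fun i _ => mul_comm _ _
  rw [h2]
  ring

theorem Phi_coeff (w : Fin 3 ⊕ Fin 3 → ℕ) (m : ℕ) (f : SA) :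
    (Phi w f).coeff m = weightedHomogeneousComponent w m f := by
  induction f using MvPolynomial.induction_on' with
  | monomial d c =>
    rw [Phi_monomial, Polynomial.coeff_monomial]
    ext e
    rw [coeff_weightedHomogeneousComponent, coeff_monomial]
    by_cases hd : d = e
    · subst hd
      by_cases hm : Finsupp.weight w d = m <;> simp [hm]
    · by_cases hm : Finsupp.weight w d = m <;> simp [coeff_monomial, hd, hm]
  | add p q hp hq =>
    rw [map_add, Polynomial.coeff_add, hp, hq, map_add]

theorem hom_of (w : Fin 3 ⊕ Fin 3 → ℕ) (f : SA)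
    (h : (Phi w f).natDegree = (Phi w f).natTrailingDegree) :
    IsWeightedHomogeneous w f (Phi w f).natDegree := by
  intro d hd
  by_contra hne
  have h1 : coeff d (weightedHomogeneousComponent w (Finsupp.weight w d) f) = coeff d f := by
    rw [coeff_weightedHomogeneousComponent, if_pos rfl]
  have h2 : (Phi w f).coeff (Finsupp.weight w d) ≠ 0 := by
    intro h0
    rw [Phi_coeff] at h0
    rw [h0, coeff_zero] at h1
    exact hd h1.symm
  have h3 := Polynomial.le_natDegree_of_ne_zero h2
  have h4 := Polynomial.natTrailingDegree_le_of_ne_zero h2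
  omega

theorem Phi_hom (w : Fin 3 ⊕ Fin 3 → ℕ) (f : SA) (n : ℕ) (h : IsWeightedHomogeneous w f n) :
    Phi w f = Polynomial.monomial n f := by
  ext1 m
  rw [Phi_coeff, Polynomial.coeff_monomial]
  split_ifs with hm
  · subst hm
    exact h.weightedHomogeneousComponent_same
  · exact h.weightedHomogeneousComponent_ne m (fun h => hm h.symm)

theorem t_HOMF : S_HOMF := by
  intro f g n h0 h
  have h1 : Phi wty f * Phi wty g = Polynomial.monomial n (f * g) := by
    rw [← map_mul]
    exact Phi_hom wty (f * g) n h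
  have h2 : Phi wty f * Phi wty g ≠ 0 := by
    rw [h1]
    exact (Polynomial.monomial_eq_zero_iff _ _).not.2 h0
  have hf : Phi wty f ≠ 0 := left_ne_zero_of_mul h2
  have hg : Phi wty g ≠ 0 := right_ne_zero_of_mul h2
  have h3 := Polynomial.natDegree_mul hf hg
  have h4 := Polynomial.natTrailingDegree_mul hf hg
  rw [h1, Polynomial.natDegree_monomial_eq n h0] at h3
  rw [h1, Polynomial.natTrailingDegree_monomial h0] at h4
  have h5 := (Phi wty f).natTrailingDegree_le_natDegree
  have h6 := (Phi wty g).natTrailingDegree_le_natDegree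
  exact ⟨_, _, h3.symm, hom_of wty f (by omega), hom_of wty g (by omega)⟩

end Pool.Agent.H892.ZL.WHOMF
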