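import Mathlib
import Pool.Agent.H892.ZL.Stm

set_option autoImplicit false

/-! # ZL-INL: the local ring at a specialization with values (helper264 for helper892) -/

namespace Pool.Agent.H892.ZL.WINL

open Pool.Agent.H892.ZL
open MvPolynomial

/-- the pair `(r, a)` is represented by a fraction `A / B` -/
def Fr {E : Type} [Field E] [Algebra ℂ E] (q : Fin 6 → E) (c : Fin 6 → ℂ) (r : E) (a : ℂ) : Prop :=
  ∃ A B : MvPolynomial (Fin 6) ℂ, eval c B ≠ 0 ∧ aeval q B ≠ 0 ∧
      r * aeval q B = aeval q A ∧ a * eval c B = eval c A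

theorem Fr.add {E : Type} [Field E] [Algebra ℂ E] {q : Fin 6 → E} {c : Fin 6 → ℂ} {r s : E} {a b : ℂ}
    (h : Fr q c r a) (h' : Fr q c s b) : Fr q c (r + s) (a + b) := by
  obtain ⟨A, B, h1, h2, h3, h4⟩ := h
  obtain ⟨A', B', h1', h2', h3', h4'⟩ := h'
  refine ⟨A * B' + A' * B, B * B', ?_, ?_, ?_, ?_⟩
  · rw [map_mul]; exact mul_ne_zero h1 h1'
  · rw [map_mul]; exact mul_ne_zero h2 h2'
  · rw [map_mul, map_add, map_mul, map_mul, ← h3, ← h3']; ring
  · rw [map_mul, map_add, map_mul, map_mul, ← h4, ← h4']; ring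

theorem Fr.mul {E : Type} [Field E] [Algebra ℂ E] {q : Fin 6 → E} {c : Fin 6 → ℂ} {r s : E} {a b : ℂ}
    (h : Fr q c r a) (h' : Fr q c s b) : Fr q c (r * s) (a * b) := by
  obtain ⟨A, B, h1, h2, h3, h4⟩ := h
  obtain ⟨A', B', h1', h2', h3', h4'⟩ := h'
  refine ⟨A * A', B * B', ?_, ?_, ?_, ?_⟩
  · rw [map_mul]; exact mul_ne_zero h1 h1'
  · rw [map_mul]; exact mul_ne_zero h2 h2'
  · rw [map_mul, map_mul, ← h3, ← h3']; ring
  · rw [map_mul, map_mul, ← h4, ← h4']; ring

theorem Fr.const {E : Type} [Field E] [Algebra ℂ E] (q : Fin 6 → E) (c : Fin 6 → ℂ) (k : ℂ) :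
    Fr q c (algebraMap ℂ E k) k := by
  refine ⟨C k, 1, ?_, ?_, ?_, ?_⟩
  · rw [map_one]; exact one_ne_zero
  · rw [map_one]; exact one_ne_zero
  · rw [map_one, mul_one, aeval_C]
  · rw [map_one, mul_one, eval_C]

theorem t_INL : S_INL := by
  intro E _ _ q c hqc
  let S : Subalgebra ℂ (E × ℂ) :=
    { carrier := {p | Fr q c p.1 p.2}
      mul_mem' := fun {x y} hx hy => Fr.mul hx hy
      one_mem' := by
        have := Fr.const q c 1
        rw [map_one] at this
        exact this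
      add_mem' := fun {x y} hx hy => Fr.add hx hy
      zero_mem' := by
        have := Fr.const q c 0
        rw [map_zero] at this
        exact this
      algebraMap_mem' := fun k => Fr.const q c k }
  have hS : ∀ r a, (r, a) ∈ S ↔ Fr q c r a := fun r a => Iff.rfl
  refine ⟨S, fun r a => hS r a, ?_, ?_, ?_⟩
  · intro j
    refine ⟨X j, 1, ?_, ?_, ?_, ?_⟩
    · rw [map_one]; exact one_ne_zero
    · rw [map_one]; exact one_ne_zero
    · rw [map_one, mul_one, aeval_X]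
    · rw [map_one, mul_one, eval_X]
  · intro r a hra ha
    obtain ⟨A, B, h1, h2, h3, h4⟩ := (hS r a).1 hra
    have hA : eval c A ≠ 0 := by rw [← h4]; exact mul_ne_zero ha h1
    have hA' : aeval q A ≠ 0 := fun h => hA (hqc A h)
    have hr : r ≠ 0 := by
      intro h
      rw [h, zero_mul] at h3
      exact hA' h3.symm
    refine ⟨hr, (hS _ _).2 ⟨B, A, hA, hA', ?_, ?_⟩⟩
    · rw [← h3, inv_mul_cancel_left₀ hr]
    · rw [← h4, inv_mul_cancel_left₀ ha]
  · intro r
    constructor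
    · rintro ⟨A, B, h1, h2, h3⟩
      refine ⟨eval c A / eval c B, (hS _ _).2 ⟨A, B, h1, h2, h3, ?_⟩⟩
      rw [div_mul_cancel₀ _ h1]
    · rintro ⟨a, ha⟩
      obtain ⟨A, B, h1, h2, h3, h4⟩ := (hS r a).1 ha
      exact ⟨A, B, h1, h2, h3⟩

end Pool.Agent.H892.ZL.WINL
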