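import Mathlib
import Pool.Agent.H892.ZL.Stm

set_option autoImplicit false

/-! # ZL: no factor of the equation of the threefold in the chart depends on the point only -/

namespace Pool.Agent.H892.ZL.WIRR0

open Pool.Agent.H892.ZL MvPolynomial

/-- the substitution `y = e_j` -/
noncomputable def sbs (j : Fin 3) : SA →ₐ[ℂ] MvPolynomial (Fin 3) ℂ :=
  aeval (Sum.elim (fun i => X i) (fun i => C ((Pi.single j (1 : ℂ) : Fin 3 → ℂ) i)))

theorem sbs_inl (j i : Fin 3) : sbs j (X (Sum.inl i)) = X i := by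
  unfold sbs
  rw [aeval_X]; rfl

theorem sbs_inr (j i : Fin 3) : sbs j (X (Sum.inr i)) = C ((Pi.single j (1 : ℂ) : Fin 3 → ℂ) i) := by
  unfold sbs
  rw [aeval_X]; rfl

theorem sbs_inx (j : Fin 3) (f : MvPolynomial (Fin 3) ℂ) : sbs j (inx f) = f := by
  unfold sbs inx
  rw [aeval_rename]
  have : (Sum.elim (fun i => X i) (fun i => C ((Pi.single j (1 : ℂ) : Fin 3 → ℂ) i)) :
      Fin 3 ⊕ Fin 3 → MvPolynomial (Fin 3) ℂ) ∘ Sum.inl = X := by
    funext i; rfl
  rw [this, aeval_X_left_apply]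

theorem eval_sbs (j : Fin 3) (x : Fin 3 → ℂ) (A : SA) :
    eval x (sbs j A) = eval (pt x (Pi.single j 1)) A := by
  induction A using MvPolynomial.induction_on with
  | C a => rw [← algebraMap_eq, AlgHom.commutes, algebraMap_eq, eval_C, algebraMap_eq, eval_C]
  | add p q hp hq => rw [map_add, map_add, map_add, hp, hq]
  | mul_X p n hp =>
    rw [map_mul, map_mul, map_mul, hp]
    congr 1
    rcases n with i | i
    · rw [sbs_inl, eval_X, eval_X]; rfl
    · rw [sbs_inr, eval_C, eval_X]; rfl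

theorem aeval_mem {σ : Type} (S : Subalgebra ℂ (MvPolynomial (Fin 3) ℂ))
    (g : σ → MvPolynomial (Fin 3) ℂ) (hg : ∀ i, g i ∈ S) (p : MvPolynomial σ ℂ) :
    aeval g p ∈ S := by
  induction p using MvPolynomial.induction_on with
  | C a => rw [← algebraMap_eq, AlgHom.commutes]; exact S.algebraMap_mem a
  | add p q hp hq => rw [map_add]; exact S.add_mem hp hq
  | mul_X p n hp => rw [map_mul, aeval_X]; exact S.mul_mem hp (hg n)

theorem sbs_gp (j : Fin 3) (I : Fin 6) : sbs j (gp I) ∈ supported ℂ ({j}ᶜ : Set (Fin 3)) := by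
  fin_cases j <;> fin_cases I <;>
    simp [gp, aff, plu, sbs_inl, sbs_inr]

theorem t_IRR0 : S_IRR0 := by
  intro K hK f hf
  have key : ∀ j : Fin 3, f ≠ 0 ∧ f.degreeOf j = 0 := by
    intro j
    obtain ⟨x, hx⟩ := hK.lead j
    rw [← eval_sbs] at hx
    have hne : sbs j (kap K) ≠ 0 := by
      intro h0
      rw [h0, map_zero] at hx
      exact hx rfl
    have hd : f ∣ sbs j (kap K) := by
      have := map_dvd (sbs j) hf
      rwa [sbs_inx] at this
    obtain ⟨g, hg⟩ := hd
    have hf0 : f ≠ 0 := by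
      intro h0
      rw [h0, zero_mul] at hg
      exact hne hg
    have hg0 : g ≠ 0 := by
      intro h0
      rw [h0, mul_zero] at hg
      exact hne hg
    have hmem : sbs j (kap K) ∈ supported ℂ ({j}ᶜ : Set (Fin 3)) := by
      have e : sbs j (kap K) = aeval (fun I => sbs j (gp I)) K := by
        unfold kap
        rw [← AlgHom.comp_apply, comp_aeval]
      rw [e]
      exact aeval_mem _ _ (sbs_gp j) K
    have hdeg : (sbs j (kap K)).degreeOf j = 0 := by
      by_contra hne2
      have h2 := mem_vars_iff_degreeOf_ne_zero.2 hne2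
      exact (mem_supported.1 hmem h2) rfl
    rw [hg, degreeOf_mul_eq hf0 hg0] at hdeg
    exact ⟨hf0, by omega⟩
  have hvars : f.vars = ∅ := by
    rw [Finset.eq_empty_iff_forall_notMem]
    intro j hj
    exact mem_vars_iff_degreeOf_ne_zero.1 hj (key j).2
  have hC := vars_eq_empty_iff_eq_C.1 hvars
  have hc : f.coeff 0 ≠ 0 := by
    intro h0
    rw [h0, C_0] at hC
    exact (key 0).1 hC
  rw [hC]
  exact (isUnit_iff_ne_zero.2 hc).map C

end Pool.Agent.H892.ZL.WIRR0
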