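import Mathlib
import Pool.Agent.H892.ZL.Stm

set_option autoImplicit false

namespace Pool.Agent.H892.ZL.WISW

open Pool.Agent.H892.ZL Matrix MvPolynomial

/-- chain rule for a derivation and a polynomial -/
theorem chain_rule {E : Type} [Field E] [Algebra ℂ E] (δ : Derivation ℂ E E) (R : Fin 6 → E)
    (A : MvPolynomial (Fin 6) ℂ) :
    δ (aeval R A) = ∑ I, aeval R (pderiv I A) * δ (R I) := by
  induction A using MvPolynomial.induction_on with
  | C a => simp
  | add p q hp hq =>
    simp only [map_add, hp, hq, add_mul, Finset.sum_add_distrib]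
  | mul_X p n hp =>
    rw [map_mul, aeval_X, Derivation.leibniz, hp]
    simp only [smul_eq_mul, Derivation.leibniz, pderiv_X, map_add, map_mul, aeval_X, add_mul,
      Finset.sum_add_distrib]
    congr 1
    · rw [Finset.sum_eq_single n]
      · simp
      · intro b _ hb
        simp [Pi.single_apply, hb.symm]
      · intro h
        exact absurd (Finset.mem_univ n) h
    · rw [Finset.mul_sum]
      exact Finset.sum_congr rfl fun i _ => by ring

theorem Gp_hom : Gp.IsHomogeneous 2 := by
  unfold Gp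
  exact ((((isHomogeneous_X ℂ (0 : Fin 6)).mul (isHomogeneous_X ℂ (5 : Fin 6)))).sub
    ((isHomogeneous_X ℂ (1 : Fin 6)).mul (isHomogeneous_X ℂ (4 : Fin 6)))).add
    ((isHomogeneous_X ℂ (2 : Fin 6)).mul (isHomogeneous_X ℂ (3 : Fin 6)))

theorem euler {E : Type} [Field E] [Algebra ℂ E] (R : Fin 6 → E) {A : MvPolynomial (Fin 6) ℂ}
    {n : ℕ} (hA : A.IsHomogeneous n) (h0 : aeval R A = 0) :
    ∑ I, aeval R (pderiv I A) * R I = 0 := by
  have h1 := congrArg (aeval R) hA.sum_X_mul_pderiv
  rw [map_sum, map_nsmul, h0, nsmul_zero] at h1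
  rw [← h1]
  refine Finset.sum_congr rfl fun i _ => ?_
  rw [map_mul, aeval_X, mul_comm]

theorem t_ISW (h1 : S_LA) : S_ISW := by
  intro E _ _ δ K R hK hG0 hK0 hL
  refine h1 E (XX δ R) (YY K R) ?_ hL
  have key : ∀ (A : MvPolynomial (Fin 6) ℂ) (n : ℕ), A.IsHomogeneous n → aeval R A = 0 →
      ∀ b : Fin 4, ∑ I, grad A R I * XX δ R b I = 0 := by
    intro A n hA h0 b
    refine Fin.cases ?_ (fun i => ?_) b
    · exact euler R hA h0
    · have := chain_rule (δ i) R A
      rw [h0, map_zero] at this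
      exact this.symm
  ext a b
  rw [Matrix.mul_apply]
  simp only [Matrix.transpose_apply, Matrix.zero_apply]
  fin_cases a
  · exact key Gp 2 Gp_hom hG0 b
  · exact key K 3 hK hK0 b

end Pool.Agent.H892.ZL.WISW
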