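import Mathlib
import Pool.Agent.H892.ZL.Stm

set_option autoImplicit false

/-!
# An isomorphism is linear and preserves the two equations
-/

namespace Pool.Agent.H892.ZL.WLIN

open Pool.Agent.H892.ZL
open MvPolynomial Matrix

theorem cisoSymm {C C' : Set (Fin 6 → ℂ)} {Φ Ψ : (Fin 6 → ℂ) → (Fin 6 → ℂ)} (h : CIso C C' Φ Ψ) :
    CIso C' C Ψ Φ where
  maps := h.maps'
  maps' := h.maps
  compat := h.compat'
  compat' := h.compat
  inv := h.inv'
  inv' := h.inv
  rep := h.rep'
  rep' := h.rep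

theorem eval_gp (x y : Fin 3 → ℂ) (I : Fin 6) : eval (pt x y) (gp I) = aff x y I := by
  fin_cases I <;> simp [gp, aff, plu, pt]

theorem eval_kap (K : MvPolynomial (Fin 6) ℂ) (x y : Fin 3 → ℂ) :
    eval (pt x y) (kap K) = eval (aff x y) K := by
  have h : ((aeval (pt x y) : SA →ₐ[ℂ] ℂ).comp (aeval gp : MvPolynomial (Fin 6) ℂ →ₐ[ℂ] SA)) =
      (aeval (aff x y) : MvPolynomial (Fin 6) ℂ →ₐ[ℂ] ℂ) := by
    apply MvPolynomial.algHom_ext
    intro I
    rw [AlgHom.comp_apply, aeval_X, aeval_X]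
    exact eval_gp x y I
  exact DFunLike.congr_fun h K

theorem aff_smul (x y : Fin 3 → ℂ) (t : ℂ) : aff x (t • y) = t • aff x y := by
  funext I
  fin_cases I <;> simp [aff, plu] <;> ring

theorem eval_aff_G (x y : Fin 3 → ℂ) : eval (aff x y) Gp = 0 := by
  simp [Gp, aff, plu]
  ring

theorem eval_hom {K : MvPolynomial (Fin 6) ℂ} {n : ℕ} (hK : K.IsHomogeneous n) (t : ℂ)
    (v : Fin 6 → ℂ) : eval (t • v) K = t ^ n * eval v K := by
  rw [eval_eq', eval_eq', Finset.mul_sum]
  refine Finset.sum_congr rfl fun m hm => ?_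
  have h1 : m.degree = n := by
    by_contra h
    exact (MvPolynomial.mem_support_iff.1 hm) (hK.coeff_eq_zero h)
  have h2 : ∏ i, (t • v) i ^ m i = t ^ n * ∏ i, v i ^ m i := by
    rw [← h1, Finsupp.degree_eq_sum, ← Finset.prod_pow_eq_pow_sum, ← Finset.prod_mul_distrib]
    refine Finset.prod_congr rfl fun i _ => ?_
    rw [Pi.smul_apply, smul_eq_mul, mul_pow]
  rw [h2]
  ring

theorem Gp_hom : Gp.IsHomogeneous 2 := by
  unfold Gp
  have h : ∀ i j : Fin 6, ((X i * X j : MvPolynomial (Fin 6) ℂ)).IsHomogeneous 2 := fun i j =>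
    (isHomogeneous_X ℂ i).mul (isHomogeneous_X ℂ j)
  exact ((h 0 5).sub (h 1 4)).add (h 2 3)

/-- the polynomial `A` composed with the matrix `T` -/
noncomputable def cmp (T : Matrix (Fin 6) (Fin 6) ℂ) (A : MvPolynomial (Fin 6) ℂ) :
    MvPolynomial (Fin 6) ℂ := aeval (fun I => ∑ J, C (T I J) * X J) A

theorem eval_cmp (T : Matrix (Fin 6) (Fin 6) ℂ) (A : MvPolynomial (Fin 6) ℂ) (v : Fin 6 → ℂ) :
    eval v (cmp T A) = eval (T *ᵥ v) A := by
  have h : ((aeval v : MvPolynomial (Fin 6) ℂ →ₐ[ℂ] ℂ).comp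
      (aeval (fun I => ∑ J, C (T I J) * X J) : MvPolynomial (Fin 6) ℂ →ₐ[ℂ] MvPolynomial (Fin 6) ℂ)) =
      (aeval (T *ᵥ v) : MvPolynomial (Fin 6) ℂ →ₐ[ℂ] ℂ) := by
    apply MvPolynomial.algHom_ext
    intro I
    rw [AlgHom.comp_apply, aeval_X, aeval_X, map_sum]
    simp only [map_mul, aeval_X, aeval_C]
    rfl
  exact DFunLike.congr_fun h A

theorem cmp_hom (T : Matrix (Fin 6) (Fin 6) ℂ) {A : MvPolynomial (Fin 6) ℂ} {n : ℕ}
    (hA : A.IsHomogeneous n) : (cmp T A).IsHomogeneous n := by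
  have h := hA.aeval (fun I => ∑ J, C (T I J) * X J) (n := 1) (fun I => by
    refine IsHomogeneous.sum _ _ _ fun j _ => ?_
    have := (isHomogeneous_C (Fin 6) (T I j)).mul (isHomogeneous_X ℂ j)
    rwa [zero_add] at this)
  rw [one_mul] at h
  exact h

theorem continuous_ev (q : SA) (x y : Fin 3 → ℂ) :
    Continuous fun t : ℂ => eval (pt x (t • y)) q := by
  refine (MvPolynomial.continuous_eval q).comp ?_
  refine continuous_pi fun i => ?_
  rcases i with i | i
  · exact continuous_const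
  · show Continuous fun t : ℂ => (t • y) i
    simp only [Pi.smul_apply, smul_eq_mul]
    fun_prop

/-- `u` is a multiple of `v` -/
theorem prop2_mul {u v : Fin 6 → ℂ} (h : Prop2 u v) (hv : v ≠ 0) : ∃ t : ℂ, u = t • v := by
  obtain ⟨j, hj⟩ := Function.ne_iff.1 hv
  refine ⟨u j / v j, ?_⟩
  funext i
  have h1 := h i j
  rw [Pi.smul_apply, smul_eq_mul]
  have hj' : v j ≠ 0 := hj
  field_simp
  exact h1

theorem aff_ne_zero {x y : Fin 3 → ℂ} (hy : y ≠ 0) : aff x y ≠ 0 := by
  intro h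
  apply hy
  have h2 := congrFun h 2
  have h4 := congrFun h 4
  have h5 := congrFun h 5
  simp [aff, plu] at h2 h4 h5
  funext i
  fin_cases i
  · exact h2
  · exact h4
  · exact h5

/-- scaling argument -/
theorem scal0 {K A : MvPolynomial (Fin 6) ℂ} {n : ℕ} (hK : K.IsHomogeneous 3) (hA : A.IsHomogeneous n)
    {q : SA} (hq : kap A = kap K * q) (x y : Fin 3 → ℂ) (t : ℂ) :
    t ^ n * eval (aff x y) A = t ^ 3 * eval (aff x y) K * eval (pt x (t • y)) q := by
  have h1 := congrArg (eval (pt x (t • y))) hq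
  rw [map_mul, eval_kap, eval_kap, aff_smul, eval_hom hK, eval_hom hA] at h1
  exact h1

theorem t_LIN (h1 : S_IRR) (h2 : S_NULL) (h4 : S_T) (h5 : S_INV) (h6 : S_QUAD) (h7 : S_LIND)
    (h8 : S_DECA) : S_LIN := by
  intro K K' Φ Ψ hK hK' hiso
  obtain ⟨T, hT, hTw⟩ := h4 K K' Φ Ψ hK hK' hiso
  obtain ⟨T', hT', hTw'⟩ := h4 K' K Ψ Φ hK' hK (cisoSymm hiso)
  obtain ⟨c0, hc0, hTT⟩ := h5 K K' Φ Ψ hK hK' hiso T T' hT hTw hT' hTw'
  have hdet : IsUnit T.det := by
    have h := congrArg Matrix.det hTT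
    rw [Matrix.det_mul, Matrix.det_smul, Matrix.det_one, mul_one] at h
    have h3 : T'.det * T.det ≠ 0 := by
      rw [h]
      exact pow_ne_zero _ hc0
    exact (right_ne_zero_of_mul h3).isUnit
  have hprime := h1 K hK
  -- values on the cone
  have hval : ∀ x y : Fin 3 → ℂ, y ≠ 0 → eval (pt x y) (kap K) = 0 →
      eval (T *ᵥ aff x y) Gp = 0 ∧ eval (T *ᵥ aff x y) K' = 0 := by
    intro x y hy hk
    have hmem : aff x y ∈ Cone K := ⟨aff_ne_zero hy, eval_aff_G x y, by rw [← eval_kap]; exact hk⟩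
    obtain ⟨ha, hb, hc⟩ := hiso.maps _ hmem
    obtain ⟨t, ht⟩ := prop2_mul (hT x y hy hk) ha
    rw [ht, eval_hom Gp_hom, eval_hom hK'.hom, hb, hc, mul_zero, mul_zero]
    exact ⟨rfl, rfl⟩
  -- the quadric
  have hG0 : ∀ x y : Fin 3 → ℂ, eval (T *ᵥ aff x y) Gp = 0 := by
    intro x y
    obtain ⟨q, hq⟩ := h2 K hK hprime (kap (cmp T Gp)) (fun x y hy hk => by
      rw [eval_kap, eval_cmp]
      exact (hval x y hy hk).1)
    have hs := scal0 hK.hom (cmp_hom T Gp_hom) hq x y
    have hcont : Continuous fun t : ℂ => t * eval (aff x y) K * eval (pt x (t • y)) q :=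
      (continuous_id.mul continuous_const).mul (continuous_ev q x y)
    have heq : (fun t : ℂ => t * eval (aff x y) K * eval (pt x (t • y)) q) =
        fun _ => eval (aff x y) (cmp T Gp) := by
      refine Continuous.ext_on (dense_compl_singleton (0 : ℂ)) hcont continuous_const ?_
      intro t ht
      have ht0 : t ≠ 0 := ht
      have hst := hs t
      have ht2 : t ^ 2 ≠ 0 := pow_ne_zero _ ht0
      apply mul_left_cancel₀ ht2
      show t ^ 2 * (t * eval (aff x y) K * eval (pt x (t • y)) q) = t ^ 2 * eval (aff x y) (cmp T Gp)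
      rw [hst]
      ring
    have h0 := congrFun heq 0
    simp only [zero_mul] at h0
    rw [← eval_cmp, ← h0]
  have hA0 : aeval gp (cmp T Gp) = 0 := by
    apply MvPolynomial.funext
    intro z
    have hz : z = pt (fun i => z (Sum.inl i)) (fun i => z (Sum.inr i)) := by
      funext i
      rcases i with i | i <;> rfl
    rw [hz, map_zero]
    show eval _ (kap (cmp T Gp)) = 0
    rw [eval_kap, eval_cmp, hG0]
  obtain ⟨c', hc'⟩ := h6 (cmp T Gp) (cmp_hom T Gp_hom) hA0
  have hGc : ∀ v, eval (T *ᵥ v) Gp = c' * eval v Gp := by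
    intro v
    rw [← eval_cmp, hc', map_mul, eval_C]
  -- the inverse
  have hTi : T * T⁻¹ = 1 := Matrix.mul_nonsing_inv T hdet
  have hTiv : ∀ w, T *ᵥ (T⁻¹ *ᵥ w) = w := by
    intro w
    rw [Matrix.mulVec_mulVec, hTi, Matrix.one_mulVec]
  have hc'0 : c' ≠ 0 := by
    intro h0
    have h3 := hGc (T⁻¹ *ᵥ ![1, 0, 0, 0, 0, 1])
    rw [hTiv, h0, zero_mul] at h3
    simp [Gp] at h3
  -- the cubic
  obtain ⟨q, hq⟩ := h2 K hK hprime (kap (cmp T K')) (fun x y hy hk => by
    rw [eval_kap, eval_cmp]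
    exact (hval x y hy hk).2)
  have hq0 : ∀ x y : Fin 3 → ℂ, eval (T *ᵥ aff x y) K' = eval (aff x y) K * eval (pt x 0) q := by
    intro x y
    have hs := scal0 hK.hom (cmp_hom T hK'.hom) hq x y
    have hcont : Continuous fun t : ℂ => eval (aff x y) K * eval (pt x (t • y)) q :=
      continuous_const.mul (continuous_ev q x y)
    have heq : (fun t : ℂ => eval (aff x y) K * eval (pt x (t • y)) q) =
        fun _ => eval (aff x y) (cmp T K') := by
      refine Continuous.ext_on (dense_compl_singleton (0 : ℂ)) hcont continuous_const ?_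
      intro t ht
      have ht0 : t ≠ 0 := ht
      have hst := hs t
      have ht3 : t ^ 3 ≠ 0 := pow_ne_zero _ ht0
      apply mul_left_cancel₀ ht3
      show t ^ 3 * (eval (aff x y) K * eval (pt x (t • y)) q) = t ^ 3 * eval (aff x y) (cmp T K')
      rw [hst]
      ring
    have h0 := congrFun heq 0
    simp only [zero_smul] at h0
    rw [← eval_cmp, ← h0]
  -- the quotient is constant
  obtain ⟨x1, hx1⟩ := hK.lead 0
  have hkap0 : kap K ≠ 0 := by
    intro h0
    rw [h0, map_zero] at hx1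
    exact hx1 rfl
  let ρ : SA →ₐ[ℂ] SA := aeval (Sum.elim (fun i => X (Sum.inl i)) (fun _ => 0))
  let σ : SA →ₐ[ℂ] SA := aeval (Sum.elim (fun i => X (Sum.inl i) + X (Sum.inr i)) (fun i => X (Sum.inr i)))
  have hρ : ∀ (x y : Fin 3 → ℂ) (f : SA), eval (pt x y) (ρ f) = eval (pt x 0) f := by
    intro x y f
    have h : ((aeval (pt x y) : SA →ₐ[ℂ] ℂ).comp ρ) = (aeval (pt x 0) : SA →ₐ[ℂ] ℂ) := by
      apply MvPolynomial.algHom_ext
      intro I
      rw [AlgHom.comp_apply, aeval_X, aeval_X]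
      rcases I with i | i
      · show aeval (pt x y) (X (Sum.inl i) : SA) = x i
        rw [aeval_X]
        rfl
      · show aeval (pt x y) (0 : SA) = 0
        exact map_zero _
    exact DFunLike.congr_fun h f
  have hσ : ∀ (x y : Fin 3 → ℂ) (f : SA), eval (pt x y) (σ f) = eval (pt (x + y) y) f := by
    intro x y f
    have h : ((aeval (pt x y) : SA →ₐ[ℂ] ℂ).comp σ) = (aeval (pt (x + y) y) : SA →ₐ[ℂ] ℂ) := by
      apply MvPolynomial.algHom_ext
      intro I
      rw [AlgHom.comp_apply, aeval_X, aeval_X]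
      rcases I with i | i
      · show aeval (pt x y) (X (Sum.inl i) + X (Sum.inr i) : SA) = x i + y i
        rw [map_add, aeval_X, aeval_X]
        rfl
      · show aeval (pt x y) (X (Sum.inr i) : SA) = y i
        rw [aeval_X]
        rfl
    exact DFunLike.congr_fun h f
  have haff : ∀ x y : Fin 3 → ℂ, aff (x + y) y = aff x y := by
    intro x y
    funext I
    fin_cases I <;> simp [aff, plu] <;> ring
  have hprod : (σ (ρ q) - ρ q) * kap K = 0 := by
    apply MvPolynomial.funext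
    intro z
    have hz : z = pt (fun i => z (Sum.inl i)) (fun i => z (Sum.inr i)) := by
      funext i
      rcases i with i | i <;> rfl
    rw [hz, map_mul, map_sub, map_zero, hσ, hρ, hρ, eval_kap]
    generalize (fun i => z (Sum.inl i)) = x
    generalize (fun i => z (Sum.inr i)) = y
    have e1 := hq0 x y
    have e2 := hq0 (x + y) y
    rw [haff] at e2
    linear_combination e1 - e2
  have hinv : σ (ρ q) = ρ q := by
    rcases mul_eq_zero.1 hprod with h | h
    · exact sub_eq_zero.1 h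
    · exact absurd h hkap0
  have hconst : ∀ x : Fin 3 → ℂ, eval (pt x 0) q = eval (pt 0 0) q := by
    intro x
    have e := congrArg (eval (pt 0 x)) hinv
    rw [hσ, hρ, hρ, zero_add] at e
    exact e
  refine ⟨T, eval (pt 0 0) q, c', hdet, ?_, hc'0, hGc, fun x y => ?_⟩
  · intro hc
    obtain ⟨x2, hx2⟩ := hK'.lead 0
    have hkap0' : kap K' ≠ 0 := by
      intro h0
      rw [h0, map_zero] at hx2
      exact hx2 rfl
    have hrow : ∑ I, C (T⁻¹ 2 I) * gp I ≠ 0 := by
      intro h0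
      have h3 := h7 _ h0
      have h9 : (T⁻¹ * T) 2 2 = 1 := by
        rw [Matrix.nonsing_inv_mul T hdet, Matrix.one_apply_eq]
      rw [Matrix.mul_apply] at h9
      have h10 : ∀ j, T⁻¹ 2 j = 0 := fun j => congrFun h3 j
      simp only [h10, zero_mul, Finset.sum_const_zero] at h9
      exact zero_ne_one h9
    have hne : kap K' * ∑ I, C (T⁻¹ 2 I) * gp I ≠ 0 := mul_ne_zero hkap0' hrow
    have hex : ∃ z : Fin 3 ⊕ Fin 3 → ℂ, eval z (kap K' * ∑ I, C (T⁻¹ 2 I) * gp I) ≠ 0 := by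
      by_contra hcon
      push Not at hcon
      apply hne
      apply MvPolynomial.funext
      intro z
      rw [hcon z, map_zero]
    obtain ⟨z, hz0⟩ := hex
    have hz : z = pt (fun i => z (Sum.inl i)) (fun i => z (Sum.inr i)) := by
      funext i
      rcases i with i | i <;> rfl
    rw [hz] at hz0
    generalize (fun i => z (Sum.inl i)) = x at hz0
    generalize (fun i => z (Sum.inr i)) = y at hz0
    rw [map_mul, eval_kap, map_sum] at hz0
    have hu2 : (T⁻¹ *ᵥ aff x y) 2 ≠ 0 := by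
      have := right_ne_zero_of_mul hz0
      simp only [map_mul, eval_C, eval_gp] at this
      exact this
    have hu : (T⁻¹ *ᵥ aff x y) 0 * (T⁻¹ *ᵥ aff x y) 5 - (T⁻¹ *ᵥ aff x y) 1 * (T⁻¹ *ᵥ aff x y) 4 +
        (T⁻¹ *ᵥ aff x y) 2 * (T⁻¹ *ᵥ aff x y) 3 = 0 := by
      have h3 := hGc (T⁻¹ *ᵥ aff x y)
      rw [hTiv, eval_aff_G] at h3
      have h9 : eval (T⁻¹ *ᵥ aff x y) Gp = 0 := by
        rcases mul_eq_zero.1 h3.symm with h | h
        · exact absurd h hc'0
        · exact h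
      simpa [Gp] using h9
    obtain ⟨x', y', _, hxy⟩ := h8 ℂ (T⁻¹ *ᵥ aff x y) (Or.inl hu2) hu
    have h3 := hq0 x' y'
    rw [← hxy, hTiv, hconst x', hc, mul_zero] at h3
    exact (left_ne_zero_of_mul hz0) h3
  · rw [hq0, hconst x]
    ring

end Pool.Agent.H892.ZL.WLIN
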