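import Mathlib
import Pool.Agent.H892.ZL.Stm

set_option autoImplicit false

/-!
# The Pluecker coordinates of the generic line are linearly independent
-/

namespace Pool.Agent.H892.ZL.WLIND

open MvPolynomial Pool.Agent.H892.ZL

theorem eval_gp (x y : Fin 3 → ℂ) (I : Fin 6) : eval (pt x y) (gp I) = aff x y I := by
  fin_cases I <;> simp [gp, aff, plu, pt]

theorem t_LIND : S_LIND := by
  intro c hc
  have h : ∀ x y : Fin 3 → ℂ, ∑ I, c I * aff x y I = 0 := by
    intro x y
    have h1 := congrArg (eval (pt x y)) hc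
    rw [map_sum, map_zero] at h1
    rw [← h1]
    refine Finset.sum_congr rfl fun I _ => ?_
    rw [map_mul, eval_C, eval_gp]
  have h2 := h ![0, 0, 0] ![1, 0, 0]
  have h4 := h ![0, 0, 0] ![0, 1, 0]
  have h5 := h ![0, 0, 0] ![0, 0, 1]
  have h0 := h ![1, 0, 0] ![0, 1, 0]
  have h1 := h ![1, 0, 0] ![0, 0, 1]
  have h3 := h ![0, 1, 0] ![0, 0, 1]
  simp [Fin.sum_univ_six, aff, plu] at h0 h1 h2 h3 h4 h5
  rw [h4] at h0
  rw [h5] at h1 h3
  simp at h0 h1 h3
  funext I
  fin_cases I
  · exact h0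
  · exact h1
  · exact h2
  · exact h3
  · exact h4
  · exact h5

end Pool.Agent.H892.ZL.WLIND
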