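import Mathlib
import Pool.Agent.H892.ZL.Stm

/-! # Regularity of `w / w'`, affine version -/

set_option autoImplicit false

namespace Pool.Agent.H892.ZL.WLOCA

open Pool.Agent.H892.ZL
open MvPolynomial Matrix

/-- pairs of polynomial values are in the subalgebra -/
theorem loca_aeval {E : Type} [Field E] [Algebra ℂ E] {S : Subalgebra ℂ (E × ℂ)} {q : Fin 6 → E}
    {c : Fin 6 → ℂ} (h : ∀ j, (q j, c j) ∈ S) (A : MvPolynomial (Fin 6) ℂ) :
    (aeval q A, eval c A) ∈ S := by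
  induction A using MvPolynomial.induction_on with
  | C a =>
    rw [aeval_C, eval_C]
    exact S.algebraMap_mem a
  | add A B hA hB =>
    rw [map_add, map_add]
    exact S.add_mem hA hB
  | mul_X A j hA =>
    rw [map_mul, map_mul, aeval_X, eval_X]
    exact S.mul_mem hA (h j)

/-- pairs of determinants are in the subalgebra -/
theorem loca_det {E : Type} [Field E] [Algebra ℂ E] {S : Subalgebra ℂ (E × ℂ)} {n : Type}
    [Fintype n] [DecidableEq n] (A : Matrix n n E) (B : Matrix n n ℂ)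
    (h : ∀ i j, (A i j, B i j) ∈ S) : (A.det, B.det) ∈ S := by
  obtain ⟨N, hN⟩ : ∃ N : Matrix n n (E × ℂ), ∀ i j, N i j = (A i j, B i j) :=
    ⟨Matrix.of fun i j => (A i j, B i j), fun i j => rfl⟩
  have h1 : N.det.1 = A.det := by
    have e : (RingHom.fst E ℂ) N.det = ((RingHom.fst E ℂ).mapMatrix N).det :=
      RingHom.map_det _ _
    have e2 : (RingHom.fst E ℂ).mapMatrix N = A := by
      ext i j
      show (N i j).1 = A i j
      rw [hN]
    rw [e2] at e
    exact e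
  have h2 : N.det.2 = B.det := by
    have e : (RingHom.snd E ℂ) N.det = ((RingHom.snd E ℂ).mapMatrix N).det :=
      RingHom.map_det _ _
    have e2 : (RingHom.snd E ℂ).mapMatrix N = B := by
      ext i j
      show (N i j).2 = B i j
      rw [hN]
    rw [e2] at e
    exact e
  have h3 : N.det ∈ S := by
    rw [Matrix.det_apply']
    refine S.sum_mem fun σ _ => S.mul_mem ?_ ?_
    · exact S.intCast_mem _
    · refine S.prod_mem fun i _ => ?_
      rw [hN]
      exact h _ _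
  rw [← h1, ← h2]
  exact h3

theorem t_LOCA (h1 : S_INL) (h2 : S_CL) : S_LOCA := by
  intro E _ _ δ K K' p q w w' c c' M M' F H L hpM hqM hW hW' hw hpc hF hqF hcF hH hpH hL
  obtain ⟨S, hS, hSp, hSinv, hSloc⟩ := h1 E p c hpc
  have hS0 : ∀ a, ((0 : E), a) ∈ S → a = 0 := by
    intro a ha
    obtain ⟨A, B, hB, -, hA, ha⟩ := (hS 0 a).1 ha
    rw [zero_mul] at hA
    rw [hpc A hA.symm] at ha
    exact (mul_eq_zero.1 ha).resolve_right hB
  -- step 1
  have hFp : aeval p (F M') ≠ 0 := fun h => hF (hpc _ h)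
  have hSq : ∀ j, (q j, c' j) ∈ S := fun j => (hS _ _).2 ⟨F j, F M', hF, hFp, hqF j, hcF j⟩
  have hSqA : ∀ A, (aeval q A, eval c' A) ∈ S := loca_aeval hSq
  have hqc : ∀ A : MvPolynomial (Fin 6) ℂ, aeval q A = 0 → eval c' A = 0 := by
    intro A hA
    have h3 := hSqA A
    rw [hA] at h3
    exact hS0 _ h3
  obtain ⟨S', hS', hS'q, -, hS'loc⟩ := h1 E q c' hqc
  have hmono : ∀ r a, (r, a) ∈ S' → (r, a) ∈ S := by
    intro r a hra
    obtain ⟨A, B, hB, hBq, hA, ha⟩ := (hS' r a).1 hra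
    obtain ⟨-, h3⟩ := hSinv _ _ (hSqA B) hB
    have h4 := S.mul_mem (hSqA A) h3
    have e : (aeval q A, eval c' A) * ((aeval q B)⁻¹, (eval c' B)⁻¹) = (r, a) := by
      rw [← hA, ← ha]
      apply Prod.ext
      · show r * aeval q B * (aeval q B)⁻¹ = r
        rw [mul_assoc, mul_inv_cancel₀ hBq, mul_one]
      · show a * eval c' B * (eval c' B)⁻¹ = a
        rw [mul_assoc, mul_inv_cancel₀ hB, mul_one]
    rw [← e]
    exact h4
  -- step 2
  have hHq : aeval q (H M) ≠ 0 := fun h => hH (hqc _ h)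
  have hpj : ∀ j, InLoc q c' (p j) := fun j => ⟨H j, H M, hH, hHq, hpH j⟩
  -- step 3
  obtain ⟨L', hL'⟩ : ∃ L' : Matrix (Fin 4) (Fin 6) E, ∀ i j, L' i j = algebraMap ℂ E (L i j) :=
    ⟨L.map (algebraMap ℂ E), fun i j => rfl⟩
  obtain ⟨μ, hμ⟩ : ∃ μ, μ = D6 L' (YY K p) := ⟨_, rfl⟩
  have hμS : (μ, D6 L (YY K c)) ∈ S := by
    rw [hμ]
    unfold D6
    apply loca_det
    intro i j
    rw [Matrix.submatrix_apply, Matrix.submatrix_apply]
    generalize finSumFinEquiv j = t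
    cases i with
    | inl i =>
      show (L' i t, L i t) ∈ S
      rw [hL']
      exact S.algebraMap_mem (L i t)
    | inr i =>
      have h3 : ∀ A : MvPolynomial (Fin 6) ℂ, (grad A p t, grad A c t) ∈ S := by
        intro A
        have h4 := loca_aeval hSp (pderiv t A)
        have h5 : grad A c t = eval c (pderiv t A) := by
          unfold grad
          rw [← coe_aeval_eq_eval]
          rfl
        rw [h5]
        exact h4
      fin_cases i
      · exact h3 Gp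
      · exact h3 K
  obtain ⟨hμ0, hμinv⟩ := hSinv _ _ hμS hL
  -- step 4
  obtain ⟨u, hu⟩ : ∃ u : Fin 4 → E, ∀ k, u k = ∑ j, L' k j * p j := ⟨_, fun k => rfl⟩
  have hu' : ∀ k, InLoc q c' (u k) := by
    intro k
    rw [hS'loc]
    have h3 : ∀ j, ∃ a, (p j, a) ∈ S' := fun j => (hS'loc _).1 (hpj j)
    choose a ha using h3
    refine ⟨∑ j, L k j * a j, ?_⟩
    have h4 : ∑ j, (L' k j, L k j) * (p j, a j) ∈ S' := by
      refine S'.sum_mem fun j _ => S'.mul_mem ?_ (ha j)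
      rw [hL']
      exact S'.algebraMap_mem (L k j)
    have e : ∑ j, (L' k j, L k j) * (p j, a j) = (u k, ∑ j, L k j * a j) := by
      rw [hu]
      apply Prod.ext
      · rw [Prod.fst_sum]
        rfl
      · rw [Prod.snd_sum]
        rfl
    rwa [e] at h4
  have hdu : ∀ (b : Fin 3) k, ∑ j, L' k j * δ b (p j) = δ b (u k) := by
    intro b k
    rw [hu, map_sum]
    refine Finset.sum_congr rfl fun j _ => ?_
    rw [Derivation.leibniz, hL', Derivation.map_algebraMap, smul_zero, add_zero, smul_eq_mul]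
  obtain ⟨N, hN⟩ : ∃ N, N = L' * (XX δ p)ᵀ := ⟨_, rfl⟩
  have hN0 : ∀ k, N k 0 = u k := by
    intro k
    rw [hN, Matrix.mul_apply, hu]
    rfl
  have hNs : ∀ k (b : Fin 3), N k b.succ = δ b (u k) := by
    intro k b
    rw [← hdu, hN, Matrix.mul_apply]
    rfl
  have hcl : ∀ k : Fin 4, ∃ ζ, InLoc q c' ζ ∧
      (N.submatrix k.succAbove Fin.succ).det = w' * ζ := by
    intro k
    obtain ⟨ζ, hζ, hdet⟩ := h2 E δ K' q c' w' M' hqM hW' hqc (fun a => u (k.succAbove a))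
      (fun a => hu' _)
    refine ⟨ζ, hζ, ?_⟩
    rw [← hdet, ← Matrix.det_transpose]
    congr 1
    ext a b
    rw [Matrix.transpose_apply, Matrix.submatrix_apply, hNs]
    rfl
  choose ζ hζ hdet using hcl
  have hdetN : N.det = w' * ∑ k : Fin 4, (-1) ^ (k : ℕ) * u k * ζ k := by
    rw [Matrix.det_succ_column_zero, Finset.mul_sum]
    refine Finset.sum_congr rfl fun k _ => ?_
    rw [hN0, hdet]
    ring
  obtain ⟨Θ, hΘ⟩ : ∃ Θ, Θ = ∑ k : Fin 4, (-1) ^ (k : ℕ) * u k * ζ k := ⟨_, rfl⟩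
  have hwμ : w * μ = w' * Θ := by
    rw [hΘ, ← hdetN, hN, hμ]
    exact (hW L').symm
  have hΘS : ∃ a, (Θ, a) ∈ S := by
    choose a ha using fun k => (hS'loc _).1 (hu' k)
    choose b hb using fun k => (hS'loc _).1 (hζ k)
    refine ⟨∑ k : Fin 4, (-1) ^ (k : ℕ) * a k * b k, ?_⟩
    have h4 : ∑ k : Fin 4, (-1) ^ (k : ℕ) * (u k, a k) * (ζ k, b k) ∈ S := by
      refine S.sum_mem fun k _ => S.mul_mem (S.mul_mem ?_ (hmono _ _ (ha k))) (hmono _ _ (hb k))
      exact S.pow_mem (S.neg_mem S.one_mem) _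
    have e : ∑ k : Fin 4, (-1) ^ (k : ℕ) * (u k, a k) * (ζ k, b k) =
        (Θ, ∑ k : Fin 4, (-1) ^ (k : ℕ) * a k * b k) := by
      rw [hΘ]
      apply Prod.ext
      · rw [Prod.fst_sum]
        show _ = ∑ k : Fin 4, (-1) ^ (k : ℕ) * u k * ζ k
        refine Finset.sum_congr rfl fun k _ => ?_
        rw [Prod.fst_mul, Prod.fst_mul, Prod.pow_fst]
        rfl
      · rw [Prod.snd_sum]
        show _ = ∑ k : Fin 4, (-1) ^ (k : ℕ) * a k * b k
        refine Finset.sum_congr rfl fun k _ => ?_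
        rw [Prod.snd_mul, Prod.snd_mul, Prod.pow_snd]
        rfl
    rwa [e] at h4
  have hw' : w' ≠ 0 := by
    intro h
    rw [h, zero_mul] at hwμ
    exact (mul_ne_zero hw hμ0) hwμ
  refine ⟨hw', ?_, fun j => (hSloc _).2 ⟨_, hSq j⟩⟩
  obtain ⟨a, ha⟩ := hΘS
  rw [hSloc]
  refine ⟨a * (D6 L (YY K c))⁻¹, ?_⟩
  have h3 := S.mul_mem ha hμinv
  have e : (Θ, a) * (μ⁻¹, (D6 L (YY K c))⁻¹) = (w / w', a * (D6 L (YY K c))⁻¹) := by
    apply Prod.ext
    · show Θ * μ⁻¹ = w / w'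
      rw [eq_div_iff hw', mul_comm, ← mul_assoc, ← hwμ, mul_assoc, mul_inv_cancel₀ hμ0, mul_one]
    · rfl
  rw [e] at h3
  exact h3

end Pool.Agent.H892.ZL.WLOCA
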