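import Mathlib
import Pool.Agent.H892.ZL.Stm

set_option autoImplicit false

/-!
# Pseudo-division by `kap K` with respect to `y 0`
-/

namespace Pool.Agent.H892.ZL.WN2

open MvPolynomial
open Pool.Agent.H892.ZL

theorem sumInd {P : SA → Prop} (h0 : P 0) (hadd : ∀ a b, P a → P b → P (a + b)) (f : SA)
    (hm : ∀ d ∈ f.support, P (monomial d (coeff d f))) : P f := by
  rw [← support_sum_monomial_coeff f]
  exact Finset.sum_induction _ P hadd h0 hm

theorem dg_mono (d : Fin 3 ⊕ Fin 3 →₀ ℕ) (c : ℂ) (i : Fin 3 ⊕ Fin 3) :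
    degreeOf i (monomial d c : SA) ≤ d i := by
  by_cases hc : c = 0
  · rw [hc, monomial_zero, degreeOf_zero]
    exact Nat.zero_le _
  · rw [degreeOf_monomial_eq _ _ hc]

theorem dg_inx (s : MvPolynomial (Fin 3) ℂ) : degreeOf (Sum.inr 0) (inx s) = 0 := by
  unfold inx
  induction s using MvPolynomial.induction_on with
  | C a => rw [rename_C, degreeOf_C]
  | add p q hp hq =>
    rw [map_add]
    have := degreeOf_add_le (Sum.inr 0) (rename Sum.inl p : SA) (rename Sum.inl q)
    rw [hp, hq] at this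
    simpa using this
  | mul_X p i hp =>
    rw [map_mul, rename_X]
    have := degreeOf_mul_le (Sum.inr 0) (rename Sum.inl p : SA) (X (Sum.inl i))
    rw [hp, degreeOf_X_of_ne (by simp)] at this
    simpa using this

theorem dg_split (n : ℕ) (f : SA) (hf : degreeOf (Sum.inr 0) f ≤ n + 1) :
    ∃ g r : SA, f = g * vy 0 ^ (n + 1) + r ∧ degreeOf (Sum.inr 0) g ≤ 0 ∧
      degreeOf (Sum.inr 0) r ≤ n := by
  refine sumInd (P := fun f => ∃ g r : SA, f = g * vy 0 ^ (n + 1) + r ∧
    degreeOf (Sum.inr 0) g ≤ 0 ∧ degreeOf (Sum.inr 0) r ≤ n) ?_ ?_ f ?_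
  · exact ⟨0, 0, by ring, by simp, by simp⟩
  · rintro a b ⟨g, r, h1, h2, h3⟩ ⟨g', r', h1', h2', h3'⟩
    refine ⟨g + g', r + r', by rw [h1, h1']; ring, ?_, ?_⟩
    · exact (degreeOf_add_le _ _ _).trans (max_le h2 h2')
    · exact (degreeOf_add_le _ _ _).trans (max_le h3 h3')
  · intro d hd
    have h1 := degreeOf_le_iff.1 hf d hd
    rcases Nat.lt_or_ge n (d (Sum.inr 0)) with h2 | h2
    · refine ⟨monomial (d.erase (Sum.inr 0)) (coeff d f), 0, ?_, ?_, by simp⟩
      · rw [add_zero, vy, X_pow_eq_monomial, monomial_mul, mul_one]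
        congr 1
        have h3 : d (Sum.inr 0) = n + 1 := by omega
        rw [← h3, Finsupp.erase_add_single]
      · refine (dg_mono _ _ _).trans ?_
        rw [Finsupp.erase_same]
    · refine ⟨0, monomial d (coeff d f), by ring, by simp, ?_⟩
      exact (dg_mono _ _ _).trans h2

/-- pseudo-division -/
theorem pdiv (a : MvPolynomial (Fin 3) ℂ) (b k : SA) (hk : k = inx a * vy 0 ^ 3 + b)
    (hb : degreeOf (Sum.inr 0) b ≤ 2) (f : SA) :
    ∃ (m : ℕ) (r : SA), degreeOf (Sum.inr 0) r ≤ 2 ∧ k ∣ inx a ^ m * f - r := by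
  have ha : ∀ m : ℕ, degreeOf (Sum.inr 0) (inx a ^ m) ≤ 0 := by
    intro m
    refine (degreeOf_pow_le _ _ _).trans ?_
    rw [dg_inx, mul_zero]
  induction f using MvPolynomial.induction_on with
  | C c => exact ⟨0, C c, by rw [degreeOf_C]; omega, by rw [pow_zero, one_mul, sub_self]; exact dvd_zero _⟩
  | add p q hp hq =>
    obtain ⟨m, r, hr, hd⟩ := hp
    obtain ⟨m', r', hr', hd'⟩ := hq
    refine ⟨m + m', inx a ^ m' * r + inx a ^ m * r', ?_, ?_⟩
    · refine (degreeOf_add_le _ _ _).trans (max_le ?_ ?_)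
      · refine (degreeOf_mul_le _ _ _).trans ?_
        have := ha m'
        omega
      · refine (degreeOf_mul_le _ _ _).trans ?_
        have := ha m
        omega
    · have : inx a ^ (m + m') * (p + q) - (inx a ^ m' * r + inx a ^ m * r') =
          inx a ^ m' * (inx a ^ m * p - r) + inx a ^ m * (inx a ^ m' * q - r') := by ring
      rw [this]
      exact dvd_add (hd.mul_left _) (hd'.mul_left _)
  | mul_X p i hp =>
    obtain ⟨m, r, hr, hd⟩ := hp
    by_cases hi : i = Sum.inr 0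
    · subst hi
      have h3 : degreeOf (Sum.inr 0) (r * X (Sum.inr 0)) ≤ 2 + 1 := by
        refine (degreeOf_mul_le _ _ _).trans ?_
        rw [degreeOf_X_self]
        omega
      obtain ⟨g, r', h4, h5, h6⟩ := dg_split 2 _ h3
      refine ⟨m + 1, inx a * r' - g * b, ?_, ?_⟩
      · refine (degreeOf_sub_le _ _ _).trans (max_le ?_ ?_)
        · refine (degreeOf_mul_le _ _ _).trans ?_
          rw [dg_inx]
          omega
        · refine (degreeOf_mul_le _ _ _).trans ?_
          omega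
      · have : inx a ^ (m + 1) * (p * X (Sum.inr 0)) - (inx a * r' - g * b) =
            inx a * X (Sum.inr 0) * (inx a ^ m * p - r) + g * k := by
          have h7 : inx a ^ (m + 1) * (p * X (Sum.inr 0)) - (inx a * r' - g * b) =
            inx a * X (Sum.inr 0) * (inx a ^ m * p - r) + inx a * (r * X (Sum.inr 0)) -
              (inx a * r' - g * b) := by ring
          rw [h7, h4, hk]
          ring
        rw [this]
        exact dvd_add (hd.mul_left _) (dvd_mul_left _ _)
    · refine ⟨m, r * X i, ?_, ?_⟩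
      · refine (degreeOf_mul_le _ _ _).trans ?_
        rw [degreeOf_X_of_ne (Ne.symm hi)]
        omega
      · have : inx a ^ m * (p * X i) - r * X i = X i * (inx a ^ m * p - r) := by ring
        rw [this]
        exact hd.mul_left _

/-- the restriction to the `j`-th coordinate vector `y = e j` -/
noncomputable def ev (j : Fin 3) : SA →ₐ[ℂ] MvPolynomial (Fin 3) ℂ :=
  aeval (Sum.elim X (Pi.single j 1))

theorem mono_eq (d : Fin 3 ⊕ Fin 3 →₀ ℕ) (c : ℂ) : (monomial d c : SA) =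
    C c * ((∏ i, X (Sum.inl i) ^ d (Sum.inl i)) * ∏ i, vy i ^ d (Sum.inr i)) := by
  rw [monomial_eq, Finsupp.prod_fintype _ _ (fun i => pow_zero _), Fintype.prod_sum_type]
  rfl

theorem ev_mono (j : Fin 3) (d : Fin 3 ⊕ Fin 3 →₀ ℕ) (c : ℂ) : ev j (monomial d c : SA) =
    C c * ((∏ i, X i ^ d (Sum.inl i)) *
      ∏ i, (Pi.single j 1 : Fin 3 → MvPolynomial (Fin 3) ℂ) i ^ d (Sum.inr i)) := by
  rw [mono_eq, map_mul, map_mul, map_prod, map_prod]
  congr 1
  · rw [ev, ← algebraMap_eq, AlgHom.commutes]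
    rfl
  · congr 1
    · refine Finset.prod_congr rfl fun i _ => ?_
      rw [map_pow, ev, aeval_X, Sum.elim_inl]
    · refine Finset.prod_congr rfl fun i _ => ?_
      rw [map_pow, vy, ev, aeval_X, Sum.elim_inr]

theorem inx_mono (c : ℂ) (e : Fin 3 → ℕ) : inx (C c * ∏ i, X i ^ e i) =
    C c * ∏ i, X (Sum.inl i) ^ e i := by
  rw [inx, map_mul, rename_C, map_prod]
  congr 1
  refine Finset.prod_congr rfl fun i _ => ?_
  rw [map_pow, rename_X]

theorem wt_eq (d : Fin 3 ⊕ Fin 3 →₀ ℕ) :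
    Finsupp.weight wty d = d (Sum.inr 0) + d (Sum.inr 1) + d (Sum.inr 2) := by
  rw [Finsupp.weight_apply, Finsupp.sum_fintype d (fun i c => c • wty i) (fun i => zero_smul ℕ (wty i)),
    Fintype.sum_sum_type, Fin.sum_univ_three, Fin.sum_univ_three]
  simp [wty]

theorem lead_dg (n : ℕ) (f : SA) (hf : IsWeightedHomogeneous wty f (n + 1)) :
    degreeOf (Sum.inr 0) (f - inx (ev 0 f) * vy 0 ^ (n + 1)) ≤ n := by
  induction hf using IsWeightedHomogeneous.induction_on with
  | zero =>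
    have : (0 : SA) - inx (ev 0 0) * vy 0 ^ (n + 1) = 0 := by simp [inx]
    rw [this, degreeOf_zero]
    exact Nat.zero_le _
  | add p q hp hq h1 h2 =>
    have : p + q - inx (ev 0 (p + q)) * vy 0 ^ (n + 1) =
      (p - inx (ev 0 p) * vy 0 ^ (n + 1)) + (q - inx (ev 0 q) * vy 0 ^ (n + 1)) := by
      simp only [inx, map_add]
      ring
    rw [this]
    exact (degreeOf_add_le _ _ _).trans (max_le h1 h2)
  | monomial d r hr =>
    rw [wt_eq] at hr
    by_cases h0 : d (Sum.inr 1) = 0 ∧ d (Sum.inr 2) = 0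
    · have h1 : inx (ev 0 (monomial d r)) * vy 0 ^ (n + 1) = monomial d r := by
        rw [ev_mono, Fin.prod_univ_three (fun i => (Pi.single 0 1 : Fin 3 → MvPolynomial (Fin 3) ℂ) i
          ^ d (Sum.inr i)), h0.1, h0.2]
        simp only [Pi.single_eq_same, one_pow, pow_zero, mul_one]
        rw [inx_mono, mono_eq, Fin.prod_univ_three (fun i => vy i ^ d (Sum.inr i)), h0.1, h0.2]
        have h2 : d (Sum.inr 0) = n + 1 := by omega
        rw [h2]
        ring
      rw [h1, sub_self, degreeOf_zero]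
      exact Nat.zero_le _
    · have h1 : ev 0 (monomial d r) = 0 := by
        rw [ev_mono, Fin.prod_univ_three (fun i => (Pi.single 0 1 : Fin 3 → MvPolynomial (Fin 3) ℂ) i
          ^ d (Sum.inr i))]
        have h2 : (Pi.single (0 : Fin 3) 1 : Fin 3 → MvPolynomial (Fin 3) ℂ) 1 = 0 := by simp
        have h3 : (Pi.single (0 : Fin 3) 1 : Fin 3 → MvPolynomial (Fin 3) ℂ) 2 = 0 := by simp
        rw [h2, h3]
        rcases Nat.eq_zero_or_pos (d (Sum.inr 1)) with h4 | h4
        · have h5 : d (Sum.inr 2) ≠ 0 := fun h5 => h0 ⟨h4, h5⟩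
          rw [zero_pow h5]
          ring
        · rw [zero_pow h4.ne']
          ring
      rw [h1]
      have h2 : (monomial d r : SA) - inx 0 * vy 0 ^ (n + 1) = monomial d r := by simp [inx]
      rw [h2]
      refine (dg_mono _ _ _).trans ?_
      omega

theorem wt_one (f : SA) (hf : IsWeightedHomogeneous wty f 1) :
    f = ∑ j, inx (ev j f) * vy j := by
  induction hf using IsWeightedHomogeneous.induction_on with
  | zero => simp [inx]
  | add p q hp hq h1 h2 =>
    simp only [map_add, inx, add_mul, Finset.sum_add_distrib] at h1 h2 ⊢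
    rw [← h1, ← h2]
  | monomial d r hr =>
    rw [wt_eq] at hr
    have key : ∀ j, inx (ev j (monomial d r)) * vy j = if d (Sum.inr j) = 1 then monomial d r
        else 0 := by
      intro j
      rw [ev_mono, mono_eq]
      have hj : (d (Sum.inr 0) = 1 ∧ d (Sum.inr 1) = 0 ∧ d (Sum.inr 2) = 0) ∨
        (d (Sum.inr 0) = 0 ∧ d (Sum.inr 1) = 1 ∧ d (Sum.inr 2) = 0) ∨
        (d (Sum.inr 0) = 0 ∧ d (Sum.inr 1) = 0 ∧ d (Sum.inr 2) = 1) := by omega
      rw [Fin.prod_univ_three (fun i => (Pi.single j 1 : Fin 3 → MvPolynomial (Fin 3) ℂ) i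
          ^ d (Sum.inr i)), Fin.prod_univ_three (fun i => vy i ^ d (Sum.inr i))]
      fin_cases j <;> rcases hj with ⟨h0, h1, h2⟩ | ⟨h0, h1, h2⟩ | ⟨h0, h1, h2⟩ <;>
        simp [h0, h1, h2, inx, map_prod] <;> ring
    have hj : (d (Sum.inr 0) = 1 ∧ d (Sum.inr 1) = 0 ∧ d (Sum.inr 2) = 0) ∨
        (d (Sum.inr 0) = 0 ∧ d (Sum.inr 1) = 1 ∧ d (Sum.inr 2) = 0) ∨
        (d (Sum.inr 0) = 0 ∧ d (Sum.inr 1) = 0 ∧ d (Sum.inr 2) = 1) := by omega
    rw [Fin.sum_univ_three, key, key, key]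
    rcases hj with ⟨h0, h1, h2⟩ | ⟨h0, h1, h2⟩ | ⟨h0, h1, h2⟩ <;> simp [h0, h1, h2]

theorem comp_mul (f : SA) (n m m' : ℕ) (hf : IsWeightedHomogeneous wty f n) (hm : m' + n = m)
    (q : SA) : weightedHomogeneousComponent wty m (q * f) =
      weightedHomogeneousComponent wty m' q * f := by
  refine sumInd (P := fun q => weightedHomogeneousComponent wty m (q * f) =
      weightedHomogeneousComponent wty m' q * f) ?_ ?_ q ?_
  · simp
  · intro a b ha hb
    rw [add_mul, map_add, map_add, ha, hb, add_mul]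
  · intro d _
    have h1 := isWeightedHomogeneous_monomial wty d (coeff d q) rfl
    rw [weightedHomogeneousComponent_of_mem (h1.mul hf), weightedHomogeneousComponent_of_mem h1]
    by_cases h2 : m' = Finsupp.weight wty d
    · rw [if_pos h2, if_pos (by omega)]
    · rw [if_neg h2, if_neg (by omega), zero_mul]

theorem comp_dvd (f : SA) (n m : ℕ) (hf : IsWeightedHomogeneous wty f n) (q : SA) :
    f ∣ weightedHomogeneousComponent wty m (q * f) := by
  refine sumInd (P := fun q => f ∣ weightedHomogeneousComponent wty m (q * f)) ?_ ?_ q ?_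
  · simp
  · intro a b ha hb
    rw [add_mul, map_add]
    exact dvd_add ha hb
  · intro d _
    have h1 := isWeightedHomogeneous_monomial wty d (coeff d q) rfl
    rw [weightedHomogeneousComponent_of_mem (h1.mul hf)]
    split_ifs
    · exact dvd_mul_left _ _
    · exact dvd_zero _

theorem inx_inj : Function.Injective inx := rename_injective _ Sum.inl_injective

theorem wt_inx (c : MvPolynomial (Fin 3) ℂ) : IsWeightedHomogeneous wty (inx c) 0 := by
  induction c using MvPolynomial.induction_on with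
  | C a => rw [inx, rename_C]; exact isWeightedHomogeneous_C _ _
  | add p q hp hq => rw [inx, map_add]; exact hp.add hq
  | mul_X p i hp =>
    rw [inx, map_mul, rename_X]
    exact hp.mul (isWeightedHomogeneous_X ℂ wty (Sum.inl i))

theorem t_N2 (h1 : S_KAPH) : S_N2 := by
  intro K hK hp e A B hB hA hBe N s hs hh
  have hkh : IsWeightedHomogeneous wty (kap K) 3 := h1 3 K hK.hom
  obtain ⟨x, hx⟩ := hK.lead 0
  have hev : eval x (ev 0 (kap K)) = eval (pt x (Pi.single 0 1)) (kap K) := by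
    have h2 : (aeval x : MvPolynomial (Fin 3) ℂ →ₐ[ℂ] ℂ).comp (ev 0) =
        (aeval (pt x (Pi.single 0 1)) : SA →ₐ[ℂ] ℂ) := by
      ext i
      rcases i with i | i
      · simp [ev, pt]
      · simp only [AlgHom.comp_apply, ev, aeval_X, Sum.elim_inr, pt]
        by_cases hi : i = 0
        · subst hi; simp
        · simp [hi]
    have h3 := DFunLike.congr_fun h2 (kap K)
    exact h3
  have ha0 : ev 0 (kap K) ≠ 0 := by
    intro h0
    rw [h0, map_zero] at hev
    exact hx hev.symm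
  have hinx : inx (ev 0 (kap K)) ≠ 0 := by
    intro h0
    apply ha0
    apply inx_inj
    rw [h0, inx, map_zero]
  have hb := lead_dg 2 (kap K) hkh
  obtain ⟨b, hbdef⟩ : ∃ b, b = kap K - inx (ev 0 (kap K)) * vy 0 ^ 3 := ⟨_, rfl⟩
  rw [← hbdef] at hb
  have hk : kap K = inx (ev 0 (kap K)) * vy 0 ^ 3 + b := by rw [hbdef]; ring
  have hvy0 : (vy 0 : SA) ≠ 0 := X_ne_zero _
  have hdgk : 3 ≤ degreeOf (Sum.inr 0) (kap K) := by
    by_contra hlt
    push Not at hlt
    have h2 : degreeOf (Sum.inr 0) (inx (ev 0 (kap K)) * vy 0 ^ 3) = 3 := by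
      rw [degreeOf_mul_eq hinx (pow_ne_zero _ hvy0), dg_inx, vy, degreeOf_X_self_pow]
    have h3 : inx (ev 0 (kap K)) * vy 0 ^ 3 = kap K - b := by rw [hbdef]; ring
    have h4 := degreeOf_sub_le (Sum.inr 0) (kap K) b
    rw [← h3, h2] at h4
    have h5 : max (degreeOf (Sum.inr 0) (kap K)) (degreeOf (Sum.inr 0) b) ≤ 2 :=
      max_le (by omega) hb
    omega
  have hzero : ∀ f : SA, degreeOf (Sum.inr 0) f ≤ 2 → kap K ∣ f → f = 0 := by
    rintro f hf ⟨q, rfl⟩
    by_contra hne
    have hq : q ≠ 0 := fun h => hne (by rw [h, mul_zero])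
    rw [degreeOf_mul_eq hp.ne_zero hq] at hf
    omega
  obtain ⟨g1, -, hg1⟩ := hh 1
  obtain ⟨g2, -, hg2⟩ := hh 2
  -- the two quotients are compatible
  have hcomp : kap K ∣ vy 2 ^ N * g1 - vy 1 ^ N * g2 := by
    have h2 : kap K ∣ (vy 2 ^ N * g1 - vy 1 ^ N * g2) * B := by
      have h3 := dvd_sub (hg2.mul_left (vy 1 ^ N)) (hg1.mul_left (vy 2 ^ N))
      have h4 : vy 1 ^ N * ((inx s * vy 2) ^ N * A - g2 * B) -
          vy 2 ^ N * ((inx s * vy 1) ^ N * A - g1 * B) = (vy 2 ^ N * g1 - vy 1 ^ N * g2) * B := by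
        rw [mul_pow, mul_pow]; ring
      rwa [h4] at h3
    exact (hp.dvd_or_dvd h2).resolve_right hB
  obtain ⟨m1, r1, hr1, hd1⟩ := pdiv _ b (kap K) hk hb g1
  obtain ⟨m2, r2, hr2, hd2⟩ := pdiv _ b (kap K) hk hb g2
  set a := ev 0 (kap K) with ha
  have hap : ∀ m : ℕ, degreeOf (Sum.inr 0) (inx a ^ m) ≤ 0 := by
    intro m
    refine (degreeOf_pow_le _ _ _).trans ?_
    rw [dg_inx, mul_zero]
  have hvp : ∀ j : Fin 3, j ≠ 0 → ∀ m : ℕ, degreeOf (Sum.inr 0) (vy j ^ m) ≤ 0 := by
    intro j hj m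
    rw [vy, degreeOf_X_pow_of_ne m (fun h => hj (Sum.inr_injective h).symm)]
  have heq : vy 2 ^ N * (inx a ^ m2 * r1) = vy 1 ^ N * (inx a ^ m1 * r2) := by
    rw [← sub_eq_zero]
    apply hzero
    · refine (degreeOf_sub_le _ _ _).trans (max_le ?_ ?_)
      · have h2 := degreeOf_mul_le (Sum.inr 0) (vy 2 ^ N) (inx a ^ m2 * r1)
        have h3 := degreeOf_mul_le (Sum.inr 0) (inx a ^ m2) r1
        have h4 := hap m2
        have h5 := hvp 2 (by decide) N
        omega
      · have h2 := degreeOf_mul_le (Sum.inr 0) (vy 1 ^ N) (inx a ^ m1 * r2)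
        have h3 := degreeOf_mul_le (Sum.inr 0) (inx a ^ m1) r2
        have h4 := hap m1
        have h5 := hvp 1 (by decide) N
        omega
    · have h2 : vy 2 ^ N * (inx a ^ m2 * r1) - vy 1 ^ N * (inx a ^ m1 * r2) =
          inx a ^ (m1 + m2) * (vy 2 ^ N * g1 - vy 1 ^ N * g2) -
          vy 2 ^ N * inx a ^ m2 * (inx a ^ m1 * g1 - r1) +
          vy 1 ^ N * inx a ^ m1 * (inx a ^ m2 * g2 - r2) := by ring
      rw [h2]
      exact dvd_add (dvd_sub (hcomp.mul_left _) (hd1.mul_left _)) (hd2.mul_left _)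
  have hp1 : Prime (vy 1) := X_prime
  have hn12 : ¬ vy 1 ∣ vy 2 ^ N := by
    intro h2
    obtain ⟨q, hq⟩ := hp1.dvd_of_dvd_pow h2
    have h3 := congrArg (eval (Sum.elim 0 (Pi.single 2 1) : Fin 3 ⊕ Fin 3 → ℂ)) hq
    simp [vy] at h3
  obtain ⟨r, hr⟩ : vy 1 ^ N ∣ inx a ^ m2 * r1 :=
    hp1.pow_dvd_of_dvd_mul_left N hn12 ⟨inx a ^ m1 * r2, heq⟩
  have hfin : kap K ∣ inx (s ^ N * a ^ (m1 + m2)) * A - r * B := by
    have h2 : kap K ∣ vy 1 ^ N * (inx (s ^ N * a ^ (m1 + m2)) * A - r * B) := by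
      have h3 : vy 1 ^ N * (inx (s ^ N * a ^ (m1 + m2)) * A - r * B) =
          inx a ^ (m1 + m2) * ((inx s * vy 1) ^ N * A - g1 * B) +
            inx a ^ m2 * B * (inx a ^ m1 * g1 - r1) := by
        have h4 : inx (s ^ N * a ^ (m1 + m2)) = inx s ^ N * inx a ^ (m1 + m2) := by
          simp only [inx, map_mul, map_pow]
        have h5 : vy 1 ^ N * (inx (s ^ N * a ^ (m1 + m2)) * A - r * B) =
          vy 1 ^ N * inx (s ^ N * a ^ (m1 + m2)) * A - (vy 1 ^ N * r) * B := by ring
        rw [h5, ← hr, h4, mul_pow]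
        ring
      rw [h3]
      exact dvd_add (hg1.mul_left _) (hd1.mul_left _)
    refine (hp.dvd_or_dvd h2).resolve_left fun h3 => ?_
    have h4 := hzero _ (((hvp 1 (by decide) N)).trans (Nat.zero_le _)) h3
    exact pow_ne_zero N hp1.ne_zero h4
  refine ⟨s ^ N * a ^ (m1 + m2), fun j => ev j (weightedHomogeneousComponent wty 1 r),
    mul_ne_zero (pow_ne_zero _ hs) (pow_ne_zero _ ha0), ?_⟩
  rw [← wt_one _ (weightedHomogeneousComponent_isWeightedHomogeneous 1 r)]
  obtain ⟨q, hq⟩ := hfin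
  have h2 := comp_dvd (kap K) 3 (e + 1) hkh q
  rw [mul_comm q, ← hq, map_sub, comp_mul B e (e + 1) 1 hBe (by omega)] at h2
  have h3 : IsWeightedHomogeneous wty (inx (s ^ N * a ^ (m1 + m2)) * A) (e + 1) := by
    have := (wt_inx (s ^ N * a ^ (m1 + m2))).mul hA
    rwa [zero_add] at this
  rwa [h3.weightedHomogeneousComponent_same] at h2

end Pool.Agent.H892.ZL.WN2
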