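import Mathlib
import Pool.Agent.H892.ZL.Stm

set_option autoImplicit false

/-!
# ZL-N3: the quotient is constant along the lines
-/

namespace Pool.Agent.H892.ZL.WN3

open Pool.Agent.H892.ZL
open MvPolynomial

/-- `nab` as a derivation -/
noncomputable def nabD : Derivation ℂ SA SA := ∑ i : Fin 3, vy i • pderiv (Sum.inl i)

theorem nabD_apply (A : SA) : nabD A = nab A := by
  unfold nabD nab
  rw [Fin.sum_univ_three, Fin.sum_univ_three]
  rfl

theorem nab_mul (A B : SA) : nab (A * B) = A * nab B + nab A * B := by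
  rw [← nabD_apply, ← nabD_apply, ← nabD_apply, Derivation.leibniz, smul_eq_mul, smul_eq_mul,
    mul_comm B]

theorem nab_sub (A B : SA) : nab (A - B) = nab A - nab B := by
  rw [← nabD_apply, ← nabD_apply, ← nabD_apply, map_sub]

theorem nab_add (A B : SA) : nab (A + B) = nab A + nab B := by
  rw [← nabD_apply, ← nabD_apply, ← nabD_apply, map_add]

theorem nab_X (j : Fin 3) : nab (X (Sum.inl j)) = vy j := by
  unfold nab
  rw [Finset.sum_eq_single j]
  · rw [pderiv_X_self, mul_one]
  · intro b _ hb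
    rw [pderiv_X_of_ne (fun h => hb (Sum.inl_injective h).symm), mul_zero]
  · intro h
    exact absurd (Finset.mem_univ _) h

theorem nab_Y (j : Fin 3) : nab (X (Sum.inr j)) = 0 := by
  unfold nab
  refine Finset.sum_eq_zero fun i _ => ?_
  rw [pderiv_X_of_ne (by simp), mul_zero]

theorem nab_C (c : ℂ) : nab (C c) = 0 := by
  unfold nab
  refine Finset.sum_eq_zero fun i _ => ?_
  rw [pderiv_C, mul_zero]

theorem nab_zero : nab (0 : SA) = 0 := by
  rw [← nabD_apply, map_zero]

theorem nab_one : nab (1 : SA) = 0 := by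
  rw [← C_1]
  exact nab_C 1

theorem nab_gp (I : Fin 6) : nab (gp I) = 0 := by
  fin_cases I <;>
    simp only [gp, aff, plu, Fin.zero_eta, Fin.mk_one, Fin.reduceFinMk, Matrix.cons_val_zero,
      Matrix.cons_val_one, Matrix.cons_val, nab_sub, nab_mul, nab_X, nab_Y, nab_zero, nab_one, vy] <;>
    ring

theorem nab_aeval (A : MvPolynomial (Fin 6) ℂ) : nab (aeval gp A) = 0 := by
  induction A using MvPolynomial.induction_on with
  | C a =>
    rw [aeval_C]
    exact nab_C a
  | add p q hp hq => rw [map_add, nab_add, hp, hq, add_zero]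
  | mul_X p i hp => rw [map_mul, aeval_X, nab_mul, hp, nab_gp, mul_zero, zero_mul, add_zero]

theorem hom_inx (s : MvPolynomial (Fin 3) ℂ) : IsWeightedHomogeneous wty (inx s) 0 := by
  intro d hd
  obtain ⟨u, rfl, _⟩ := coeff_rename_ne_zero _ _ _ hd
  rw [Finsupp.weight_apply, Finsupp.sum_mapDomain_index]
  · simp [wty]
  · intro b
    exact zero_smul _ _
  · intro b m n
    exact add_smul _ _ _

theorem hom_vy (j : Fin 3) : IsWeightedHomogeneous wty (vy j) 1 := isWeightedHomogeneous_X ℂ wty _

theorem hom_nab {A : SA} {n : ℕ} (hA : IsWeightedHomogeneous wty A n) :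
    IsWeightedHomogeneous wty (nab A) (n + 1) := by
  unfold nab
  refine IsWeightedHomogeneous.sum _ _ _ fun i _ => ?_
  have h1 : IsWeightedHomogeneous wty (pderiv (Sum.inl i) A) n :=
    hA.pderiv (by simp [wty])
  have h2 := (hom_vy i).mul h1
  rw [add_comm] at h2
  exact h2

/-- a weighted homogeneous multiple of small degree is zero -/
theorem mul_eq_zero_of_small {k q D : SA} {m n : ℕ} (hk : IsWeightedHomogeneous wty k m)
    (hD : IsWeightedHomogeneous wty D n) (hmn : n < m) (h : D = k * q) : D = 0 := by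
  ext d
  rw [coeff_zero]
  by_contra hne
  have h1 := hD hne
  rw [h, coeff_mul] at hne
  obtain ⟨x, hx, hx0⟩ := Finset.exists_ne_zero_of_sum_ne_zero hne
  rw [Finset.HasAntidiagonal.mem_antidiagonal] at hx
  have h2 := hk (left_ne_zero_of_mul hx0)
  rw [← hx, map_add, h2] at h1
  omega

theorem t_N3 (h1 : S_KAPH) : S_N3 := by
  intro K hK hp A₁ B₁ hB c r hdiv
  set rr : SA := ∑ j, inx (r j) * vy j with hrr
  obtain ⟨q, hq⟩ := hdiv
  have hnk : nab (kap K) = 0 := nab_aeval K
  have e1 : nab (inx c) * aeval gp A₁ - nab rr * aeval gp B₁ = kap K * nab q := by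
    have h2 := congrArg nab hq
    rw [nab_sub, nab_mul, nab_mul, nab_mul, nab_aeval, nab_aeval, hnk] at h2
    linear_combination h2
  have e2 : kap K ∣ (inx c * nab rr - nab (inx c) * rr) * aeval gp B₁ :=
    ⟨nab (inx c) * q - inx c * nab q, by linear_combination (nab (inx c)) * hq - (inx c) * e1⟩
  obtain ⟨q', hq'⟩ := (hp.dvd_or_dvd e2).resolve_right hB
  have hrrh : IsWeightedHomogeneous wty rr 1 := by
    rw [hrr]
    refine IsWeightedHomogeneous.sum _ _ _ fun j _ => ?_
    have := (hom_inx (r j)).mul (hom_vy j)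
    rwa [zero_add] at this
  have hD : IsWeightedHomogeneous wty (inx c * nab rr - nab (inx c) * rr) 2 := by
    have h3 := (hom_inx c).mul (hom_nab hrrh)
    have h4 := (hom_nab (hom_inx c)).mul hrrh
    exact (weightedHomogeneousSubmodule ℂ wty 2).sub_mem h3 h4
  have h5 := mul_eq_zero_of_small (h1 3 K hK.hom) hD (by norm_num) hq'
  exact sub_eq_zero.1 h5

end Pool.Agent.H892.ZL.WN3
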