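import Mathlib
import Pool.Agent.H892.ZL.Stm2

set_option autoImplicit false

/-!
# The two cones are not isomorphic (helper549): assembly
-/

namespace Pool.Agent.H892.ZL.WNOCISO

open Pool.Agent.H892.ZL
open MvPolynomial Matrix

/-- brackets of integral vectors -/
theorem brk_cast (P : Fin 8 → Fin 4 → ℤ) (i j k l : Fin 8) :
    brk (fun i j => ((P i j : ℤ) : ℂ)) i j k l = ((brk P i j k l : ℤ) : ℂ) := by
  unfold brk
  refine Eq.trans ?_ (RingHom.map_det (Int.castRingHom ℂ) (Matrix.of ![P i, P j, P k, P l])).symm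
  refine congrArg Matrix.det ?_
  ext a b
  fin_cases a <;> rfl

theorem brkA (i j k l : Fin 8) : brk PA i j k l = ((brk PAi i j k l : ℤ) : ℂ) := brk_cast PAi i j k l

theorem brkB (i j k l : Fin 8) : brk PB i j k l = ((brk PBi i j k l : ℤ) : ℂ) := brk_cast PBi i j k l

theorem two_more : ∀ i j : Fin 8, i ≠ j → ∃ k l : Fin 8, i ≠ k ∧ i ≠ l ∧ j ≠ k ∧ j ≠ l ∧ k ≠ l := by
  decide

/-- two of the points are independent -/
theorem indep {P : Fin 8 → Fin 4 → ℂ}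
    (hP : ∀ i j k l : Fin 8, i ≠ j → i ≠ k → i ≠ l → j ≠ k → j ≠ l → k ≠ l → brk P i j k l ≠ 0)
    {i j : Fin 8} (hij : i ≠ j) : LinearIndependent ℂ ![P i, P j] := by
  obtain ⟨k, l, h1, h2, h3, h4, h5⟩ := two_more i j hij
  have h6 := hP i j k l hij h1 h2 h3 h4 h5
  unfold brk at h6
  have h7 : LinearIndependent ℂ (fun a => (Matrix.of ![P i, P j, P k, P l]) a) :=
    Matrix.linearIndependent_rows_of_det_ne_zero h6
  have h8 := h7.comp (![0, 1] : Fin 2 → Fin 4) (by decide)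
  have h9 : (fun a => (Matrix.of ![P i, P j, P k, P l]) a) ∘ (![0, 1] : Fin 2 → Fin 4) =
      ![P i, P j] := by
    funext a
    fin_cases a <;> rfl
  rw [h9] at h8
  exact h8

theorem plu_smul (a b : ℂ) (x y : Fin 4 → ℂ) : plu (a • x) (b • y) = (a * b) • plu x y := by
  funext i
  fin_cases i <;> simp [plu] <;> ring

theorem plu_rel (x y : Fin 4 → ℂ) :
    plu x y 0 * plu x y 5 - plu x y 1 * plu x y 4 + plu x y 2 * plu x y 3 = 0 := by
  simp [plu]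
  ring

/-- the points are in the chart -/
theorem chart {x y : Fin 4 → ℂ} (hxy : LinearIndependent ℂ ![x, y]) (hx : x 3 ≠ 0) :
    plu x y 2 ≠ 0 ∨ plu x y 4 ≠ 0 ∨ plu x y 5 ≠ 0 := by
  by_contra hc
  push Not at hc
  obtain ⟨e2, e4, e5⟩ := hc
  have h2 : x 0 * y 3 - x 3 * y 0 = 0 := e2
  have h4 : x 1 * y 3 - x 3 * y 1 = 0 := e4
  have h5 : x 2 * y 3 - x 3 * y 2 = 0 := e5
  have h6 : (y 3) • x + (-(x 3)) • y = 0 := by
    funext i
    fin_cases i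
    · change y 3 * x 0 + -(x 3) * y 0 = 0
      linear_combination h2
    · change y 3 * x 1 + -(x 3) * y 1 = 0
      linear_combination h4
    · change y 3 * x 2 + -(x 3) * y 2 = 0
      linear_combination h5
    · change y 3 * x 3 + -(x 3) * y 3 = 0
      ring
  have h7 := (LinearIndependent.pair_iff.mp hxy) _ _ h6
  exact hx (neg_eq_zero.mp h7.2)

theorem symmA : ∀ k, (QA k).IsSymm := by
  intro k
  ext i j
  change ((QAi k j i : ℤ) : ℂ) = ((QAi k i j : ℤ) : ℂ)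
  have h : QAi k j i = QAi k i j := by
    revert k i j
    decide
  rw [h]

theorem symmB : ∀ k, (QB k).IsSymm := by
  intro k
  ext i j
  change ((QBi k j i : ℤ) : ℂ) = ((QBi k i j : ℤ) : ℂ)
  have h : QBi k j i = QBi k i j := by
    revert k i j
    decide
  rw [h]

/-- the matrix `NN` of integral data -/
theorem NN_cast (Q : Fin 3 → Matrix (Fin 4) (Fin 4) ℤ) (x y : Fin 4 → ℤ) :
    NN (fun k => (Q k).map (Int.cast : ℤ → ℂ)) (fun i => (x i : ℂ)) (fun i => (y i : ℂ)) =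
      (NN Q x y).map (Int.cast : ℤ → ℂ) := by
  have hb : ∀ (A : Matrix (Fin 4) (Fin 4) ℤ) (u v : Fin 4 → ℤ),
      bf (A.map (Int.cast : ℤ → ℂ)) (fun i => (u i : ℂ)) (fun i => (v i : ℂ)) =
        ((bf A u v : ℤ) : ℂ) := by
    intro A u v
    unfold bf
    simp only [dotProduct, mulVec, Matrix.map_apply]
    push_cast
    rfl
  ext k c
  change (![bf _ _ _, bf _ _ _, bf _ _ _] : Fin 3 → ℂ) c =
    (((![bf (Q k) x x, bf (Q k) x y, bf (Q k) y y] : Fin 3 → ℤ) c : ℤ) : ℂ)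
  rw [hb, hb, hb]
  fin_cases c <;> rfl

theorem NN_det_cast (Q : Fin 3 → Matrix (Fin 4) (Fin 4) ℤ) (x y : Fin 4 → ℤ)
    (h : (NN Q x y).det ≠ 0) :
    (NN (fun k => (Q k).map (Int.cast : ℤ → ℂ)) (fun i => (x i : ℂ)) (fun i => (y i : ℂ))).det
      ≠ 0 := by
  rw [NN_cast]
  have e : ((NN Q x y).map (Int.cast : ℤ → ℂ)).det = (((NN Q x y).det : ℤ) : ℂ) :=
    (RingHom.map_det (Int.castRingHom ℂ) (NN Q x y)).symm
  rw [e]
  exact_mod_cast h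

/-- the coordinate directions are general -/
theorem lead_of (Qi : Fin 3 → Matrix (Fin 4) (Fin 4) ℤ)
    (h : ∀ j : Fin 3, ∃ x : Fin 3 → ℤ, (NN Qi ![x 0, x 1, x 2, 1]
      ![(Pi.single j 1 : Fin 3 → ℤ) 0, (Pi.single j 1 : Fin 3 → ℤ) 1,
        (Pi.single j 1 : Fin 3 → ℤ) 2, 0]).det ≠ 0) (j : Fin 3) :
    ∃ x : Fin 3 → ℂ, (NN (fun k => (Qi k).map (Int.cast : ℤ → ℂ)) ![x 0, x 1, x 2, 1]
      ![(Pi.single j 1 : Fin 3 → ℂ) 0, (Pi.single j 1 : Fin 3 → ℂ) 1,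
        (Pi.single j 1 : Fin 3 → ℂ) 2, 0]).det ≠ 0 := by
  obtain ⟨x, hx⟩ := h j
  refine ⟨fun i => (x i : ℂ), ?_⟩
  have h1 := NN_det_cast Qi _ _ hx
  have e1 : (fun i => (((![x 0, x 1, x 2, 1] : Fin 4 → ℤ) i : ℤ) : ℂ)) =
      ![(x 0 : ℂ), (x 1 : ℂ), (x 2 : ℂ), 1] := by
    funext i
    fin_cases i <;> simp
  have hs : ∀ a : Fin 3, (((Pi.single j 1 : Fin 3 → ℤ) a : ℤ) : ℂ) =
      (Pi.single j 1 : Fin 3 → ℂ) a := by
    intro a
    by_cases ha : a = j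
    · subst ha
      simp
    · simp [Pi.single_eq_of_ne ha]
  have e2 : (fun i => (((![(Pi.single j 1 : Fin 3 → ℤ) 0, (Pi.single j 1 : Fin 3 → ℤ) 1,
        (Pi.single j 1 : Fin 3 → ℤ) 2, 0] : Fin 4 → ℤ) i : ℤ) : ℂ)) =
      ![(Pi.single j 1 : Fin 3 → ℂ) 0, (Pi.single j 1 : Fin 3 → ℂ) 1,
        (Pi.single j 1 : Fin 3 → ℂ) 2, 0] := by
    funext i
    fin_cases i
    · exact hs 0
    · exact hs 1
    · exact hs 2
    · exact Int.cast_zero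
  rw [e1, e2] at h1
  exact h1

theorem leadA : ∀ j : Fin 3, ∃ x : Fin 3 → ℤ, (NN QAi ![x 0, x 1, x 2, 1]
      ![(Pi.single j 1 : Fin 3 → ℤ) 0, (Pi.single j 1 : Fin 3 → ℤ) 1,
        (Pi.single j 1 : Fin 3 → ℤ) 2, 0]).det ≠ 0 := by
  intro j
  fin_cases j
  · exact ⟨![0, 0, -1], by rw [Matrix.det_fin_three]; decide⟩
  · exact ⟨![0, 0, -1], by rw [Matrix.det_fin_three]; decide⟩
  · exact ⟨![0, -1, 0], by rw [Matrix.det_fin_three]; decide⟩

theorem leadB : ∀ j : Fin 3, ∃ x : Fin 3 → ℤ, (NN QBi ![x 0, x 1, x 2, 1]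
      ![(Pi.single j 1 : Fin 3 → ℤ) 0, (Pi.single j 1 : Fin 3 → ℤ) 1,
        (Pi.single j 1 : Fin 3 → ℤ) 2, 0]).det ≠ 0 := by
  intro j
  fin_cases j
  · exact ⟨![0, 0, -1], by rw [Matrix.det_fin_three]; decide⟩
  · exact ⟨![0, 0, -1], by rw [Matrix.det_fin_three]; decide⟩
  · exact ⟨![0, -1, 0], by rw [Matrix.det_fin_three]; decide⟩

theorem lastA (i : Fin 8) : PA i 3 ≠ 0 := by
  have h : ∀ i, PAi i 3 ≠ 0 := by decide
  change ((PAi i 3 : ℤ) : ℂ) ≠ 0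
  exact_mod_cast h i

/-- regularity -/
theorem reg_of (h6 : S_DISC) (h8 : S_SMOOTH) {Q : Fin 3 → Matrix (Fin 4) (Fin 4) ℂ}
    (hs : ∀ k, (Q k).IsSymm) (hQ : disc Q = C 49 * DD) : RegA Q ∧ RegB Q := by
  refine h6 Q hs fun l hl _ => ?_
  obtain ⟨k, hk⟩ := h8 l hl
  refine ⟨k, ?_⟩
  rw [hQ, pderiv_C_mul, map_mul, eval_C]
  exact mul_ne_zero (by norm_num) hk

theorem t_NOCISO (h1 : S_LIN) (h2 : S_TSING) (h3 : S_SING) (h4 : S_SINGREV) (h5 : S_GOOD)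
    (h6 : S_DISC) (h7 : S_DISCAB) (h8 : S_SMOOTH) (h9 : S_BASEA) (h10 : S_BASEB) (h11 : S_BRK)
    (h12 : S_PAIRS) (h13 : S_CR) (h14 : S_CRA) (h15 : S_DECA) : S_NOCISO := by
  rintro ⟨Φ, Ψ, hΦ⟩
  have rA := reg_of h6 h8 symmA h7.1
  have rB := reg_of h6 h8 symmB h7.2
  have gA : Good (NetK QA) := h5 QA symmA rA.1 rA.2 PA
    (fun e he hq => by
      obtain ⟨i, c, -, hc⟩ := (h9 e).mp ⟨he, hq⟩
      exact ⟨i, c, hc⟩) (lead_of QAi leadA)
  have gB : Good (NetK QB) := h5 QB symmB rB.1 rB.2 PB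
    (fun e he hq => by
      obtain ⟨i, c, -, hc⟩ := (h10 e).mp ⟨he, hq⟩
      exact ⟨i, c, hc⟩) (lead_of QBi leadB)
  have bA : ∀ i j k l : Fin 8, i ≠ j → i ≠ k → i ≠ l → j ≠ k → j ≠ l → k ≠ l →
      brk PA i j k l ≠ 0 := by
    intro i j k l a b c d e f
    rw [brkA]
    exact_mod_cast h11.1 i j k l a b c d e f
  have bB : ∀ i j k l : Fin 8, i ≠ j → i ≠ k → i ≠ l → j ≠ k → j ≠ l → k ≠ l →
      brk PB i j k l ≠ 0 := by
    intro i j k l a b c d e f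
    rw [brkB]
    exact_mod_cast h11.2 i j k l a b c d e f
  obtain ⟨T, c, c', hT, hc, hc', hG, hK⟩ := h1 _ _ Φ Ψ gA gB hΦ
  have qA : ∀ i k, qf (QA k) (PA i) = 0 := by
    intro i
    exact ((h9 (PA i)).mpr ⟨i, 1, one_ne_zero, (one_smul ℂ (PA i)).symm⟩).2
  have hpairs : ∀ i j, i ≠ j → ∃ (k l : Fin 8) (t : ℂ), k ≠ l ∧
      T *ᵥ plu (PA i) (PA j) = t • plu (PB k) (PB l) := by
    intro i j hij
    have i1 := indep bA hij
    obtain ⟨s1, s2⟩ := h4 QA symmA (PA i) (PA j) (qA i) (qA j) i1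
    obtain ⟨x, y, hy, hxy⟩ := h15 ℂ (plu (PA i) (PA j)) (chart i1 (lastA i)) (plu_rel _ _)
    rw [hxy] at s1 s2
    obtain ⟨s3, s4⟩ := h2 (NetK QA) (NetK QB) T c c' gA.hom gB.hom hT hc hc' hG hK x y hy s1 s2
    obtain ⟨x', y', qx, qy, i2, e2⟩ := h3 QB symmB rB.1 rB.2 _ s3 s4
    have x0 : x' ≠ 0 := i2.ne_zero 0
    have y0 : y' ≠ 0 := i2.ne_zero 1
    obtain ⟨k, a, ha, hxa⟩ := (h10 x').mp ⟨x0, qx⟩
    obtain ⟨l, b, hb, hyb⟩ := (h10 y').mp ⟨y0, qy⟩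
    refine ⟨k, l, a * b, ?_, ?_⟩
    · rintro rfl
      have h : b • x' + (-a) • y' = 0 := by
        rw [hxa, hyb, smul_smul, smul_smul, ← add_smul]
        have e : b * a + -a * b = 0 := by ring
        rw [e, zero_smul]
      have h' := (LinearIndependent.pair_iff.mp i2) _ _ h
      exact hb h'.1
    · rw [hxy, e2, hxa, hyb, plu_smul]
  obtain ⟨σ, hσ⟩ := h12 PA PB T c' hT hc' hG bA bB hpairs
  have h16 := hσ 0 4 1 2 7 6 (by decide) (by decide) (by decide) (by decide) (by decide)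
    (by decide) (by decide) (by decide) (by decide) (by decide) (by decide) (by decide)
    (by decide) (by decide) (by decide)
  simp only [brkA, brkB] at h16
  have h17 : brk PAi 0 4 1 2 * brk PAi 0 4 7 6 *
      (brk PBi (σ 0) (σ 4) (σ 1) (σ 7) * brk PBi (σ 0) (σ 4) (σ 2) (σ 6)) =
      brk PAi 0 4 1 7 * brk PAi 0 4 2 6 *
      (brk PBi (σ 0) (σ 4) (σ 1) (σ 2) * brk PBi (σ 0) (σ 4) (σ 7) (σ 6)) := by
    exact_mod_cast h16
  have h18 : brk PAi 0 4 1 7 * brk PAi 0 4 2 6 ≠ 0 :=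
    mul_ne_zero (h11.1 0 4 1 7 (by decide) (by decide) (by decide) (by decide) (by decide)
      (by decide)) (h11.1 0 4 2 6 (by decide) (by decide) (by decide) (by decide) (by decide)
      (by decide))
  have h14' : brk PAi 0 4 1 2 * brk PAi 0 4 7 6 = 7 * (brk PAi 0 4 1 7 * brk PAi 0 4 2 6) := h14
  rw [h14'] at h17
  have hne : ∀ a b : Fin 8, a ≠ b → σ a ≠ σ b := fun a b hab h => hab (σ.injective h)
  refine h13 (σ 0) (σ 4) (σ 1) (σ 2) (σ 7) (σ 6) (hne _ _ (by decide)) (hne _ _ (by decide))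
    (hne _ _ (by decide)) (hne _ _ (by decide)) (hne _ _ (by decide)) (hne _ _ (by decide))
    (hne _ _ (by decide)) (hne _ _ (by decide)) (hne _ _ (by decide)) (hne _ _ (by decide))
    (hne _ _ (by decide)) (hne _ _ (by decide)) (hne _ _ (by decide)) (hne _ _ (by decide))
    (hne _ _ (by decide)) ?_
  have h19 : brk PAi 0 4 1 7 * brk PAi 0 4 2 6 *
      (brk PBi (σ 0) (σ 4) (σ 1) (σ 2) * brk PBi (σ 0) (σ 4) (σ 7) (σ 6)) =
      brk PAi 0 4 1 7 * brk PAi 0 4 2 6 *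
      (7 * (brk PBi (σ 0) (σ 4) (σ 1) (σ 7) * brk PBi (σ 0) (σ 4) (σ 2) (σ 6))) := by
    rw [← h17]
    ring
  exact mul_left_cancel₀ h18 h19

end Pool.Agent.H892.ZL.WNOCISO
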