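import Mathlib
import Pool.Agent.H892.ZL.Stm

set_option autoImplicit false

/-!
# Nullstellensatz for the chart hypersurface
-/

namespace Pool.Agent.H892.ZL.WNULL

open MvPolynomial Matrix

open Pool.Agent.H892.ZL

theorem not_dvd_vy (h1 : S_KAPH) (K : MvPolynomial (Fin 6) ℂ) (hK : Good K) (hp : Prime (kap K))
    (j : Fin 3) : ¬ kap K ∣ vy j := by
  intro hd
  have hX : Prime (vy j) := X_prime
  have hass : Associated (kap K) (vy j) := (hp.dvd_prime_iff_associated hX).1 hd
  obtain ⟨u, hu⟩ := hass
  obtain ⟨c, hc, hcu⟩ := isUnit_iff_eq_C_of_isReduced.1 u.isUnit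
  have h3 : IsWeightedHomogeneous wty (kap K) 3 := h1 3 K hK.hom
  have h3' : IsWeightedHomogeneous wty (vy j) 3 := by
    rw [← hu, hcu]
    simpa using h3.mul (isWeightedHomogeneous_C wty c)
  have h1' : IsWeightedHomogeneous wty (vy j) 1 := by
    have := isWeightedHomogeneous_X ℂ wty (Sum.inr j : Fin 3 ⊕ Fin 3)
    exact this
  have := IsWeightedHomogeneous.inj_right hX.ne_zero h3' h1'
  omega

theorem t_NULL (h1 : S_KAPH) : S_NULL := by
  intro K hK hp A hA
  have hz : vy 0 * A ∈ vanishingIdeal ℂ (zeroLocus ℂ (Ideal.span {kap K})) := by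
    rw [mem_vanishingIdeal_iff]
    intro p hp0
    have hk : eval p (kap K) = 0 := by
      have := hp0 (kap K) (Ideal.subset_span rfl)
      rwa [aeval_eq_eval] at this
    rw [aeval_eq_eval, map_mul]
    by_cases hy : p (Sum.inr 0) = 0
    · rw [vy, eval_X, hy, zero_mul]
    · have hpt : pt (fun i => p (Sum.inl i)) (fun i => p (Sum.inr i)) = p := by
        funext i
        rcases i with i | i <;> rfl
      have := hA (fun i => p (Sum.inl i)) (fun i => p (Sum.inr i))
        (fun h => hy (congrFun h 0)) (by rw [hpt]; exact hk)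
      rw [hpt] at this
      rw [this, mul_zero]
  rw [vanishingIdeal_zeroLocus_eq_radical] at hz
  have hprime : (Ideal.span {kap K}).IsPrime := (Ideal.span_singleton_prime hp.ne_zero).2 hp
  rw [hprime.radical, Ideal.mem_span_singleton] at hz
  rcases hp.dvd_or_dvd hz with h | h
  · exact absurd h (not_dvd_vy h1 K hK hp 0)
  · exact h

end Pool.Agent.H892.ZL.WNULL
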