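import Mathlib
import Pool.Agent.H892.ZL.Stm

set_option autoImplicit false

/-!
# Quadratic forms vanishing on the decomposable vectors
-/

namespace Pool.Agent.H892.ZL.WQUAD

open MvPolynomial Matrix
open Pool.Agent.H892.ZL

lemma exists_split {n : ℕ} (d : Fin 6 →₀ ℕ) (hd : d.degree = n + 1) :
    ∃ (i : Fin 6) (d' : Fin 6 →₀ ℕ), d = d' + Finsupp.single i 1 ∧ d'.degree = n := by
  have h1 : ∃ i, d i ≠ 0 := by
    by_contra hcon
    push Not at hcon
    have h2 : d = 0 := Finsupp.ext hcon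
    rw [h2, map_zero] at hd
    omega
  obtain ⟨i, hi⟩ := h1
  have h2 : Finsupp.single i 1 ≤ d := by
    rw [Finsupp.single_le_iff]
    omega
  have h3 : d - Finsupp.single i 1 + Finsupp.single i 1 = d := tsub_add_cancel_of_le h2
  refine ⟨i, d - Finsupp.single i 1, h3.symm, ?_⟩
  have h4 := congrArg Finsupp.degree h3
  rw [map_add, Finsupp.degree_single, hd] at h4
  omega

lemma exists_two (d : Fin 6 →₀ ℕ) (hd : d.degree = 2) :
    ∃ i j : Fin 6, d = Finsupp.single j 1 + Finsupp.single i 1 := by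
  obtain ⟨i, d', h1, h2⟩ := exists_split (n := 1) d hd
  obtain ⟨j, d'', h3, h4⟩ := exists_split (n := 0) d' h2
  have h5 : d'' = 0 := (Finsupp.degree_eq_zero_iff d'').1 h4
  exact ⟨i, j, by rw [h1, h3, h5, zero_add]⟩

lemma quad_rep (A : MvPolynomial (Fin 6) ℂ) (hA : A.IsHomogeneous 2) :
    ∃ a : Fin 6 → Fin 6 → ℂ, ∀ v : Fin 6 → ℂ,
      eval v A = ∑ i, ∑ j, a i j * (v i * v j) := by
  classical
  have h1 : ∀ s : Finset (Fin 6 →₀ ℕ), (∀ d ∈ s, d.degree = 2) →
      ∃ a : Fin 6 → Fin 6 → ℂ, ∀ v : Fin 6 → ℂ,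
        ∑ d ∈ s, coeff d A * ∏ i, v i ^ d i = ∑ i, ∑ j, a i j * (v i * v j) := by
    intro s
    induction s using Finset.induction_on with
    | empty =>
      intro _
      exact ⟨fun _ _ => 0, fun v => by simp⟩
    | insert d s hd ih =>
      intro hs
      obtain ⟨a, ha⟩ := ih fun e he => hs e (Finset.mem_insert_of_mem he)
      obtain ⟨i, j, hij⟩ := exists_two d (hs d (Finset.mem_insert_self _ _))
      refine ⟨fun p q => (if p = i ∧ q = j then coeff d A else 0) + a p q, fun v => ?_⟩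
      have h2 : ∏ p, v p ^ d p = v i * v j := by
        rw [hij]
        simp only [Finsupp.add_apply, pow_add, Finset.prod_mul_distrib]
        have h3 : ∀ k : Fin 6, ∏ p, v p ^ (Finsupp.single k 1 p) = v k := by
          intro k
          rw [Finset.prod_eq_single k]
          · rw [Finsupp.single_eq_same, pow_one]
          · intro p _ hp
            rw [Finsupp.single_eq_of_ne (by first | exact hp | exact hp.symm), pow_zero]
          · intro h
            exact absurd (Finset.mem_univ _) h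
        rw [h3, h3, mul_comm]
      rw [Finset.sum_insert hd, ha, h2]
      simp only [add_mul, Finset.sum_add_distrib]
      congr 1
      rw [Finset.sum_eq_single i, Finset.sum_eq_single j]
      · simp
      · intro q _ hq
        simp [hq]
      · intro h
        exact absurd (Finset.mem_univ _) h
      · intro p _ hp
        simp [hp]
      · intro h
        exact absurd (Finset.mem_univ _) h
  obtain ⟨a, ha⟩ := h1 A.support (by
    intro d hd
    have h2 := hA (MvPolynomial.mem_support_iff.1 hd)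
    rw [← h2]
    simp [Finsupp.weight_apply, Finsupp.degree_apply, Finsupp.sum])
  exact ⟨a, fun v => by rw [eval_eq', ha]⟩

lemma eval_gp (A : MvPolynomial (Fin 6) ℂ) (x y : Fin 3 → ℂ) :
    eval (pt x y) (aeval gp A) = eval (aff x y) A := by
  have h1 : (aeval (pt x y) : SA →ₐ[ℂ] ℂ) (aeval gp A) =
      aeval (fun i => (aeval (pt x y) : SA →ₐ[ℂ] ℂ) (gp i)) A :=
    MvPolynomial.comp_aeval_apply gp (aeval (pt x y) : SA →ₐ[ℂ] ℂ) A
  have h2 : (fun i => (aeval (pt x y) : SA →ₐ[ℂ] ℂ) (gp i)) = aff x y := by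
    funext i
    fin_cases i <;> simp [gp, aff, plu, pt]
  rw [h2] at h1
  exact h1

theorem t_QUAD : S_QUAD := by
  intro A hA hz
  obtain ⟨a, ha⟩ := quad_rep A hA
  have key : ∀ x0 x1 x2 y0 y1 y2 : ℂ, ∑ i, ∑ j, a i j *
      ((![x0 * y1 - x1 * y0, x0 * y2 - x2 * y0, - y0, x1 * y2 - x2 * y1, - y1, - y2] : Fin 6 → ℂ) i *
      (![x0 * y1 - x1 * y0, x0 * y2 - x2 * y0, - y0, x1 * y2 - x2 * y1, - y1, - y2] : Fin 6 → ℂ) j)
        = 0 := by
    intro x0 x1 x2 y0 y1 y2
    have h1 := eval_gp A ![x0, x1, x2] ![y0, y1, y2]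
    rw [hz, map_zero, ha] at h1
    have h2 : aff ![x0, x1, x2] ![y0, y1, y2] = ![x0 * y1 - x1 * y0, x0 * y2 - x2 * y0, - y0,
        x1 * y2 - x2 * y1, - y1, - y2] := by
      funext i
      fin_cases i <;> simp [aff, plu]
    rw [h2] at h1
    exact h1.symm
  simp only [Fin.sum_univ_six] at key
  have r22 : a 2 2 = 0 := by
    have := key 0 0 0 (-1) 0 0
    simp at this
    linear_combination this
  have r44 : a 4 4 = 0 := by
    have := key 0 0 0 0 (-1) 0
    simp at this
    linear_combination this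
  have r55 : a 5 5 = 0 := by
    have := key 0 0 0 0 0 (-1)
    simp at this
    linear_combination this
  have s24 : a 2 4 + a 4 2 = 0 := by
    have := key 0 0 0 (-1) (-1) 0
    simp at this
    linear_combination this - r22 - r44
  have s25 : a 2 5 + a 5 2 = 0 := by
    have := key 0 0 0 (-1) 0 (-1)
    simp at this
    linear_combination this - r22 - r55
  have s45 : a 4 5 + a 5 4 = 0 := by
    have := key 0 0 0 0 (-1) (-1)
    simp at this
    linear_combination this - r44 - r55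
  have e1 := key 0 1 0 (-1) 0 0
  have e2 := key 0 (-1) 0 (-1) 0 0
  have e3 := key 0 0 1 (-1) 0 0
  have e4 := key 0 0 (-1) (-1) 0 0
  have e5 := key 0 1 1 (-1) 0 0
  have e6 := key (-1) 0 0 0 (-1) 0
  have e7 := key 0 0 1 0 (-1) 0
  have e8 := key 0 0 (-1) 0 (-1) 0
  have e9 := key (-1) 0 1 0 (-1) 0
  have e10 := key (-1) 0 0 0 0 (-1)
  have e11 := key 0 (-1) 0 0 0 (-1)
  have e12 := key (-1) (-1) 0 0 0 (-1)
  have e13 := key (-1) 0 0 0 (-1) (-1)
  have e14 := key 0 0 1 (-1) (-1) 0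
  simp at e1 e2 e3 e4 e5 e6 e7 e8 e9 e10 e11 e12 e13 e14
  have r00 : a 0 0 = 0 := by linear_combination (e1 + e2) / 2 - r22
  have s02 : a 0 2 + a 2 0 = 0 := by linear_combination (e1 - e2) / 2
  have r11 : a 1 1 = 0 := by linear_combination (e3 + e4) / 2 - r22
  have s12 : a 1 2 + a 2 1 = 0 := by linear_combination (e3 - e4) / 2
  have s01 : a 0 1 + a 1 0 = 0 := by linear_combination e5 - r00 - r11 - r22 - s02 - s12
  have s04 : a 0 4 + a 4 0 = 0 := by linear_combination e6 - r00 - r44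
  have r33 : a 3 3 = 0 := by linear_combination (e7 + e8) / 2 - r44
  have s34 : a 3 4 + a 4 3 = 0 := by linear_combination (e7 - e8) / 2
  have s03 : a 0 3 + a 3 0 = 0 := by linear_combination e9 - r00 - r33 - r44 - s04 - s34
  have s15 : a 1 5 + a 5 1 = 0 := by linear_combination e10 - r11 - r55
  have s35 : a 3 5 + a 5 3 = 0 := by linear_combination e11 - r33 - r55
  have s13 : a 1 3 + a 3 1 = 0 := by linear_combination e12 - r11 - r33 - r55 - s15 - s35
  have t1 : a 1 4 + a 4 1 + (a 0 5 + a 5 0) = 0 := by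
    linear_combination e13 - r00 - r11 - r44 - r55 - s01 - s04 - s15 - s45
  have t2 : a 2 3 + a 3 2 + (a 1 4 + a 4 1) = 0 := by
    linear_combination e14 - r11 - r22 - r33 - r44 - s12 - s13 - s24 - s34
  refine ⟨a 0 5 + a 5 0, ?_⟩
  apply MvPolynomial.funext
  intro v
  rw [ha v]
  simp only [Fin.sum_univ_six, Gp, map_mul, map_add, map_sub, eval_C, eval_X]
  linear_combination v 0 ^ 2 * r00 + v 1 ^ 2 * r11 + v 2 ^ 2 * r22 + v 3 ^ 2 * r33 +
    v 4 ^ 2 * r44 + v 5 ^ 2 * r55 + v 0 * v 1 * s01 + v 0 * v 2 * s02 + v 0 * v 3 * s03 +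
    v 0 * v 4 * s04 + v 1 * v 2 * s12 + v 1 * v 3 * s13 + v 1 * v 5 * s15 + v 2 * v 4 * s24 +
    v 2 * v 5 * s25 + v 3 * v 4 * s34 + v 3 * v 5 * s35 + v 4 * v 5 * s45 + v 1 * v 4 * t1 +
    v 2 * v 3 * (t2 - t1)

end Pool.Agent.H892.ZL.WQUAD
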