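import Mathlib
import Pool.Agent.H892.ZL.Stm2

set_option autoImplicit false

/-!
# Lines on the quadrics of a net: both nets are regular
-/

namespace Pool.Agent.H892.ZL.WREGAB

open MvPolynomial Matrix Pool.Agent.H892.ZL

theorem symA : ∀ k : Fin 3, ∀ i j : Fin 4, QAi k j i = QAi k i j := by decide

theorem symB : ∀ k : Fin 3, ∀ i j : Fin 4, QBi k j i = QBi k i j := by decide

theorem minA : ∀ i j : Fin 8, i ≠ j → ∃ a b : Fin 4,
    PAi i a * PAi j b - PAi i b * PAi j a ≠ 0 := by decide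

theorem minB : ∀ i j : Fin 8, i ≠ j → ∃ a b : Fin 4,
    PBi i a * PBi j b - PBi i b * PBi j a ≠ 0 := by decide

theorem pair_of_minor (u v : Fin 4 → ℤ)
    (h : ∃ a b : Fin 4, u a * v b - u b * v a ≠ 0) :
    LinearIndependent ℂ ![fun j => (u j : ℂ), fun j => (v j : ℂ)] := by
  obtain ⟨a, b, hab⟩ := h
  rw [LinearIndependent.pair_iff]
  intro s t hst
  have ha : s * (u a : ℂ) + t * (v a : ℂ) = 0 := congrFun hst a
  have hb : s * (u b : ℂ) + t * (v b : ℂ) = 0 := congrFun hst b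
  have hne : ((u a : ℂ) * (v b : ℂ) - (u b : ℂ) * (v a : ℂ)) ≠ 0 := by
    intro h0
    apply hab
    have : ((u a * v b - u b * v a : ℤ) : ℂ) = 0 := by
      push_cast
      exact h0
    exact_mod_cast this
  constructor
  · have h1 : s * ((u a : ℂ) * (v b : ℂ) - (u b : ℂ) * (v a : ℂ)) = 0 := by
      linear_combination (v b : ℂ) * ha - (v a : ℂ) * hb
    exact (mul_eq_zero.mp h1).resolve_right hne
  · have h1 : t * ((u a : ℂ) * (v b : ℂ) - (u b : ℂ) * (v a : ℂ)) = 0 := by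
      linear_combination (u a : ℂ) * hb - (u b : ℂ) * ha
    exact (mul_eq_zero.mp h1).resolve_right hne

theorem smooth_of (Q : Fin 3 → Matrix (Fin 4) (Fin 4) ℂ) (hd : disc Q = C 49 * DD)
    (h2 : S_SMOOTH) :
    ∀ l : Fin 3 → ℂ, l ≠ 0 → eval l (disc Q) = 0 → ∃ k, eval l (pderiv k (disc Q)) ≠ 0 := by
  intro l hl _
  obtain ⟨k, hk⟩ := h2 l hl
  refine ⟨k, ?_⟩
  rw [hd, pderiv_C_mul, map_mul, eval_C]
  exact mul_ne_zero (by norm_num) hk

theorem entry (Qi : Fin 3 → Matrix (Fin 4) (Fin 4) ℤ) (g : Fin 3 → ℂ)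
    (h : ∑ k, g k • (Qi k).map (Int.cast : ℤ → ℂ) = 0) (a b : Fin 4) :
    g 0 * (Qi 0 a b : ℂ) + g 1 * (Qi 1 a b : ℂ) + g 2 * (Qi 2 a b : ℂ) = 0 := by
  have h1 := congrFun (congrFun h a) b
  rw [Fin.sum_univ_three] at h1
  exact h1

theorem indA : LinearIndependent ℂ QA := by
  rw [Fintype.linearIndependent_iff]
  intro g hg
  have e := entry QAi g hg
  have e0 := e 0 3
  have e1 := e 1 3
  have e2 := e 2 3
  have v : QAi 0 0 3 = -13 ∧ QAi 1 0 3 = -9 ∧ QAi 2 0 3 = 3 ∧ QAi 0 1 3 = 0 ∧ QAi 1 1 3 = -7 ∧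
    QAi 2 1 3 = 0 ∧ QAi 0 2 3 = 0 ∧ QAi 1 2 3 = 0 ∧ QAi 2 2 3 = -7 := by decide
  obtain ⟨v1, v2, v3, v4, v5, v6, v7, v8, v9⟩ := v
  rw [v1, v2, v3] at e0
  rw [v4, v5, v6] at e1
  rw [v7, v8, v9] at e2
  push_cast at e0 e1 e2
  have g1 : g 1 = 0 := by linear_combination (-1 / 7 : ℂ) * e1
  have g2 : g 2 = 0 := by linear_combination (-1 / 7 : ℂ) * e2
  have g0 : g 0 = 0 := by
    rw [g1, g2] at e0
    linear_combination (-1 / 13 : ℂ) * e0
  intro i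
  fin_cases i
  · exact g0
  · exact g1
  · exact g2

theorem indB : LinearIndependent ℂ QB := by
  rw [Fintype.linearIndependent_iff]
  intro g hg
  have e := entry QBi g hg
  have e0 := e 0 3
  have e1 := e 1 3
  have e2 := e 2 3
  have v : QBi 0 0 3 = 7 ∧ QBi 1 0 3 = 0 ∧ QBi 2 0 3 = 0 ∧ QBi 0 1 3 = -3 ∧ QBi 1 1 3 = 13 ∧
    QBi 2 1 3 = -9 ∧ QBi 0 2 3 = 9 ∧ QBi 1 2 3 = 3 ∧ QBi 2 2 3 = 13 := by decide
  obtain ⟨v1, v2, v3, v4, v5, v6, v7, v8, v9⟩ := v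
  rw [v1, v2, v3] at e0
  rw [v4, v5, v6] at e1
  rw [v7, v8, v9] at e2
  push_cast at e0 e1 e2
  have g0 : g 0 = 0 := by linear_combination (1 / 7 : ℂ) * e0
  rw [g0] at e1 e2
  have g1 : g 1 = 0 := by linear_combination (13 / 196 : ℂ) * e1 + (9 / 196 : ℂ) * e2
  have g2 : g 2 = 0 := by linear_combination (-3 / 196 : ℂ) * e1 + (13 / 196 : ℂ) * e2
  intro i
  fin_cases i
  · exact g0
  · exact g1
  · exact g2

theorem t_REGAB (h1 : S_DISCAB) (h2 : S_SMOOTH) (h3 : S_BASEA) (h4 : S_BASEB) (h5 : S_NCARD) :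
    S_REGAB := by
  refine ⟨⟨?_, indA, ?_, smooth_of QA h1.1 h2⟩, ⟨?_, indB, ?_, smooth_of QB h1.2 h2⟩⟩
  · intro k
    ext i j
    show ((QAi k j i : ℤ) : ℂ) = ((QAi k i j : ℤ) : ℂ)
    rw [symA k i j]
  · exact h5 QA PA h3 fun i j hij => pair_of_minor (PAi i) (PAi j) (minA i j hij)
  · intro k
    ext i j
    show ((QBi k j i : ℤ) : ℂ) = ((QBi k i j : ℤ) : ℂ)
    rw [symB k i j]
  · exact h5 QB PB h4 fun i j hij => pair_of_minor (PBi i) (PBi j) (minB i j hij)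

end Pool.Agent.H892.ZL.WREGAB
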