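import Mathlib
import Pool.Agent.H892.ZL.Stm2

set_option autoImplicit false

/-!
# The singular points of the complex
-/

namespace Pool.Agent.H892.ZL.WSING

open Pool.Agent.H892.ZL MvPolynomial Matrix

theorem t_SING (h1 : S_DEC) (h2 : S_SMT) (h3 : S_SINGL) (h4 : S_NETD) : S_SING := by
  intro Q hQ hA hB v hv hs
  obtain ⟨hv0, hG, hK⟩ := hv
  obtain ⟨x, y, hxy, rfl⟩ := h1 v hv0 hG
  have hdet : (NN Q x y).det = 0 := by rw [← (h4 Q hQ).1 x y]; exact hK
  have htr := (h2 Q hQ x y hxy).1 hs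
  exact h3 Q hQ hA hB x y hxy hdet htr

end Pool.Agent.H892.ZL.WSING
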