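import Mathlib
import Pool.Agent.H892.ZL.Stm2

/-!
# Lines through two base points are singular points of the complex
-/

set_option autoImplicit false

namespace Pool.Agent.H892.ZL.WSINGREV

open MvPolynomial Matrix
open Pool.Agent.H892.ZL

theorem plu_ne_zero (x y : Fin 4 → ℂ) (h : LinearIndependent ℂ ![x, y]) : plu x y ≠ 0 := by
  intro h0
  have hx : x ≠ 0 := h.ne_zero 0
  have e : ∀ i j, x i * y j = x j * y i := by
    have h1 := congrFun h0 0
    have h2 := congrFun h0 1
    have h3 := congrFun h0 2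
    have h4 := congrFun h0 3
    have h5 := congrFun h0 4
    have h6 := congrFun h0 5
    simp only [plu, Matrix.cons_val, Pi.zero_apply, sub_eq_zero] at h1 h2 h3 h4 h5 h6
    intro i j
    fin_cases i <;> fin_cases j <;> first | rfl | assumption | (symm; assumption)
  obtain ⟨i, hi⟩ := Function.ne_iff.mp hx
  rw [Pi.zero_apply] at hi
  rw [LinearIndependent.pair_iff] at h
  have h7 := h (y i) (-(x i)) (by
    funext j
    simp only [Pi.add_apply, Pi.smul_apply, smul_eq_mul, Pi.zero_apply]
    have := e i j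
    linear_combination -this)
  exact hi (neg_eq_zero.mp h7.2)

theorem t_SINGREV (h1 : S_SMT) (h2 : S_NETD) : S_SINGREV := by
  intro Q hQ x y hx hy hxy
  have hc0 : ∀ k, NN Q x y k 0 = 0 := fun k => hx k
  have hc2 : ∀ k, NN Q x y k 2 = 0 := fun k => hy k
  have hdet : (NN Q x y).det = 0 := Matrix.det_eq_zero_of_column_eq_zero 0 hc0
  have hadj : (NN Q x y).adjugate = 0 := by
    rw [Matrix.adjugate_fin_three]
    simp only [hc0, hc2]
    ext i j
    fin_cases i <;> fin_cases j <;> simp
  refine ⟨⟨plu_ne_zero x y hxy, ?_, ?_⟩, ?_⟩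
  · simp only [Gp, plu, map_add, map_sub, map_mul, eval_X, Matrix.cons_val]
    ring
  · rw [(h2 Q hQ).1, hdet]
  · rw [h1 Q hQ x y hxy]
    intro ξ η
    rw [hadj]
    simp

end Pool.Agent.H892.ZL.WSINGREV
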