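import Mathlib
import Pool.Agent.H892.ZL.Stm2

set_option autoImplicit false

/-!
# Smoothness of the discriminant quartic (helper154, for helper892)
-/

namespace Pool.Agent.H892.ZL.WSMOOTH

open Pool.Agent.H892.ZL MvPolynomial

theorem pd0 (l : Fin 3 → ℂ) (a b c : ℂ) (ha : l 0 = a) (hb : l 1 = b) (hc : l 2 = c) :
    eval l (pderiv 0 DD) = 4 * (169*a^3 - 97*a*b^2 - 97*a*c^2 + 234*a^2*b - 78*b^3 + 78*c^3 - 234*a^2*c + 6*b*c^2 + 6*b^2*c - 12*a*b*c) := by
  subst ha hb hc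
  unfold DD
  simp only [map_add, map_sub, map_mul, pderiv_mul, pderiv_pow, pderiv_X, eval_C, eval_X,
    map_pow, Pi.single_apply, map_natCast]
  simp
  ring

theorem pd1 (l : Fin 3 → ℂ) (a b c : ℂ) (ha : l 0 = a) (hb : l 1 = b) (hc : l 2 = c) :
    eval l (pderiv 1 DD) = 4 * (169*b^3 - 97*a^2*b - 97*b*c^2 + 78*a^3 - 234*a*b^2 + 78*c^3 - 234*b^2*c + 6*a*c^2 + 12*a*b*c - 6*a^2*c) := by
  subst ha hb hc
  unfold DD
  simp only [map_add, map_sub, map_mul, pderiv_mul, pderiv_pow, pderiv_X, eval_C, eval_X,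
    map_pow, Pi.single_apply, map_natCast]
  simp
  ring

theorem pd2 (l : Fin 3 → ℂ) (a b c : ℂ) (ha : l 0 = a) (hb : l 1 = b) (hc : l 2 = c) :
    eval l (pderiv 2 DD) = 4 * (169*c^3 - 97*a^2*c - 97*b^2*c + 234*a*c^2 - 78*a^3 + 234*b*c^2 - 78*b^3 + 12*a*b*c + 6*a*b^2 - 6*a^2*b) := by
  subst ha hb hc
  unfold DD
  simp only [map_add, map_sub, map_mul, pderiv_mul, pderiv_pow, pderiv_X, eval_C, eval_X,
    map_pow, Pi.single_apply, map_natCast]
  simp
  ring

theorem cert (a b c : ℂ) (hg0 : 169*a^3 - 97*a*b^2 - 97*a*c^2 + 234*a^2*b - 78*b^3 + 78*c^3 - 234*a^2*c + 6*b*c^2 + 6*b^2*c - 12*a*b*c = 0)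
    (hg1 : 169*b^3 - 97*a^2*b - 97*b*c^2 + 78*a^3 - 234*a*b^2 + 78*c^3 - 234*b^2*c + 6*a*c^2 + 12*a*b*c - 6*a^2*c = 0)
    (hg2 : 169*c^3 - 97*a^2*c - 97*b^2*c + 234*a*c^2 - 78*a^3 + 234*b*c^2 - 78*b^3 + 12*a*b*c + 6*a*b^2 - 6*a^2*b = 0) :
    a = 0 ∧ b = 0 ∧ c = 0 := by
  have h0 : (56894553970581600 : ℂ) * a ^ 7 = 0 := by
    linear_combination ((-42679365101926566) * a * b * c ^ 2 + (4035348111373124) * a ^ 2 * b ^ 2 + (485232394002018) * a ^ 3 * b + (-45665088982321484) * a ^ 2 * c ^ 2 + (14652011125560822) * a ^ 4 + (23912646132147721) * a * b ^ 2 * c + (1764700302026740) * b ^ 2 * c ^ 2 + (-32862985926326569) * a * c ^ 3 + (17624426009841001) * a ^ 3 * c + (-1764700302026740) * b ^ 4 + (15825250874439474) * a * b ^ 3 + (1628954124947760) * b ^ 3 * c) * hg0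
      + ((5877456503544458) * a ^ 3 * b + (1694394854805380) * a * c ^ 3 + (-3451847737900876) * a * b ^ 3 + (-613358801011632) * b ^ 2 * c ^ 2 + (-814477062473880) * b ^ 4 + (1895590801311480) * a ^ 2 * c ^ 2 + (-990267454413860) * a ^ 3 * c + (-422145736836744) * b ^ 3 * c + (-3378960428417096) * a * b ^ 2 * c + (2057946813451296) * a ^ 2 * b ^ 2) * hg1
      + ((-18666259923026222) * a * b ^ 3 + (31016606746784581) * a ^ 4 + (-531388385083896) * b ^ 2 * c ^ 2 + (-235918211084712) * b ^ 3 * c + (-18639425926556317) * a ^ 2 * c ^ 2 + (-14618131545103933) * a ^ 2 * b ^ 2 + (-2111116158159996) * a ^ 2 * b * c + (-45331978507698572) * a ^ 3 * c + (14385503571471318) * a * c ^ 3 + (2921039739063658) * a * b ^ 2 * c + (48498933907222226) * a ^ 3 * b + (1919034666864290) * a * b * c ^ 2) * hg2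
  have h1 : (168235235859600 : ℂ) * b ^ 7 = 0 := by
    linear_combination ((-3886040863224) * c ^ 4 + (-25552249229150) * b * c ^ 3 + (-17216287208574) * b ^ 2 * c ^ 2 + (19918489629506) * b ^ 3 * c + (-1633135335858) * b ^ 4 + (4313591698332) * a * c ^ 3 + (-19034516308006) * a * b * c ^ 2 + (-25093776010080) * a * b ^ 2 * c + (12818610127817) * a * b ^ 3 + (13178584726980) * a ^ 2 * c ^ 2 + (9319498669332) * a ^ 2 * b * c + (-5817852255270) * a ^ 2 * b ^ 2) * hg0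
      + ((28553600241790) * c ^ 4 + (41361601943850) * b * c ^ 3 + (-17859375826445) * b ^ 2 * c ^ 2 + (-6935738166906) * b ^ 3 * c + (-210742148916) * b ^ 4 + (26357169453960) * a * c ^ 3 + (-22995790991988) * a * b * c ^ 2 + (5679592981790) * a * b ^ 2 * c + (4178625007404) * a * b ^ 3 + (-28553600241790) * a ^ 2 * c ^ 2 + (-20192247116886) * a ^ 2 * b * c + (12605346553085) * a ^ 2 * b ^ 2) * hg1
      + ((-11385027405492) * c ^ 4 + (24993978519358) * b * c ^ 3 + (39368110476660) * b ^ 2 * c ^ 2 + (-33220187554697) * b ^ 3 * c + (-980334651660) * b ^ 4 + (-1636038592764) * a * c ^ 3 + (-15597770638250) * a * b * c ^ 2 + (20863027105800) * a * b ^ 2 * c + (-1177156169280) * a * b ^ 3) * hg2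
  have h2 : (24619790613600 : ℂ) * c ^ 7 = 0 := by
    linear_combination ((-387881480844) * c ^ 4 + (6716362974601) * b * c ^ 3 + (7985643859062) * b ^ 2 * c ^ 2 + (-6785729913937) * b ^ 3 * c + (-642819890310) * b ^ 4 + (-1594574471952) * a * c ^ 3 + (4257063606930) * a * b * c ^ 2 + (6317904152922) * a * b ^ 2 * c + (-3069708616260) * a * b ^ 3 + (-3292774268040) * a ^ 2 * c ^ 2 + (-1506940998336) * a ^ 2 * b * c + (1553720639760) * a ^ 2 * b ^ 2) * hg0
      + ((-6774350897340) * c ^ 4 + (-9274639462692) * b * c ^ 3 + (7695157982262) * b ^ 2 * c ^ 2 + (1552108582326) * b ^ 3 * c + (-296686103220) * b ^ 4 + (-6773367152520) * a * c ^ 3 + (10567588952124) * a * b * c ^ 2 + (-3438094304281) * a * b ^ 2 * c + (-2196540530070) * a * b ^ 3 + (7134344247420) * a ^ 2 * c ^ 2 + (3265038829728) * a ^ 2 * b * c + (-3366394719480) * a ^ 2 * b ^ 2) * hg1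
      + ((3451324947408) * c ^ 4 + (-7472480590410) * b * c ^ 3 + (-9837707647278) * b ^ 2 * c ^ 2 + (10989242468100) * b ^ 3 * c + (-898751415636) * a * c ^ 3 + (5310372791641) * a * b * c ^ 2 + (-2732702248350) * a * b ^ 2 * c) * hg2
  refine ⟨?_, ?_, ?_⟩
  · exact eq_zero_of_pow_eq_zero ((mul_eq_zero.1 h0).resolve_left (by norm_num))
  · exact eq_zero_of_pow_eq_zero ((mul_eq_zero.1 h1).resolve_left (by norm_num))
  · exact eq_zero_of_pow_eq_zero ((mul_eq_zero.1 h2).resolve_left (by norm_num))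

theorem t_SMOOTH : S_SMOOTH := by
  intro l hl
  by_contra h
  push Not at h
  have h0 := h 0
  have h1 := h 1
  have h2 := h 2
  rw [pd0 l _ _ _ rfl rfl rfl] at h0
  rw [pd1 l _ _ _ rfl rfl rfl] at h1
  rw [pd2 l _ _ _ rfl rfl rfl] at h2
  obtain ⟨ha, hb, hc⟩ := cert (l 0) (l 1) (l 2)
    ((mul_eq_zero.1 h0).resolve_left (by norm_num))
    ((mul_eq_zero.1 h1).resolve_left (by norm_num))
    ((mul_eq_zero.1 h2).resolve_left (by norm_num))
  apply hl
  funext i
  fin_cases i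
  · exact ha
  · exact hb
  · exact hc

end Pool.Agent.H892.ZL.WSMOOTH
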