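import Mathlib
import Pool.Agent.H892.ZL.Stm2

/-!
# Meeting-preserving maps of pairs come from permutations
-/

set_option autoImplicit false

namespace Pool.Agent.H892.ZL.WSTAR

open Pool.Agent.H892.ZL Finset

theorem star_pair {s : Finset (Fin 8)} {b c : Fin 8} (hs : s.card = 2) (hbc : b ≠ c) (hb : b ∈ s)
    (hc : c ∈ s) : s = {b, c} := by
  symm
  apply Finset.eq_of_subset_of_card_le
  · intro x hx
    rw [Finset.mem_insert, Finset.mem_singleton] at hx
    rcases hx with rfl | rfl
    · exact hb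
    · exact hc
  · rw [hs, Finset.card_pair hbc]

theorem star_meet {s : Finset (Fin 8)} {a b : Fin 8} (h : (s ∩ {a, b}).Nonempty) :
    a ∈ s ∨ b ∈ s := by
  obtain ⟨x, hx⟩ := h
  rw [Finset.mem_inter, Finset.mem_insert, Finset.mem_singleton] at hx
  rcases hx with ⟨h1, rfl | rfl⟩
  · exact Or.inl h1
  · exact Or.inr h1

theorem star_three {s : Finset (Fin 8)} {a b c : Fin 8} (hs : s.card = 2) (hab : a ≠ b)
    (hac : a ≠ c) (hbc : b ≠ c) (h1 : (s ∩ {a, b}).Nonempty) (h2 : (s ∩ {a, c}).Nonempty)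
    (h3 : (s ∩ {b, c}).Nonempty) : s ∈ ({{a, b}, {a, c}, {b, c}} : Finset (Finset (Fin 8))) := by
  rw [Finset.mem_insert, Finset.mem_insert, Finset.mem_singleton]
  rcases star_meet h1 with h4 | h4
  · rcases star_meet h3 with h5 | h5
    · exact Or.inl (star_pair hs hab h4 h5)
    · exact Or.inr (Or.inl (star_pair hs hac h4 h5))
  · rcases star_meet h2 with h5 | h5
    · exact Or.inl (star_pair hs hab h5 h4)
    · exact Or.inr (Or.inr (star_pair hs hbc h4 h5))

theorem star_seven (a : Fin 8) :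
    (((univ : Finset (Fin 8)).erase a).image (fun b => ({a, b} : Finset (Fin 8)))).card ≤ 7 := by
  refine Finset.card_image_le.trans ?_
  rw [Finset.card_erase_of_mem (Finset.mem_univ a), Finset.card_univ, Fintype.card_fin]

theorem star_mem {s : Finset (Fin 8)} {a : Fin 8} (hs : s.card = 2) (ha : a ∈ s) :
    s ∈ ((univ : Finset (Fin 8)).erase a).image (fun b => ({a, b} : Finset (Fin 8))) := by
  obtain ⟨x, y, hxy, rfl⟩ := Finset.card_eq_two.1 hs
  rw [Finset.mem_insert, Finset.mem_singleton] at ha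
  rcases ha with rfl | rfl
  · exact Finset.mem_image.2 ⟨y, Finset.mem_erase.2 ⟨hxy.symm, Finset.mem_univ _⟩, rfl⟩
  · exact Finset.mem_image.2 ⟨x, Finset.mem_erase.2 ⟨hxy, Finset.mem_univ _⟩, Finset.pair_comm _ _⟩

theorem t_STAR : S_STAR := by
  intro τ hcard hsymm hinj hmeet
  have hinjOn : ∀ i, Set.InjOn (τ i) ((univ.erase i : Finset (Fin 8)) : Set (Fin 8)) := by
    intro i j hj k hk hjk
    have hj' : j ≠ i := (Finset.mem_erase.1 (Finset.mem_coe.1 hj)).1
    have hk' : k ≠ i := (Finset.mem_erase.1 (Finset.mem_coe.1 hk)).1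
    rcases hinj i j i k hj'.symm hk'.symm hjk with h | h
    · exact h.2
    · exact absurd h.2 hj'
  have himg : ∀ i, ((univ.erase i : Finset (Fin 8)).image (τ i)).card = 7 := by
    intro i
    rw [Finset.card_image_of_injOn (hinjOn i), Finset.card_erase_of_mem (Finset.mem_univ i),
      Finset.card_univ, Fintype.card_fin]
  have hcommon : ∀ i, ∃ a, ∀ j, i ≠ j → a ∈ τ i j := by
    intro i
    obtain ⟨j0, hj0⟩ : ∃ j0 : Fin 8, i ≠ j0 := by
      obtain ⟨j, hj⟩ := exists_ne i
      exact ⟨j, hj.symm⟩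
    obtain ⟨j1, hj1, hj01⟩ : ∃ j1 : Fin 8, i ≠ j1 ∧ j0 ≠ j1 := by
      revert i j0
      decide
    have hne : τ i j0 ≠ τ i j1 := by
      intro h
      rcases hinj i j0 i j1 hj0 hj1 h with h | h
      · exact hj01 h.2
      · exact hj1 h.1
    obtain ⟨a, ha⟩ := hmeet i j0 j1 hj0 hj1
    rw [Finset.mem_inter] at ha
    obtain ⟨b, hab, hb⟩ : ∃ b, a ≠ b ∧ b ∈ τ i j0 := by
      have h := Finset.card_erase_of_mem ha.1
      rw [hcard i j0 hj0] at h
      obtain ⟨b, hb⟩ := Finset.card_pos.1 (by rw [h]; norm_num : 0 < ((τ i j0).erase a).card)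
      exact ⟨b, (Finset.mem_erase.1 hb).1.symm, (Finset.mem_erase.1 hb).2⟩
    obtain ⟨c, hac, hc⟩ : ∃ c, a ≠ c ∧ c ∈ τ i j1 := by
      have h := Finset.card_erase_of_mem ha.2
      rw [hcard i j1 hj1] at h
      obtain ⟨b, hb⟩ := Finset.card_pos.1 (by rw [h]; norm_num : 0 < ((τ i j1).erase a).card)
      exact ⟨b, (Finset.mem_erase.1 hb).1.symm, (Finset.mem_erase.1 hb).2⟩
    have e0 := star_pair (hcard i j0 hj0) hab ha.1 hb
    have e1 := star_pair (hcard i j1 hj1) hac ha.2 hc
    have hbc : b ≠ c := by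
      rintro rfl
      exact hne (e0.trans e1.symm)
    refine ⟨a, ?_⟩
    by_contra hcon
    push Not at hcon
    obtain ⟨j2, hj2, hj2'⟩ := hcon
    have m0 := hmeet i j2 j0 hj2 hj0
    have m1 := hmeet i j2 j1 hj2 hj1
    rw [e0] at m0
    rw [e1] at m1
    have hb2 : b ∈ τ i j2 := (star_meet m0).resolve_left hj2'
    have hc2 : c ∈ τ i j2 := (star_meet m1).resolve_left hj2'
    have e2 := star_pair (hcard i j2 hj2) hbc hb2 hc2
    have hsub : (univ.erase i : Finset (Fin 8)).image (τ i) ⊆
        ({{a, b}, {a, c}, {b, c}} : Finset (Finset (Fin 8))) := by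
      intro s hs
      obtain ⟨j, hj, rfl⟩ := Finset.mem_image.1 hs
      have hj' : i ≠ j := (Finset.mem_erase.1 hj).1.symm
      have n0 := hmeet i j j0 hj' hj0
      have n1 := hmeet i j j1 hj' hj1
      have n2 := hmeet i j j2 hj' hj2
      rw [e0] at n0
      rw [e1] at n1
      rw [e2] at n2
      exact star_three (hcard i j hj') hab hac hbc n0 n1 n2
    have h1 := Finset.card_le_card hsub
    rw [himg i] at h1
    have h2 := Finset.card_le_three (a := ({a, b} : Finset (Fin 8))) (b := {a, c}) (c := {b, c})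
    omega
  choose σ hσ using hcommon
  have hσinj : Function.Injective σ := by
    intro i i' hii
    by_contra hne
    obtain ⟨k, hk, hk'⟩ : ∃ k : Fin 8, i ≠ k ∧ i' ≠ k := by
      clear hii hσ
      revert i i'
      decide
    have hsub : insert (τ i' k) ((univ.erase i : Finset (Fin 8)).image (τ i)) ⊆
        ((univ : Finset (Fin 8)).erase (σ i)).image (fun b => ({σ i, b} : Finset (Fin 8))) := by
      intro s hs
      rw [Finset.mem_insert] at hs
      rcases hs with rfl | hs
      · apply star_mem (hcard i' k hk')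
        rw [hii]
        exact hσ i' k hk'
      · obtain ⟨j, hj, rfl⟩ := Finset.mem_image.1 hs
        have hj' : i ≠ j := (Finset.mem_erase.1 hj).1.symm
        exact star_mem (hcard i j hj') (hσ i j hj')
    have hnot : τ i' k ∉ (univ.erase i : Finset (Fin 8)).image (τ i) := by
      intro h
      obtain ⟨j, hj, hjk⟩ := Finset.mem_image.1 h
      have hj' : i ≠ j := (Finset.mem_erase.1 hj).1.symm
      rcases hinj i j i' k hj' hk' hjk with h | h
      · exact hne h.1
      · exact hk h.1
    have h1 := Finset.card_le_card hsub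
    rw [Finset.card_insert_of_notMem hnot, himg i] at h1
    have h2 := star_seven (σ i)
    omega
  refine ⟨Equiv.ofBijective σ (Finite.injective_iff_bijective.1 hσinj), fun i j hij => ?_⟩
  refine star_pair (hcard i j hij) (fun h => hij (hσinj h)) (hσ i j hij) ?_
  rw [hsymm]
  exact hσ j i hij.symm

end Pool.Agent.H892.ZL.WSTAR
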