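import Mathlib
import Pool.Agent.H892.ZL.Stm

/-!
# Project ZL: the tangent space of the Pluecker quadric at a decomposable vector
-/

set_option autoImplicit false

namespace Pool.Agent.H892.ZL.WTAN

open Pool.Agent.H892.ZL

/-- the rows of the alternating matrix of `u` -/
def row {F : Type} [Field F] (u : Fin 6 → F) : Fin 4 → Fin 4 → F :=
  ![![0, u 0, u 1, u 2], ![-u 0, 0, u 3, u 4], ![-u 1, -u 3, 0, u 5], ![-u 2, -u 4, -u 5, 0]]

theorem key {F : Type} [Field F] (x y : Fin 4 → F) (u : Fin 6 → F) (h : Bf (plu x y) u = 0)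
    (i j : Fin 4) (k : Fin 6) :
    (x i * y j - x j * y i) * u k =
      plu (fun l => x j * row u i l - x i * row u j l) y k +
        plu x (fun l => y j * row u i l - y i * row u j l - row u i j * y l) k := by
  have h' : (x 2 * y 3 - x 3 * y 2) * u 0 - (x 1 * y 3 - x 3 * y 1) * u 1 +
      (x 1 * y 2 - x 2 * y 1) * u 2 + (x 0 * y 3 - x 3 * y 0) * u 3 -
      (x 0 * y 2 - x 2 * y 0) * u 4 + (x 0 * y 1 - x 1 * y 0) * u 5 = 0 := h
  fin_cases i <;> fin_cases j <;> fin_cases k <;>
    simp only [plu, row, Fin.isValue, Fin.zero_eta, Fin.mk_one, Fin.reduceFinMk,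
      Matrix.cons_val_zero, Matrix.cons_val_one, Matrix.cons_val] <;>
    first
    | ring1
    | linear_combination h'
    | linear_combination -h'

theorem plu_smul_left {F : Type} [Field F] (c : F) (x y : Fin 4 → F) :
    plu (fun l => c * x l) y = fun k => c * plu x y k := by
  funext k
  fin_cases k <;>
    simp only [plu, Fin.isValue, Fin.zero_eta, Fin.mk_one, Fin.reduceFinMk,
      Matrix.cons_val_zero, Matrix.cons_val_one, Matrix.cons_val] <;> ring

theorem plu_smul_right {F : Type} [Field F] (c : F) (x y : Fin 4 → F) :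
    plu x (fun l => c * y l) = fun k => c * plu x y k := by
  funext k
  fin_cases k <;>
    simp only [plu, Fin.isValue, Fin.zero_eta, Fin.mk_one, Fin.reduceFinMk,
      Matrix.cons_val_zero, Matrix.cons_val_one, Matrix.cons_val] <;> ring

theorem t_TAN : S_TAN := by
  intro F _ x y hxy u h
  rw [LinearIndependent.pair_iff] at hxy
  have hm : ∃ i j : Fin 4, x i * y j - x j * y i ≠ 0 := by
    by_contra hcon
    have hz : ∀ i j : Fin 4, x i * y j - x j * y i = 0 := by
      intro i j
      by_contra hne
      exact hcon ⟨i, j, hne⟩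
    have hx : ∃ i, x i ≠ 0 := by
      by_contra hx
      have hx0 : x = 0 := by
        funext i
        by_contra hne
        exact hx ⟨i, hne⟩
      have := (hxy 1 0 (by rw [hx0, smul_zero, zero_smul, add_zero])).1
      exact one_ne_zero this
    obtain ⟨i, hi⟩ := hx
    have := (hxy (-y i) (x i) (by
      funext j
      show -y i * x j + x i * y j = 0
      linear_combination hz i j)).2
    exact hi this
  obtain ⟨i, j, hm⟩ := hm
  refine ⟨fun l => (x i * y j - x j * y i)⁻¹ * (x j * row u i l - x i * row u j l),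
    fun l => (x i * y j - x j * y i)⁻¹ *
      (y j * row u i l - y i * row u j l - row u i j * y l), ?_⟩
  rw [plu_smul_left, plu_smul_right]
  funext k
  have hk := key x y u h i j k
  show u k = (x i * y j - x j * y i)⁻¹ * _ + (x i * y j - x j * y i)⁻¹ * _
  rw [← mul_add, ← hk, ← mul_assoc, inv_mul_cancel₀ hm, one_mul]

end Pool.Agent.H892.ZL.WTAN
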