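import Mathlib
import Pool.Agent.H892.ZL.Stm

/-!
# Project ZL (helper892), piece TSING: singular points go to singular points
-/

set_option autoImplicit false

namespace Pool.Agent.H892.ZL.WTSING

open MvPolynomial Matrix Pool.Agent.H892.ZL

/-- chain rule for a derivation and the substitution of polynomials -/
lemma der_aeval {σ τ : Type} [Fintype σ] (D : Derivation ℂ (MvPolynomial τ ℂ) (MvPolynomial τ ℂ))
    (f : σ → MvPolynomial τ ℂ) (K : MvPolynomial σ ℂ) :
    D (aeval f K) = ∑ i, aeval f (pderiv i K) * D (f i) := by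
  classical
  induction K using MvPolynomial.induction_on with
  | C a =>
    rw [show (aeval f (C a) : MvPolynomial τ ℂ) = algebraMap ℂ _ a from aeval_C f a,
      Derivation.map_algebraMap]
    symm
    refine Finset.sum_eq_zero fun i _ => ?_
    rw [pderiv_C, map_zero, zero_mul]
  | add p q hp hq =>
    rw [map_add, map_add, hp, hq, ← Finset.sum_add_distrib]
    refine Finset.sum_congr rfl fun i _ => ?_
    rw [map_add, map_add, add_mul]
  | mul_X p n hp =>
    rw [map_mul, aeval_X, Derivation.leibniz, hp, smul_eq_mul, smul_eq_mul, Finset.mul_sum]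
    have h1 : ∀ i, aeval f (pderiv i (p * X n)) * D (f i) =
        f n * (aeval f (pderiv i p) * D (f i)) +
          aeval f p * ((if i = n then 1 else 0) * D (f i)) := by
      intro i
      rw [Derivation.leibniz, smul_eq_mul, smul_eq_mul, map_add, map_mul, map_mul, aeval_X,
        pderiv_X]
      by_cases h : i = n
      · subst h
        rw [Pi.single_eq_same, map_one, if_pos rfl]
        ring
      · rw [Pi.single_eq_of_ne (Ne.symm h), map_zero, if_neg h]
        ring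
    rw [Finset.sum_congr rfl fun i _ => h1 i, Finset.sum_add_distrib, ← Finset.mul_sum]
    rw [add_comm]
    congr 1
    simp

lemma grad_Gp (p : Fin 6 → ℂ) : grad Gp p = ![p 5, - p 4, p 3, p 2, - p 1, p 0] := by
  funext j
  unfold grad Gp
  fin_cases j <;> simp [pderiv_X, Derivation.leibniz]

lemma Bf_eq (p u : Fin 6 → ℂ) : Bf p u = ∑ I, grad Gp p I * u I := by
  rw [grad_Gp]
  simp [Fin.sum_univ_six, Bf]
  ring

lemma eval_Gp (p : Fin 6 → ℂ) : eval p Gp = p 0 * p 5 - p 1 * p 4 + p 2 * p 3 := by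
  simp [Gp]

lemma eval_gp (x y : Fin 3 → ℂ) (I : Fin 6) : eval (pt x y) (gp I) = aff x y I := by
  unfold gp aff plu pt
  fin_cases I <;> simp

lemma eval_kap (K : MvPolynomial (Fin 6) ℂ) (x y : Fin 3 → ℂ) :
    eval (pt x y) (kap K) = eval (aff x y) K := by
  unfold kap
  have h1 : (eval (pt x y) : SA →+* ℂ) (aeval gp K) =
      aeval (fun I => eval (pt x y) (gp I)) K := by
    have h2 : ((aeval (pt x y) : SA →ₐ[ℂ] ℂ).comp (aeval gp) : MvPolynomial (Fin 6) ℂ →ₐ[ℂ] ℂ) =
        aeval (fun I => eval (pt x y) (gp I)) := by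
      apply MvPolynomial.algHom_ext
      intro I
      rw [AlgHom.comp_apply, aeval_X, aeval_X]
      rfl
    exact DFunLike.congr_fun h2 K
  rw [h1]
  have h3 : (fun I => eval (pt x y) (gp I)) = aff x y := funext (eval_gp x y)
  rw [h3]
  rfl

/-- the linear substitution -/
noncomputable def lsub (T : Matrix (Fin 6) (Fin 6) ℂ) (K : MvPolynomial (Fin 6) ℂ) :
    MvPolynomial (Fin 6) ℂ := aeval (fun I => ∑ J, C (T I J) * X J) K

lemma eval_lsub (T : Matrix (Fin 6) (Fin 6) ℂ) (K : MvPolynomial (Fin 6) ℂ) (v : Fin 6 → ℂ) :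
    aeval v (lsub T K) = aeval (T *ᵥ v) K := by
  unfold lsub
  have h2 : ((aeval v : MvPolynomial (Fin 6) ℂ →ₐ[ℂ] ℂ).comp
      (aeval (fun I => ∑ J, C (T I J) * X J)) : MvPolynomial (Fin 6) ℂ →ₐ[ℂ] ℂ) =
      aeval (T *ᵥ v) := by
    apply MvPolynomial.algHom_ext
    intro I
    rw [AlgHom.comp_apply, aeval_X, aeval_X, map_sum]
    unfold Matrix.mulVec dotProduct
    refine Finset.sum_congr rfl fun J _ => ?_
    rw [map_mul, aeval_X, aeval_C]
    rfl
  exact DFunLike.congr_fun h2 K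

lemma grad_lsub (T : Matrix (Fin 6) (Fin 6) ℂ) (K : MvPolynomial (Fin 6) ℂ) (v : Fin 6 → ℂ)
    (I : Fin 6) : grad (lsub T K) v I = ∑ J, grad K (T *ᵥ v) J * T J I := by
  unfold grad
  have h1 : pderiv I (lsub T K) = ∑ J, lsub T (pderiv J K) * C (T J I) := by
    unfold lsub
    rw [der_aeval]
    refine Finset.sum_congr rfl fun J _ => ?_
    congr 1
    rw [map_sum, Finset.sum_eq_single I]
    · rw [Derivation.leibniz, pderiv_X, Pi.single_eq_same, pderiv_C, smul_zero, add_zero,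
        smul_eq_mul, mul_one]
    · intro L _ hL
      rw [Derivation.leibniz, pderiv_X, Pi.single_eq_of_ne hL, pderiv_C, smul_zero, smul_zero,
        add_zero]
    · intro h
      exact absurd (Finset.mem_univ _) h
  rw [h1, map_sum]
  refine Finset.sum_congr rfl fun J _ => ?_
  rw [map_mul, eval_lsub, aeval_C]
  rfl

lemma Bf_daff (x y ξ η : Fin 3 → ℂ) : Bf (aff x y) (daff x y ξ η) = 0 := by
  simp [Bf, aff, plu, daff]
  ring

lemma Bf_polar (p u : Fin 6 → ℂ) : Bf p u = eval (p + u) Gp - eval p Gp - eval u Gp := by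
  rw [eval_Gp, eval_Gp, eval_Gp]
  simp only [Bf, Pi.add_apply]
  ring

lemma exists_Bf {p : Fin 6 → ℂ} (hp : p ≠ 0) : ∃ u, Bf p u ≠ 0 := by
  by_contra h
  push Not at h
  apply hp
  have h0 := h (Pi.single 0 1)
  have h1 := h (Pi.single 1 1)
  have h2 := h (Pi.single 2 1)
  have h3 := h (Pi.single 3 1)
  have h4 := h (Pi.single 4 1)
  have h5 := h (Pi.single 5 1)
  simp [Bf] at h0 h1 h2 h3 h4 h5
  funext i
  fin_cases i <;> simp [h0, h1, h2, h3, h4, h5]

/-- **TSING**. -/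
theorem t_TSING (h1 : S_D6) (h2 : S_TANA) (h3 : S_CHAIN) : S_TSING := by
  intro K K' T c c' _ _ hT hc hc' hG hK x y hy hv hs
  obtain ⟨hv0, hvG, hvK⟩ := hv
  have hT' : T⁻¹ * T = 1 := Matrix.nonsing_inv_mul T hT
  have hT'' : T * T⁻¹ = 1 := Matrix.mul_nonsing_inv T hT
  have hTv0 : T *ᵥ aff x y ≠ 0 := by
    intro h
    apply hv0
    have := congrArg (fun w => T⁻¹ *ᵥ w) h
    simp only [Matrix.mulVec_mulVec, hT', Matrix.one_mulVec, Matrix.mulVec_zero] at this
    exact this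
  refine ⟨⟨hTv0, ?_, ?_⟩, ?_⟩
  · rw [hG, hvG, mul_zero]
  · rw [hK, hvK, mul_zero]
  -- the gradients
  obtain ⟨v, hvdef⟩ : ∃ v, v = aff x y := ⟨_, rfl⟩
  rw [← hvdef] at hv0 hvG hvK hs hTv0 ⊢
  -- the polynomial identity
  have hpoly : kap (lsub T K') = kap (C c * K) := by
    apply MvPolynomial.funext
    intro z
    have hz : z = pt (fun i => z (Sum.inl i)) (fun i => z (Sum.inr i)) := by
      funext i
      rcases i with i | i <;> rfl
    rw [hz, eval_kap, eval_kap, map_mul, eval_C, ← hK]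
    exact eval_lsub T K' _
  have hchain : ∀ ξ η : Fin 3 → ℂ, ∑ J, grad K' (T *ᵥ v) J * (T *ᵥ daff x y ξ η) J =
      c * ∑ I, grad K v I * daff x y ξ η I := by
    intro ξ η
    have e1 := h3 ℂ (lsub T K') x y ξ η
    have e2 := h3 ℂ (C c * K) x y ξ η
    rw [hpoly] at e1
    rw [e1] at e2
    rw [← hvdef] at e2
    have e3 : ∑ I, grad (lsub T K') v I * daff x y ξ η I =
        ∑ J, grad K' (T *ᵥ v) J * (T *ᵥ daff x y ξ η) J := by
      simp only [grad_lsub, Finset.sum_mul, Matrix.mulVec, dotProduct, Finset.mul_sum]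
      rw [Finset.sum_comm]
      refine Finset.sum_congr rfl fun J _ => Finset.sum_congr rfl fun I _ => ?_
      ring
    have e4 : ∑ I, grad (C c * K) v I * daff x y ξ η I = c * ∑ I, grad K v I * daff x y ξ η I := by
      rw [Finset.mul_sum]
      refine Finset.sum_congr rfl fun I _ => ?_
      unfold grad
      rw [Derivation.leibniz, pderiv_C, smul_zero, add_zero, smul_eq_mul, map_mul, aeval_C]
      simp only [Algebra.algebraMap_self, RingHom.id_apply]
      ring
    rw [← e3, e2, e4]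
  -- the singular point
  obtain ⟨a, b, hab, hne⟩ : ∃ a b : ℂ, (∀ j, a * grad Gp v j + b * grad K v j = 0) ∧
      ¬ (a = 0 ∧ b = 0) := by
    by_contra hcon
    push Not at hcon
    apply hs
    unfold SmoothAt
    rw [h1 ℂ (YY K v)]
    intro a b hab
    exact hcon a b hab
  have hb : b ≠ 0 := by
    intro hb
    have ha : a ≠ 0 := fun ha => hne ⟨ha, hb⟩
    obtain ⟨u, hu⟩ := exists_Bf hv0
    apply hu
    rw [Bf_eq]
    refine Finset.sum_eq_zero fun j _ => ?_
    have := hab j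
    rw [hb, zero_mul, add_zero] at this
    rw [(mul_eq_zero.1 this).resolve_left ha, zero_mul]
  have hgK : ∀ u, Bf v u = 0 → ∑ I, grad K v I * u I = 0 := by
    intro u hu
    rw [Bf_eq] at hu
    have e1 : b * ∑ I, grad K v I * u I = -a * ∑ I, grad Gp v I * u I := by
      rw [Finset.mul_sum, Finset.mul_sum]
      refine Finset.sum_congr rfl fun I _ => ?_
      linear_combination (u I) * hab I
    rw [hu, mul_zero] at e1
    exact (mul_eq_zero.1 e1).resolve_left hb
  have hg' : ∀ u, Bf v u = 0 → ∑ J, grad K' (T *ᵥ v) J * (T *ᵥ u) J = 0 := by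
    intro u hu
    obtain ⟨ξ, η, rfl⟩ := h2 ℂ x y hy u (by rw [← hvdef]; exact hu)
    rw [hchain, hgK _ hu, mul_zero]
  have hpol : ∀ u, Bf (T *ᵥ v) (T *ᵥ u) = c' * Bf v u := by
    intro u
    rw [Bf_polar, Bf_polar, ← Matrix.mulVec_add, hG, hG, hG]
    ring
  have hg'' : ∀ u, Bf (T *ᵥ v) u = 0 → ∑ J, grad K' (T *ᵥ v) J * u J = 0 := by
    intro u hu
    have e1 : T *ᵥ (T⁻¹ *ᵥ u) = u := by
      rw [Matrix.mulVec_mulVec, hT'', Matrix.one_mulVec]
    have e2 := hpol (T⁻¹ *ᵥ u)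
    rw [e1, hu] at e2
    have e3 := hg' (T⁻¹ *ᵥ u) ((mul_eq_zero.1 e2.symm).resolve_left hc')
    rwa [e1] at e3
  obtain ⟨u₀, hu₀⟩ := exists_Bf hTv0
  intro hsm
  unfold SmoothAt at hsm
  rw [h1 ℂ (YY K' (T *ᵥ v))] at hsm
  have hfin := hsm (-(∑ J, grad K' (T *ᵥ v) J * u₀ J)) (Bf (T *ᵥ v) u₀) (by
    intro j
    show -(∑ J, grad K' (T *ᵥ v) J * u₀ J) * grad Gp (T *ᵥ v) j +
      Bf (T *ᵥ v) u₀ * grad K' (T *ᵥ v) j = 0
    have e1 := hg'' (Bf (T *ᵥ v) u₀ • Pi.single j 1 - grad Gp (T *ᵥ v) j • u₀) (by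
      rw [Bf_eq (T *ᵥ v) (Bf (T *ᵥ v) u₀ • Pi.single j 1 - grad Gp (T *ᵥ v) j • u₀)]
      simp only [Pi.sub_apply, Pi.smul_apply, smul_eq_mul, mul_sub, Finset.sum_sub_distrib]
      have e2 : ∑ I, grad Gp (T *ᵥ v) I * (Bf (T *ᵥ v) u₀ * (Pi.single j 1 : Fin 6 → ℂ) I) =
          grad Gp (T *ᵥ v) j * Bf (T *ᵥ v) u₀ := by
        rw [Finset.sum_eq_single j]
        · rw [Pi.single_eq_same, mul_one]
        · intro I _ hI
          rw [Pi.single_eq_of_ne hI, mul_zero, mul_zero]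
        · intro h
          exact absurd (Finset.mem_univ _) h
      have e3 : ∑ I, grad Gp (T *ᵥ v) I * (grad Gp (T *ᵥ v) j * u₀ I) =
          grad Gp (T *ᵥ v) j * Bf (T *ᵥ v) u₀ := by
        rw [Bf_eq, Finset.mul_sum]
        exact Finset.sum_congr rfl fun I _ => by ring
      rw [e2, e3, sub_self])
    simp only [Pi.sub_apply, Pi.smul_apply, smul_eq_mul, mul_sub, Finset.sum_sub_distrib] at e1
    have e2 : ∑ I, grad K' (T *ᵥ v) I * (Bf (T *ᵥ v) u₀ * (Pi.single j 1 : Fin 6 → ℂ) I) =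
        grad K' (T *ᵥ v) j * Bf (T *ᵥ v) u₀ := by
      rw [Finset.sum_eq_single j]
      · rw [Pi.single_eq_same, mul_one]
      · intro I _ hI
        rw [Pi.single_eq_of_ne hI, mul_zero, mul_zero]
      · intro h
        exact absurd (Finset.mem_univ _) h
    have e3 : ∑ I, grad K' (T *ᵥ v) I * (grad Gp (T *ᵥ v) j * u₀ I) =
        grad Gp (T *ᵥ v) j * ∑ I, grad K' (T *ᵥ v) I * u₀ I := by
      rw [Finset.mul_sum]
      exact Finset.sum_congr rfl fun I _ => by ring
    rw [e2, e3] at e1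
    linear_combination e1)
  exact hu₀ hfin.2

end Pool.Agent.H892.ZL.WTSING
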