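import Mathlib
import Pool.Agent.H892.ZL.Stm

set_option autoImplicit false

/-!
Homogenization with respect to a variable.
-/

namespace Pool.Agent.H892.ZL.WHOMOG

open Pool.Agent.H892.ZL
open MvPolynomial

theorem t_HOMOG : S_HOMOG := by
  intro M A n hA
  refine ⟨∑ m ∈ A.support, monomial (m + Finsupp.single M (n - m.degree)) (coeff m A), ?_, ?_⟩
  · refine IsHomogeneous.sum _ _ _ fun m hm => ?_
    refine isHomogeneous_monomial _ ?_
    have h1 : m.degree ≤ n := by
      have h2 := le_totalDegree hm
      have h3 : (m.sum fun _ e => e) = m.degree := by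
        simp [Finsupp.degree, Finsupp.sum]
      rw [h3] at h2
      exact h2.trans hA
    rw [map_add, Finsupp.degree_single]
    omega
  · intro E _ _ P hP
    have hsum : aeval (fun i => P i / P M) A =
        ∑ m ∈ A.support, algebraMap ℂ E (coeff m A) * ∏ i, (P i / P M) ^ (m i) := by
      conv_lhs => rw [A.as_sum]
      rw [map_sum]
      refine Finset.sum_congr rfl fun m _ => ?_
      rw [aeval_monomial, Finsupp.prod_fintype _ _ (fun i => pow_zero _)]
    rw [hsum, map_sum, Finset.mul_sum]
    refine Finset.sum_congr rfl fun m hm => ?_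
    have h1 : m.degree ≤ n := by
      have h2 := le_totalDegree hm
      have h3 : (m.sum fun _ e => e) = m.degree := by
        simp [Finsupp.degree, Finsupp.sum]
      rw [h3] at h2
      exact h2.trans hA
    have hs : ((Finsupp.single M (n - m.degree)).prod fun i k => P i ^ k) =
        P M ^ (n - m.degree) := Finsupp.prod_single_index (pow_zero _)
    rw [aeval_monomial, Finsupp.prod_add_index' (fun i => pow_zero _) (fun i a b => pow_add _ _ _),
      hs, Finsupp.prod_fintype _ _ (fun i => pow_zero _)]
    have h4 : ∏ i, (P i / P M) ^ (m i) = (∏ i, P i ^ (m i)) / P M ^ m.degree := by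
      rw [Finsupp.degree_eq_sum, ← Finset.prod_pow_eq_pow_sum, ← Finset.prod_div_distrib]
      refine Finset.prod_congr rfl fun i _ => ?_
      rw [div_pow]
    rw [h4]
    have h5 : P M ^ n = P M ^ (n - m.degree) * P M ^ m.degree := by
      rw [← pow_add, Nat.sub_add_cancel h1]
    rw [h5]
    have h6 : P M ^ m.degree ≠ 0 := pow_ne_zero _ hP
    field_simp

end Pool.Agent.H892.ZL.WHOMOG
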